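import Pool.Agent.H25.RK.DGe
import Pool.Agent.H63.VC7.DGb

/-!
# The factor of a node with a small summation index
-/

set_option autoImplicit false

open Complex
open Pool.Agent.H63.VC Pool.Agent.H63.VC3 Pool.Agent.H63.VC7

namespace Pool.Agent.H25.RK

variable {m : ℕ}

/-- The first factors. -/
noncomputable def fa (M i : ℕ) (v : ℂ) : ℂ := 2 * cos (Real.pi * (v + (i + 1 / 2) / M))

/-- The second factors. -/
noncomputable def fb (M i : ℕ) (v : ℂ) : ℂ := 2 * cos (Real.pi * (v - (i + 1 / 2) / M))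

theorem PP_eq (M n : ℕ) (v : ℂ) : PP M n v =
    (∏ i ∈ Finset.range n, fa M i v) * ∏ i ∈ Finset.range n, fb M i v := by
  unfold PP fa fb
  rw [← Finset.prod_mul_distrib]
  refine Finset.prod_congr rfl fun i _ => ?_
  ring

theorem fa_val {M : ℕ} (hM : 0 < M) (X i : ℕ) :
    fa M i ((vl 2 M X : ℝ) : ℂ) = ((sg M (X + i + 1) : ℝ) : ℂ) := by
  have hM' : (M : ℂ) ≠ 0 := by exact_mod_cast hM.ne'
  rw [sg_cast]
  unfold fa vl bt
  rw [← cos_pi_div_two_sub, ← cos_neg]
  congr 2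
  push_cast
  field_simp
  ring

theorem fb_val {M : ℕ} (hM : 0 < M) {X i : ℕ} (h : i ≤ X) :
    fb M i ((vl 2 M X : ℝ) : ℂ) = ((sg M (X - i) : ℝ) : ℂ) := by
  have hM' : (M : ℂ) ≠ 0 := by exact_mod_cast hM.ne'
  rw [sg_cast, Nat.cast_sub h]
  unfold fb vl bt
  rw [← cos_pi_div_two_sub, ← cos_neg]
  congr 2
  push_cast
  field_simp
  ring

theorem fb_val' {M : ℕ} (hM : 0 < M) {X i : ℕ} (h : X ≤ i) :
    fb M i ((vl 2 M X : ℝ) : ℂ) = -((sg M (i - X) : ℝ) : ℂ) := by
  have hM' : (M : ℂ) ≠ 0 := by exact_mod_cast hM.ne'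
  rw [sg_cast, Nat.cast_sub h]
  unfold fb vl bt
  rw [← mul_neg, ← sin_neg, ← cos_pi_div_two_sub, ← cos_neg]
  congr 2
  push_cast
  field_simp
  ring

theorem sg_zero (M : ℕ) : sg M 0 = 0 := by simp [sg]

theorem fb_self {M : ℕ} (hM : 0 < M) (X : ℕ) : fb M X ((vl 2 M X : ℝ) : ℂ) = 0 := by
  rw [fb_val hM le_rfl, Nat.sub_self, sg_zero, ofReal_zero]

/-- The product of the first factors. -/
theorem prod_fa {M : ℕ} (hM : 0 < M) (X n : ℕ) :
    ((S M X : ℝ) : ℂ) * ∏ i ∈ Finset.range n, fa M i ((vl 2 M X : ℝ) : ℂ) =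
      ((S M (X + n) : ℝ) : ℂ) := by
  induction n with
  | zero => simp
  | succ n ih =>
    rw [Finset.prod_range_succ, ← mul_assoc, ih, fa_val hM, ← add_assoc, S_succ]
    push_cast
    ring

theorem prod_fb_lt {M : ℕ} (hM : 0 < M) {X n : ℕ} (h : n ≤ X) :
    ((S M (X - n) : ℝ) : ℂ) * ∏ i ∈ Finset.range n, fb M i ((vl 2 M X : ℝ) : ℂ) =
      ((S M X : ℝ) : ℂ) := by
  induction n with
  | zero => simp
  | succ n ih =>
    rw [Finset.prod_range_succ, fb_val hM (by omega), ← ih (by omega)]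
    have : X - n = (X - (n + 1)) + 1 := by omega
    rw [this, S_succ]
    push_cast
    ring

theorem prod_fb_full {M : ℕ} (hM : 0 < M) (X : ℕ) :
    ∏ i ∈ Finset.range X, fb M i ((vl 2 M X : ℝ) : ℂ) = ((S M X : ℝ) : ℂ) := by
  have := prod_fb_lt hM (le_refl X)
  rw [Nat.sub_self, S_zero, ofReal_one, one_mul] at this
  exact this

theorem prod_fb_gt {M : ℕ} (hM : 0 < M) (X t : ℕ) :
    ∏ i ∈ Finset.Ico (X + 1) (X + 1 + t), fb M i ((vl 2 M X : ℝ) : ℂ) =
      (-1) ^ t * ((S M t : ℝ) : ℂ) := by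
  induction t with
  | zero => simp [S_zero]
  | succ t ih =>
    rw [← add_assoc, Finset.prod_Ico_succ_top (by omega), ih, fb_val' hM (by omega)]
    have : X + 1 + t - X = t + 1 := by omega
    rw [this, S_succ, pow_succ]
    push_cast
    ring

/-- The values of the slot factor at the summation points. -/
noncomputable def qv (M k X : ℕ) : ℝ :=
  if M ≤ X + k + 1 ∧ X ≤ k then 1 / (S M (k - X) * S M (X + k + 1 - M)) else 0

theorem qc_val {M k X : ℕ} (hk : k < M) (hX : X < M) :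
    qc M k ((vl 2 M X : ℝ) : ℂ) = ((qv M k X : ℝ) : ℂ) := by
  have hM : 0 < M := by omega
  have hM' : (M : ℂ) ≠ 0 := by exact_mod_cast hM.ne'
  rw [qc_PP, PP_eq]
  unfold qv
  have s1 : ((S M X : ℝ) : ℂ) ≠ 0 := by exact_mod_cast (S_pos hX).ne'
  by_cases h1 : M ≤ X + k + 1
  · have h2 : M - 1 - k ≤ X := by omega
    have s2 : ((S M (X - (M - 1 - k)) : ℝ) : ℂ) ≠ 0 := by
      exact_mod_cast (S_pos (show X - (M - 1 - k) < M by omega)).ne'
    have pa := prod_fa hM X (M - 1 - k)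
    have pb := prod_fb_lt hM h2
    have e2 : X - (M - 1 - k) = X + k + 1 - M := by omega
    have pab : (∏ i ∈ Finset.range (M - 1 - k), fa M i ((vl 2 M X : ℝ) : ℂ)) *
        ∏ i ∈ Finset.range (M - 1 - k), fb M i ((vl 2 M X : ℝ) : ℂ) =
        ((S M (X + (M - 1 - k)) : ℝ) : ℂ) / ((S M (X - (M - 1 - k)) : ℝ) : ℂ) := by
      rw [← pa, eq_div_iff s2]
      linear_combination (∏ i ∈ Finset.range (M - 1 - k), fa M i ((vl 2 M X : ℝ) : ℂ)) * pb
    rw [pab]
    by_cases h3 : X ≤ k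
    · rw [if_pos ⟨h1, h3⟩]
      have e1 : S M (X + (M - 1 - k)) = M / S M (k - X) := by
        rw [← S_inv (by omega)]
        congr 1
        omega
      have s3 : ((S M (k - X) : ℝ) : ℂ) ≠ 0 := by
        exact_mod_cast (S_pos (show k - X < M by omega)).ne'
      rw [e2] at s2
      rw [e1, e2]
      push_cast
      field_simp
    · rw [if_neg (by tauto), S_eq_zero hM (show M ≤ X + (M - 1 - k) by omega)]
      simp
  · rw [if_neg (by tauto), Finset.prod_eq_zero (i := X) (s := Finset.range (M - 1 - k))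
      (f := fun i => fb M i ((vl 2 M X : ℝ) : ℂ)) (Finset.mem_range.mpr (by omega))
      (fb_self hM X)]
    simp

/-- The derivatives of the slot factor at its simple zeros. -/
noncomputable def qd (M k X : ℕ) : ℝ :=
  2 * Real.pi * ((-1) ^ (M - 2 - k - X) * S M (M - 2 - k - X)) / S M (k - X)

theorem fb_deriv {M : ℕ} (hM : 0 < M) (X : ℕ) :
    HasDerivAt (fb M X) (2 * Real.pi) ((vl 2 M X : ℝ) : ℂ) := by
  have hM' : (M : ℂ) ≠ 0 := by exact_mod_cast hM.ne'
  unfold fb
  have h := (((hasDerivAt_id ((vl 2 M X : ℝ) : ℂ)).sub_const (((X : ℂ) + 1 / 2) / M)).const_mul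
    (Real.pi : ℂ)).ccos.const_mul (2 : ℂ)
  refine h.congr_deriv ?_
  simp only [id_eq]
  have : (Real.pi : ℂ) * (((vl 2 M X : ℝ) : ℂ) - ((X : ℂ) + 1 / 2) / M) = -(Real.pi / 2) := by
    unfold vl bt
    push_cast
    field_simp
    ring
  rw [this, sin_neg, sin_pi_div_two]
  ring

theorem fa_diff (M i : ℕ) : Differentiable ℂ (fa M i) := by
  unfold fa
  fun_prop

theorem fb_diff (M i : ℕ) : Differentiable ℂ (fb M i) := by
  unfold fb
  fun_prop

/-- The derivative of a product at a zero of the first factor. -/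
theorem deriv_mul_zero {f g : ℂ → ℂ} {f' p : ℂ} (hf : HasDerivAt f f' p)
    (hg : DifferentiableAt ℂ g p) (h : f p = 0) : HasDerivAt (fun v => f v * g v) (f' * g p) p := by
  refine (hf.mul hg.hasDerivAt).congr_deriv ?_
  rw [h]
  ring

theorem qc_deriv_low {M k X : ℕ} (hk : 2 * k + 2 ≤ M) (hX : X ≤ k) :
    HasDerivAt (qc M k) ((qd M k X : ℝ) : ℂ) ((vl 2 M X : ℝ) : ℂ) := by
  have hM : 0 < M := by omega
  have hM' : (M : ℂ) ≠ 0 := by exact_mod_cast hM.ne'
  have e : qc M k = fun v => fb M X v * (1 / M * ((∏ i ∈ Finset.range (M - 1 - k), fa M i v) *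
      ((∏ i ∈ Finset.range X, fb M i v) * ∏ i ∈ Finset.Ico (X + 1) (X + 1 + (M - 2 - k - X)),
        fb M i v))) := by
    funext v
    rw [qc_PP, PP_eq]
    have h1 : ∏ i ∈ Finset.range (M - 1 - k), fb M i v = (∏ i ∈ Finset.range X, fb M i v) *
        (fb M X v * ∏ i ∈ Finset.Ico (X + 1) (X + 1 + (M - 2 - k - X)), fb M i v) := by
      have h2 : M - 1 - k = X + 1 + (M - 2 - k - X) := by omega
      rw [h2, Finset.range_eq_Ico, ← Finset.prod_Ico_consecutive _ (Nat.zero_le (X + 1))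
        (Nat.le_add_right _ _), Finset.prod_Ico_succ_top (Nat.zero_le X), ← Finset.range_eq_Ico]
      have h3 : X + 1 + (M - 2 - k - X) - X - 1 = M - 2 - k - X := by omega
      ring
    rw [h1]
    ring
  have hg : Differentiable ℂ fun v => (1 / (M : ℂ) * ((∏ i ∈ Finset.range (M - 1 - k), fa M i v) *
      ((∏ i ∈ Finset.range X, fb M i v) * ∏ i ∈ Finset.Ico (X + 1) (X + 1 + (M - 2 - k - X)),
        fb M i v))) := by
    have g1 : Differentiable ℂ fun v => ∏ i ∈ Finset.range (M - 1 - k), fa M i v :=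
      Differentiable.fun_finsetProd fun i _ => fa_diff M i
    have g2 : Differentiable ℂ fun v => ∏ i ∈ Finset.range X, fb M i v :=
      Differentiable.fun_finsetProd fun i _ => fb_diff M i
    have g3 : Differentiable ℂ fun v => ∏ i ∈ Finset.Ico (X + 1) (X + 1 + (M - 2 - k - X)),
        fb M i v :=
      Differentiable.fun_finsetProd fun i _ => fb_diff M i
    fun_prop
  rw [e]
  refine (deriv_mul_zero (fb_deriv hM X) (hg _) (fb_self hM X)).congr_deriv ?_
  have s1 : ((S M X : ℝ) : ℂ) ≠ 0 := by exact_mod_cast (S_pos (show X < M by omega)).ne'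
  have pa := prod_fa hM X (M - 1 - k)
  have pb := prod_fb_full hM X
  have pc := prod_fb_gt hM X (M - 2 - k - X)
  rw [pb, pc]
  have e1 : S M (X + (M - 1 - k)) = M / S M (k - X) := by
    rw [← S_inv (by omega)]
    congr 1
    omega
  have s3 : ((S M (k - X) : ℝ) : ℂ) ≠ 0 := by
    exact_mod_cast (S_pos (show k - X < M by omega)).ne'
  rw [e1] at pa
  unfold qd
  push_cast at pa ⊢
  have pa' : (∏ i ∈ Finset.range (M - 1 - k), fa M i ((vl 2 M X : ℝ) : ℂ)) * (S M X : ℂ) =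
      M / (S M (k - X) : ℂ) := by
    rw [mul_comm]
    exact pa
  calc 2 * (Real.pi : ℂ) * (1 / M * ((∏ i ∈ Finset.range (M - 1 - k),
        fa M i ((vl 2 M X : ℝ) : ℂ)) * ((S M X : ℂ) *
        ((-1) ^ (M - 2 - k - X) * (S M (M - 2 - k - X) : ℂ)))))
      = 2 * (Real.pi : ℂ) * (1 / M * ((∏ i ∈ Finset.range (M - 1 - k),
        fa M i ((vl 2 M X : ℝ) : ℂ)) * (S M X : ℂ)) *
        ((-1) ^ (M - 2 - k - X) * (S M (M - 2 - k - X) : ℂ))) := by ring
    _ = _ := by
      rw [pa']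
      field_simp

theorem qc_double {M k X : ℕ} (hk : k < X) (hX : X + k + 1 < M) :
    HasDerivAt (qc M k) 0 ((vl 2 M X : ℝ) : ℂ) := by
  have hM : 0 < M := by omega
  have e : qc M k = fun v => (1 / M * (∏ i ∈ Finset.range (M - 1 - k), fa M i v)) *
      ∏ i ∈ Finset.range (M - 1 - k), fb M i v := by
    funext v
    rw [qc_PP, PP_eq]
    ring
  have g1 : Differentiable ℂ fun v => ∏ i ∈ Finset.range (M - 1 - k), fa M i v :=
    Differentiable.fun_finsetProd fun i _ => fa_diff M i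
  have g2 : Differentiable ℂ fun v => ∏ i ∈ Finset.range (M - 1 - k), fb M i v :=
    Differentiable.fun_finsetProd fun i _ => fb_diff M i
  have z1 : ∏ i ∈ Finset.range (M - 1 - k), fa M i ((vl 2 M X : ℝ) : ℂ) = 0 := by
    refine Finset.prod_eq_zero (i := M - 1 - X) (Finset.mem_range.mpr (by omega)) ?_
    rw [fa_val hM]
    have : X + (M - 1 - X) + 1 = M := by omega
    rw [this, sg_self hM, ofReal_zero]
  have z2 : ∏ i ∈ Finset.range (M - 1 - k), fb M i ((vl 2 M X : ℝ) : ℂ) = 0 :=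
    Finset.prod_eq_zero (i := X) (Finset.mem_range.mpr (by omega)) (fb_self hM X)
  have h1 : DifferentiableAt ℂ (fun v => (1 / (M : ℂ) * (∏ i ∈ Finset.range (M - 1 - k),
      fa M i v))) ((vl 2 M X : ℝ) : ℂ) := (g1 _).const_mul _
  rw [e]
  refine (deriv_mul_zero h1.hasDerivAt (g2 _) (by rw [z1, mul_zero])).congr_deriv ?_
  rw [z2, mul_zero]

/-- The derivatives of the summands at the zeros of a slot factor. -/
theorem NT_deriv_zero (r : ℝ) {M : ℕ} {A : Finset (Fin m)} (k : Fin m → ℕ) {j : Fin m}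
    (hj : j ∈ A) {d p : ℂ} (hd : HasDerivAt (qc M (k j)) d p) (h : qc M (k j) p = 0) :
    deriv (NT r M A k) p = exp (2 * Real.pi * I * r * M * p ^ 2) * (2 * sin (2 * Real.pi * p)) *
      d * ∏ i ∈ A.erase j, qc M (k i) p := by
  have e : NT r M A k = fun v => qc M (k j) v * (exp (2 * Real.pi * I * r * M * v ^ 2) *
      (2 * sin (2 * Real.pi * v)) * ∏ i ∈ A.erase j, qc M (k i) v) := by
    funext v
    unfold NT
    rw [← Finset.mul_prod_erase A _ hj]
    ring
  have g : Differentiable ℂ fun v => ∏ i ∈ A.erase j, qc M (k i) v :=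
    Differentiable.fun_finsetProd fun i _ => DGb_qc_diff M (k i)
  have g' : Differentiable ℂ fun v => (exp (2 * Real.pi * I * r * M * v ^ 2) *
      (2 * sin (2 * Real.pi * v)) * ∏ i ∈ A.erase j, qc M (k i) v) := by fun_prop
  rw [e, (deriv_mul_zero hd (g' _) h).deriv]
  ring

theorem NT_deriv_reflect (r : ℝ) (M : ℕ) (A : Finset (Fin m)) (k : Fin m → ℕ) (v : ℂ) :
    deriv (NT r M A k) (-v) = deriv (NT r M A k) v := by
  have e : (fun w => NT r M A k (-w)) = fun w => -NT r M A k w :=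
    funext fun w => DGb_NT_odd r M A k w
  have h1 := congrArg (fun f : ℂ → ℂ => deriv f v) e
  rw [deriv_comp_neg, deriv.fun_neg] at h1
  exact neg_injective h1

theorem vl_reflect {M X : ℕ} (hX : X < M) :
    ((vl 2 M (M - 1 - X) : ℝ) : ℂ) = -((vl 2 M X : ℝ) : ℂ) := by
  have hM' : (M : ℝ) ≠ 0 := by exact_mod_cast (by omega : M ≠ 0)
  rw [← ofReal_neg]
  congr 1
  unfold vl bt
  rw [Nat.sub_sub, Nat.cast_sub (by omega)]
  push_cast
  field_simp
  ring

/-- The factor of a node, one of whose edges carries a small index. -/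
theorem DG_low (r : ℝ) {M : ℕ} {A : Finset (Fin m)} (k : Fin m → ℕ) (hk : ∀ i ∈ A, k i < M)
    {j : Fin m} (hj : j ∈ A) (h : 2 * k j + 2 ≤ M) :
    DG r M A k = 2 * ∑ X ∈ Finset.range (k j + 1),
      exp (2 * Real.pi * I * r * M * ((vl 2 M X : ℝ) : ℂ) ^ 2) *
        (2 * sin (2 * Real.pi * ((vl 2 M X : ℝ) : ℂ))) * ((qd M (k j) X : ℝ) : ℂ) *
          ∏ i ∈ A.erase j, ((qv M (k i) X : ℝ) : ℂ) := by
  have hM : 0 < M := by omega
  set f : ℕ → ℂ := fun X => deriv (NT r M A k) ((vl 2 M X : ℝ) : ℂ) with hf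
  have hfr : ∀ X, X < M → f (M - 1 - X) = f X := by
    intro X hX
    simp only [hf]
    rw [vl_reflect hX, NT_deriv_reflect]
  have hsum : DG r M A k = ∑ X ∈ Finset.range M, f X := rfl
  have h1 : ∑ X ∈ Finset.range M, f X = ∑ X ∈ Finset.range (k j + 1), f X +
      ∑ X ∈ Finset.Ico (k j + 1) (M - 1 - k j), f X + ∑ X ∈ Finset.Ico (M - 1 - k j) M, f X := by
    rw [Finset.range_eq_Ico, Finset.range_eq_Ico,
      Finset.sum_Ico_consecutive _ (Nat.zero_le _) (by omega),
      Finset.sum_Ico_consecutive _ (Nat.zero_le _) (by omega)]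
  have h2 : ∑ X ∈ Finset.Ico (k j + 1) (M - 1 - k j), f X = 0 := by
    refine Finset.sum_eq_zero fun X hX => ?_
    rw [Finset.mem_Ico] at hX
    simp only [hf]
    have hv : qc M (k j) ((vl 2 M X : ℝ) : ℂ) = 0 := by
      rw [qc_val (hk j hj) (by omega)]
      unfold qv
      rw [if_neg (by omega), ofReal_zero]
    rw [NT_deriv_zero r k hj (qc_double (by omega) (by omega)) hv]
    ring
  have h3 : ∑ X ∈ Finset.Ico (M - 1 - k j) M, f X = ∑ X ∈ Finset.range (k j + 1), f X := by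
    rw [Finset.sum_Ico_eq_sum_range]
    have e1 : M - (M - 1 - k j) = k j + 1 := by omega
    rw [e1, ← Finset.sum_range_reflect]
    refine Finset.sum_congr rfl fun X hX => ?_
    rw [Finset.mem_range] at hX
    rw [← hfr X (by omega)]
    congr 1
    omega
  rw [hsum, h1, h2, h3, add_zero, ← two_mul]
  congr 1
  refine Finset.sum_congr rfl fun X hX => ?_
  rw [Finset.mem_range] at hX
  have hv : qc M (k j) ((vl 2 M X : ℝ) : ℂ) = 0 := by
    rw [qc_val (hk j hj) (by omega)]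
    unfold qv
    rw [if_neg (by omega), ofReal_zero]
  simp only [hf]
  rw [NT_deriv_zero r k hj (qc_deriv_low h (by omega)) hv]
  congr 1
  refine Finset.prod_congr rfl fun i hi => ?_
  exact qc_val (hk i (Finset.mem_of_mem_erase hi)) (by omega)

theorem qv_nonneg {M k : ℕ} (hk : k < M) (X : ℕ) : 0 ≤ qv M k X := by
  unfold qv
  split_ifs with h
  · have h1 : 0 < S M (k - X) := S_pos (by omega)
    have h2 : 0 < S M (X + k + 1 - M) := S_pos (by omega)
    positivity
  · exact le_rfl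

/-- The bound for the factor of a node, one of whose edges carries a small index. -/
theorem norm_DG_low (r : ℝ) {M : ℕ} {A : Finset (Fin m)} (k : Fin m → ℕ)
    (hk : ∀ i ∈ A, k i < M) {j : Fin m} (hj : j ∈ A) (h : 2 * k j + 2 ≤ M) :
    ‖DG r M A k‖ ≤ 8 * Real.pi * ∑ X ∈ Finset.range (k j + 1),
      S M (M - 2 - k j - X) / S M (k j - X) * ∏ i ∈ A.erase j, qv M (k i) X := by
  rw [DG_low r k hk hj h, norm_mul, norm_ofNat, Finset.mul_sum]
  have hb : ‖∑ X ∈ Finset.range (k j + 1),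
      exp (2 * Real.pi * I * r * M * ((vl 2 M X : ℝ) : ℂ) ^ 2) *
        (2 * sin (2 * Real.pi * ((vl 2 M X : ℝ) : ℂ))) * ((qd M (k j) X : ℝ) : ℂ) *
          ∏ i ∈ A.erase j, ((qv M (k i) X : ℝ) : ℂ)‖ ≤
      ∑ X ∈ Finset.range (k j + 1), 4 * Real.pi * (S M (M - 2 - k j - X) / S M (k j - X) *
        ∏ i ∈ A.erase j, qv M (k i) X) := by
    refine (norm_sum_le _ _).trans (Finset.sum_le_sum fun X hX => ?_)
    rw [Finset.mem_range] at hX
    rw [norm_mul, norm_mul, norm_mul,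
      norm_exp_real_mul_I (x := 2 * Real.pi * r * M * (vl 2 M X) ^ 2) (by push_cast; ring),
      one_mul, norm_mul, norm_ofNat]
    have hs : ‖sin (2 * Real.pi * ((vl 2 M X : ℝ) : ℂ))‖ ≤ 1 := by
      have : sin (2 * Real.pi * ((vl 2 M X : ℝ) : ℂ)) =
          ((Real.sin (2 * Real.pi * vl 2 M X) : ℝ) : ℂ) := by
        push_cast
        rfl
      rw [this, norm_real, Real.norm_eq_abs]
      exact Real.abs_sin_le_one _
    have h1 : 0 < S M (k j - X) := S_pos (by omega)
    have h2 : 0 < S M (M - 2 - k j - X) := S_pos (by omega)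
    have hq : ‖((qd M (k j) X : ℝ) : ℂ)‖ = 2 * Real.pi * (S M (M - 2 - k j - X) /
        S M (k j - X)) := by
      rw [norm_real]
      unfold qd
      rw [norm_div, norm_mul, norm_mul, norm_mul, norm_pow, norm_neg, norm_one, one_pow, one_mul,
        Real.norm_eq_abs, Real.norm_eq_abs, Real.norm_eq_abs, Real.norm_eq_abs,
        abs_of_pos h1, abs_of_pos h2, abs_of_pos Real.pi_pos, abs_of_pos (two_pos)]
      ring
    have hp : ‖∏ i ∈ A.erase j, ((qv M (k i) X : ℝ) : ℂ)‖ = ∏ i ∈ A.erase j, qv M (k i) X := by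
      rw [_root_.norm_prod]
      refine Finset.prod_congr rfl fun i hi => ?_
      rw [norm_real, Real.norm_eq_abs,
        abs_of_nonneg (qv_nonneg (hk i (Finset.mem_of_mem_erase hi)) X)]
    rw [hq, hp]
    have hp0 : 0 ≤ ∏ i ∈ A.erase j, qv M (k i) X :=
      Finset.prod_nonneg fun i hi => qv_nonneg (hk i (Finset.mem_of_mem_erase hi)) X
    have hpi := Real.pi_pos
    calc 2 * ‖sin (2 * Real.pi * ((vl 2 M X : ℝ) : ℂ))‖ *
          (2 * Real.pi * (S M (M - 2 - k j - X) / S M (k j - X))) *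
          ∏ i ∈ A.erase j, qv M (k i) X
        ≤ 2 * 1 * (2 * Real.pi * (S M (M - 2 - k j - X) / S M (k j - X))) *
          ∏ i ∈ A.erase j, qv M (k i) X := by gcongr
      _ = _ := by ring
  calc 2 * _ ≤ 2 * ∑ X ∈ Finset.range (k j + 1), 4 * Real.pi *
        (S M (M - 2 - k j - X) / S M (k j - X) * ∏ i ∈ A.erase j, qv M (k i) X) := by
        gcongr
    _ = _ := by
        rw [Finset.mul_sum]
        refine Finset.sum_congr rfl fun X _ => ?_
        ring

end Pool.Agent.H25.RK
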