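import Pool.Agent.H25.RK.DGe

/-!
# The reflection of the index of a slot
-/

set_option autoImplicit false

open Complex
open Pool.Agent.H63.VC Pool.Agent.H63.VC3 Pool.Agent.H63.VC7

namespace Pool.Agent.H25.RK

theorem prod_one_sub {M : ℕ} (hM : 0 < M) (y : ℂ) :
    ∏ i ∈ Finset.range M, (1 - exp (2 * Real.pi * I / M) ^ i * y) = 1 - y ^ M := by
  have hζ := Complex.isPrimitiveRoot_exp M hM.ne'
  have h := hζ.pow_sub_pow_eq_prod_sub_mul (x := 1) (y := y) hM
  rw [one_pow] at h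
  rw [h]
  refine Finset.prod_bij (fun i _ => exp (2 * Real.pi * I / M) ^ i) ?_ ?_ ?_ ?_
  · intro i _
    rw [Polynomial.mem_nthRootsFinset hM, ← pow_mul, mul_comm i M, pow_mul, hζ.pow_eq_one,
      one_pow]
  · intro i hi j hj hij
    exact hζ.pow_inj (Finset.mem_range.mp hi) (Finset.mem_range.mp hj) hij
  · intro b hb
    rw [Polynomial.mem_nthRootsFinset hM] at hb
    have : NeZero M := ⟨hM.ne'⟩
    obtain ⟨i, hi, hi'⟩ := hζ.eq_pow_of_pow_eq_one hb
    exact ⟨i, Finset.mem_range.mpr hi, hi'⟩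
  · intro i _
    rfl

theorem ww_eq (M : ℕ) (v : ℂ) : ww 2 M v = (-1) ^ (M + 1) * exp (Real.pi * v * I) ^ (2 * M) := by
  rw [← exp_nat_pi, ← exp_nat_mul, ← exp_add]
  unfold ww bt
  rw [exp_eq_exp_iff_exists_int]
  refine ⟨-1, ?_⟩
  push_cast
  ring

theorem prod_s {M : ℕ} (hM : 0 < M) (v : ℂ) :
    ∏ i ∈ Finset.range M, (1 + exp (Real.pi * v * I) ^ 2 *
      exp (2 * Real.pi * (i + 1 / 2) / M * I)) = 1 - ww 2 M v := by
  have hM' : (M : ℂ) ≠ 0 := by exact_mod_cast hM.ne'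
  have h := prod_one_sub hM (-(exp (Real.pi * v * I) ^ 2 * exp (Real.pi / M * I)))
  have e : (-(exp (Real.pi * v * I) ^ 2 * exp (Real.pi / M * I))) ^ M = ww 2 M v := by
    rw [ww_eq, neg_pow, mul_pow, ← pow_mul, ← exp_nat_mul (Real.pi / M * I)]
    have : (M : ℂ) * (Real.pi / M * I) = Real.pi * I := by field_simp
    rw [this, exp_pi_mul_I]
    ring
  rw [e] at h
  rw [← h]
  refine Finset.prod_congr rfl fun i _ => ?_
  have : exp (2 * Real.pi * ((i : ℂ) + 1 / 2) / M * I) =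
      exp (2 * Real.pi * I / M) ^ i * exp (Real.pi / M * I) := by
    rw [← exp_nat_mul, ← exp_add]
    congr 1
    field_simp
  rw [this]
  ring

theorem prod_s' {M : ℕ} (hM : 0 < M) (v : ℂ) :
    ∏ i ∈ Finset.range M, (1 + exp (Real.pi * v * I) ^ 2 *
      exp (-(2 * Real.pi * (i + 1 / 2) / M * I))) = 1 - ww 2 M v := by
  have hM' : (M : ℂ) ≠ 0 := by exact_mod_cast hM.ne'
  rw [← prod_s hM v, ← Finset.prod_range_reflect]
  refine Finset.prod_congr rfl fun i hi => ?_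
  rw [Finset.mem_range] at hi
  congr 2
  rw [exp_eq_exp_iff_exists_int]
  refine ⟨-1, ?_⟩
  have : ((M - 1 - i : ℕ) : ℂ) = M - 1 - i := by
    rw [Nat.sub_sub, Nat.cast_sub (by omega)]
    push_cast
    ring
  rw [this]
  push_cast
  field_simp
  ring

/-- The full product. -/
theorem PP_full {M : ℕ} (hM : 0 < M) (v : ℂ) :
    PP M M v * ww 2 M v = (-1) ^ (M + 1) * (1 - ww 2 M v) ^ 2 := by
  have e : PP M M v * exp (Real.pi * v * I) ^ (2 * M) = (1 - ww 2 M v) ^ 2 := by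
    rw [pow_mul, sq (1 - ww 2 M v)]
    nth_rewrite 1 [← prod_s hM v]
    rw [← prod_s' hM v, ← Finset.prod_mul_distrib]
    unfold PP
    have hcard : (exp (Real.pi * v * I) ^ 2) ^ M =
        ∏ _i ∈ Finset.range M, exp (Real.pi * v * I) ^ 2 := by
      rw [Finset.prod_const, Finset.card_range]
    rw [hcard, ← Finset.prod_mul_distrib]
    refine Finset.prod_congr rfl fun i _ => ?_
    set x : ℂ := exp (Real.pi * v * I) with hx
    set s : ℂ := exp (Real.pi * ((i + 1 / 2) / M) * I) with hs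
    have x0 : x ≠ 0 := exp_ne_zero _
    have s0 : s ≠ 0 := exp_ne_zero _
    have a6 : 2 * cos (Real.pi * (v + (i + 1 / 2) / M)) = x * s + (x * s)⁻¹ := by
      rw [two_cos_eq]
      have : exp ((Real.pi : ℂ) * (v + (i + 1 / 2) / M) * I) = x * s := by
        rw [hx, hs, ← exp_add]; congr 1; ring
      rw [this]
    have a7 : 2 * cos (Real.pi * (v - (i + 1 / 2) / M)) = x * s⁻¹ + (x * s⁻¹)⁻¹ := by
      rw [two_cos_eq]
      have : exp ((Real.pi : ℂ) * (v - (i + 1 / 2) / M) * I) = x * s⁻¹ := by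
        rw [hx, hs, ← exp_neg, ← exp_add]; congr 1; ring
      rw [this]
    have b1 : exp (2 * Real.pi * ((i : ℂ) + 1 / 2) / M * I) = s ^ 2 := by
      rw [hs, ← exp_nat_mul]; congr 1; push_cast; ring
    have b2 : exp (-(2 * Real.pi * ((i : ℂ) + 1 / 2) / M * I)) = (s ^ 2)⁻¹ := by
      rw [exp_neg, b1]
    have a8 : 4 * (cos (Real.pi * (v + (i + 1 / 2) / M)) *
        cos (Real.pi * (v - (i + 1 / 2) / M))) = (x * s + (x * s)⁻¹) * (x * s⁻¹ + (x * s⁻¹)⁻¹) := by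
      rw [← a6, ← a7]
      ring
    rw [a8, b1, b2]
    field_simp
    ring
  have h2 : (-1 : ℂ) ^ (M + 1) * (-1) ^ (M + 1) = 1 := by
    rw [← mul_pow]
    norm_num
  calc PP M M v * ww 2 M v =
      (-1) ^ (M + 1) * (PP M M v * exp (Real.pi * v * I) ^ (2 * M)) := by rw [ww_eq]; ring
    _ = _ := by rw [e]

theorem PP_refl {M n : ℕ} (hn : n ≤ M) (v : ℂ) : PP M n v * PP M (M - n) v = PP M M v := by
  rcases Nat.eq_zero_or_pos M with hM | hM
  · have : n = 0 := by omega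
    rw [hM, this]
    simp [PP]
  have hM' : (M : ℂ) ≠ 0 := by exact_mod_cast hM.ne'
  unfold PP
  rw [Finset.range_eq_Ico M, Finset.range_eq_Ico n,
    ← Finset.prod_Ico_consecutive _ (Nat.zero_le n) hn]
  congr 1
  rw [Finset.prod_Ico_eq_prod_range, ← Finset.prod_range_reflect]
  refine Finset.prod_congr rfl fun i hi => ?_
  rw [Finset.mem_range] at hi
  have e : ((M - n - 1 - i : ℕ) : ℂ) = M - n - 1 - i := by
    rw [Nat.sub_sub, Nat.cast_sub (by omega), Nat.cast_sub hn]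
    push_cast
    ring
  have e1 : (Real.pi : ℂ) * (v + (((M - n - 1 - i : ℕ) : ℂ) + 1 / 2) / M) =
      Real.pi * (v - (((n + i : ℕ) : ℂ) + 1 / 2) / M) + Real.pi := by
    rw [e]
    push_cast
    field_simp
    ring
  have e2 : (Real.pi : ℂ) * (v - (((M - n - 1 - i : ℕ) : ℂ) + 1 / 2) / M) =
      Real.pi * (v + (((n + i : ℕ) : ℂ) + 1 / 2) / M) - Real.pi := by
    rw [e]
    push_cast
    field_simp
    ring
  rw [e1, e2, cos_add_pi, cos_sub_pi]
  ring

/-- The reflection of the index of a slot. -/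
theorem qc_refl {M k : ℕ} (hk : k + 2 ≤ M) {v : ℂ} (hv : ww 2 M v ≠ 1) :
    qc M k v * qc M (M - 2 - k) v * om 2 M v = (-1) ^ (M + 1) / (M : ℂ) ^ 2 := by
  have hM : 0 < M := by omega
  have hM' : (M : ℂ) ≠ 0 := by exact_mod_cast hM.ne'
  rw [qc_PP, qc_PP]
  have e : M - 1 - (M - 2 - k) = M - (M - 1 - k) := by omega
  have h := PP_refl (show M - 1 - k ≤ M by omega) v
  have h' := PP_full hM v
  have hw : 1 - ww 2 M v ≠ 0 := sub_ne_zero.mpr hv.symm
  rw [e]
  unfold om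
  calc 1 / (M : ℂ) * PP M (M - 1 - k) v * (1 / M * PP M (M - (M - 1 - k)) v) *
        (ww 2 M v / (1 - ww 2 M v) ^ 2)
      = 1 / (M : ℂ) ^ 2 * ((PP M (M - 1 - k) v * PP M (M - (M - 1 - k)) v) * ww 2 M v /
        (1 - ww 2 M v) ^ 2) := by
        field_simp
    _ = _ := by
      rw [h, h']
      field_simp

theorem qc_ne {M k : ℕ} (hk : k + 2 ≤ M) {v : ℂ} (hv : ww 2 M v ≠ 1) : qc M k v ≠ 0 := by
  intro h
  have h1 := qc_refl hk hv
  rw [h, zero_mul, zero_mul] at h1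
  have hM : 0 < M := by omega
  have hM' : (M : ℂ) ≠ 0 := by exact_mod_cast hM.ne'
  have : (-1 : ℂ) ^ (M + 1) / (M : ℂ) ^ 2 ≠ 0 :=
    div_ne_zero (pow_ne_zero _ (by norm_num)) (pow_ne_zero _ hM')
  exact this h1.symm

/-- The factor of a slot with a small index, times the weight. -/
theorem qc_om {M k : ℕ} (hk : k + 2 ≤ M) {v : ℂ} (hv : ww 2 M v ≠ 1) :
    qc M k v * om 2 M v = (-1) ^ (M + 1) / ((M : ℂ) ^ 2 * qc M (M - 2 - k) v) := by
  have h1 := qc_refl hk hv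
  have h2 : qc M (M - 2 - k) v ≠ 0 := qc_ne (by omega) hv
  have hM' : (M : ℂ) ≠ 0 := by exact_mod_cast (by omega : M ≠ 0)
  field_simp at h1 ⊢
  linear_combination h1

end Pool.Agent.H25.RK
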