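import Pool.Agent.H63.VC3.Defs

/-!
# Independence of the path from `-1/2` to `1/2` in the upper half plane
-/

set_option autoImplicit false

open Filter Topology Complex MeasureTheory Set
open Pool.Agent.H63.VC Pool.Agent.H63.VC3

namespace Pool.Agent.H25.RK

/-- The open upper half plane. -/
def Hp : Set ℂ := {z | 0 < z.im}

theorem isOpen_Hp : IsOpen Hp := isOpen_lt continuous_const continuous_im

theorem convex_Hp : Convex ℝ Hp := by
  intro x hx y hy a b ha hb hab
  change 0 < (a • x + b • y).im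
  have h1 : (0 : ℝ) < x.im := hx
  have h2 : (0 : ℝ) < y.im := hy
  simp only [add_im, smul_im, smul_eq_mul]
  rcases ha.eq_or_lt with h | h
  · rw [← h, zero_add] at hab
    rw [← h, hab]
    linarith
  · have := mul_pos h h1
    have := mul_nonneg hb h2.le
    linarith

/-- The upper half plane with a boundary point. -/
theorem convex_insert {p : ℂ} (hp : p.im = 0) : Convex ℝ (insert p Hp) := by
  intro x hx y hy a b ha hb hab
  have key : ∀ z : ℂ, z ∈ insert p Hp → 0 ≤ z.im := by
    rintro z (rfl | hz)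
    · exact hp.ge
    · exact (le_of_lt hz)
  rcases ha.eq_or_lt with h | h
  · rw [← h, zero_add] at hab
    rw [← h, hab, zero_smul, one_smul, zero_add]
    exact hy
  · rcases hb.eq_or_lt with h' | h'
    · rw [← h', add_zero] at hab
      rw [← h', hab, zero_smul, one_smul, add_zero]
      exact hx
    · rcases hx with rfl | hx
      · rcases hy with rfl | hy
        · left
          rw [← add_smul, hab, one_smul]
        · right
          change 0 < (a • x + b • y).im
          have h2 : (0 : ℝ) < y.im := hy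
          simp only [add_im, smul_im, smul_eq_mul, hp, mul_zero, zero_add]
          exact mul_pos h' h2
      · right
        change 0 < (a • x + b • y).im
        have h1 : (0 : ℝ) < x.im := hx
        have h2 := key y hy
        simp only [add_im, smul_im, smul_eq_mul]
        have := mul_pos h h1
        have := mul_nonneg hb h2
        linarith

/-- The data of the primitives. -/
structure Prim (F : ℂ → ℂ) (g h : ℂ → ℂ) (c : ℂ) : Prop where
  g_deriv : ∀ z ∈ Hp, HasDerivAt g (F z) z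
  h_deriv : ∀ z ∈ Hp, HasDerivAt h (F z) z
  g_cont : ContinuousWithinAt g (insert (1 / 2) Hp) (1 / 2)
  h_cont : ContinuousWithinAt h (insert (-1 / 2) Hp) (-1 / 2)
  diff : ∀ z ∈ Hp, h z = g z + c

theorem exists_prim {F : ℂ → ℂ} (hF : ∀ z ∈ Hp, DifferentiableAt ℂ F z)
    (h1 : DifferentiableAt ℂ F (1 / 2)) (h2 : DifferentiableAt ℂ F (-1 / 2)) :
    ∃ g h c, Prim F g h c := by
  have d1 : DifferentiableOn ℂ F (insert (1 / 2) Hp) := by
    rintro z (rfl | hz)
    · exact h1.differentiableWithinAt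
    · exact (hF z hz).differentiableWithinAt
  have d2 : DifferentiableOn ℂ F (insert (-1 / 2) Hp) := by
    rintro z (rfl | hz)
    · exact h2.differentiableWithinAt
    · exact (hF z hz).differentiableWithinAt
  obtain ⟨g, hg⟩ := (convex_insert (p := 1 / 2) (by norm_num)).exists_forall_hasDerivWithinAt d1
  obtain ⟨h, hh⟩ := (convex_insert (p := -1 / 2) (by norm_num)).exists_forall_hasDerivWithinAt d2
  have g1 : ∀ z ∈ Hp, HasDerivAt g (F z) z := fun z hz =>
    ((hg z (Or.inr hz)).mono (subset_insert _ _)).hasDerivAt (isOpen_Hp.mem_nhds hz)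
  have g2 : ∀ z ∈ Hp, HasDerivAt h (F z) z := fun z hz =>
    ((hh z (Or.inr hz)).mono (subset_insert _ _)).hasDerivAt (isOpen_Hp.mem_nhds hz)
  have hI : I ∈ Hp := by change 0 < I.im; simp
  refine ⟨g, h, h I - g I, g1, g2, (hg _ (Or.inl rfl)).continuousWithinAt,
    (hh _ (Or.inl rfl)).continuousWithinAt, fun z hz => ?_⟩
  have hd : ∀ w ∈ Hp, HasDerivWithinAt (fun w => h w - g w) 0 Hp w := fun w hw => by
    have := (g2 w hw).sub (g1 w hw)
    rw [sub_self] at this
    exact this.hasDerivWithinAt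
  have := convex_Hp.norm_image_sub_le_of_norm_hasDerivWithin_le (C := 0) hd
    (fun w _ => by simp) hI hz
  rw [zero_mul, norm_le_zero_iff, sub_eq_zero] at this
  linear_combination this

theorem cont_left {F : ℂ → ℂ} (hF : ∀ z ∈ Hp, DifferentiableAt ℂ F z) {p : ℝ}
    (h1 : DifferentiableAt ℂ F p) {Y : ℝ} :
    ContinuousOn (fun t : ℝ => F (p + t * I)) (Icc 0 Y) := by
  intro t ht
  refine ContinuousAt.continuousWithinAt ?_
  have hc : ContinuousAt (fun t : ℝ => (p + t * I : ℂ)) t := by fun_prop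
  rcases ht.1.eq_or_lt with h | h
  · refine ContinuousAt.comp (f := fun t : ℝ => (p + t * I : ℂ)) (g := F) ?_ hc
    rw [← h]
    simp only [ofReal_zero, zero_mul, add_zero]
    exact h1.continuousAt
  · refine ContinuousAt.comp (f := fun t : ℝ => (p + t * I : ℂ)) (g := F) ?_ hc
    apply (hF _ _).continuousAt
    change 0 < (p + t * I : ℂ).im
    simpa using h

theorem leg {F g : ℂ → ℂ} (hF : ∀ z ∈ Hp, DifferentiableAt ℂ F z) {p : ℝ}
    (h1 : DifferentiableAt ℂ F p) {Y : ℝ} (hY : 0 < Y) (hg : ∀ z ∈ Hp, HasDerivAt g (F z) z)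
    (hgc : ContinuousWithinAt g (insert (p : ℂ) Hp) p) :
    ∫ t in (0 : ℝ)..Y, F (p + t * I) * I = g (p + Y * I) - g p := by
  have hc : ContinuousOn (fun t : ℝ => g (p + t * I)) (Icc 0 Y) := by
    intro t ht
    rcases ht.1.eq_or_lt with h | h
    · have hm : MapsTo (fun t : ℝ => (p + t * I : ℂ)) (Icc 0 Y) (insert (p : ℂ) Hp) := by
        intro s hs
        rcases hs.1.eq_or_lt with h' | h'
        · left
          rw [← h']
          simp
        · right
          change 0 < (p + s * I : ℂ).im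
          simpa using h'
      have hc' : ContinuousWithinAt (fun t : ℝ => (p + t * I : ℂ)) (Icc 0 Y) t := by fun_prop
      have e : ((p : ℂ) + t * I) = p := by rw [← h]; simp
      refine ContinuousWithinAt.comp (g := g) (t := insert (p : ℂ) Hp) ?_ hc' hm
      rw [e]
      exact hgc
    · refine ContinuousAt.continuousWithinAt ?_
      have hc' : ContinuousAt (fun t : ℝ => (p + t * I : ℂ)) t := by fun_prop
      refine ContinuousAt.comp (f := fun t : ℝ => (p + t * I : ℂ)) (g := g) ?_ hc'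
      apply (hg _ _).continuousAt
      change 0 < (p + t * I : ℂ).im
      simpa using h
  have hd : ∀ t ∈ Ioo (0 : ℝ) Y, HasDerivAt (fun t : ℝ => g (p + t * I)) (F (p + t * I) * I) t := by
    intro t ht
    have g1 := hg (p + t * I) (by change 0 < (p + t * I : ℂ).im; simpa using ht.1)
    have g2 : HasDerivAt (fun t : ℝ => (p + t * I : ℂ)) I t := by
      have := ((Complex.ofRealCLM.hasDerivAt (x := t)).mul_const I).const_add (p : ℂ)
      simpa using this
    exact HasDerivAt.comp t g1 g2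
  have hi : IntervalIntegrable (fun t : ℝ => F (p + t * I) * I) volume 0 Y := by
    apply ContinuousOn.intervalIntegrable
    rw [uIcc_of_le hY.le]
    exact (cont_left hF h1).mul continuousOn_const
  rw [intervalIntegral.integral_eq_sub_of_hasDerivAt_of_le hY.le hc hd hi]
  simp

theorem top {F g : ℂ → ℂ} (hF : ∀ z ∈ Hp, DifferentiableAt ℂ F z)
    (hg : ∀ z ∈ Hp, HasDerivAt g (F z) z) {Y : ℝ} (hY : 0 < Y) (a b : ℝ) :
    ∫ x in a..b, F (x + Y * I) = g (b + Y * I) - g (a + Y * I) := by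
  have hm : ∀ x : ℝ, (x + Y * I : ℂ) ∈ Hp := fun x => by
    change 0 < (x + Y * I : ℂ).im
    simpa using hY
  rw [intervalIntegral.integral_eq_sub_of_hasDerivAt (f := fun x : ℝ => g (x + Y * I))]
  · intro x _
    have g1 := hg _ (hm x)
    have g2 : HasDerivAt (fun t : ℝ => (t + Y * I : ℂ)) 1 x := by
      have := (Complex.ofRealCLM.hasDerivAt (x := x)).add_const (Y * I : ℂ)
      simpa using this
    exact (HasDerivAt.comp x g1 g2).congr_deriv (mul_one _)
  · apply ContinuousOn.intervalIntegrable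
    intro x _
    refine ContinuousAt.continuousWithinAt ?_
    have hc' : ContinuousAt (fun t : ℝ => (t + Y * I : ℂ)) x := by fun_prop
    exact ContinuousAt.comp (f := fun t : ℝ => (t + Y * I : ℂ)) (g := F)
      (hF _ (hm x)).continuousAt hc'

theorem Path_eq_prim {F g h : ℂ → ℂ} {c : ℂ} (hF : ∀ z ∈ Hp, DifferentiableAt ℂ F z)
    (h1 : DifferentiableAt ℂ F (1 / 2)) (h2 : DifferentiableAt ℂ F (-1 / 2))
    (hp : Prim F g h c) {Y : ℝ} (hY : 0 < Y) :
    Pool.Agent.H63.VC3.Path F (1 / 2) Y = g (1 / 2) - h (-1 / 2) + c := by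
  have e1 : (((-(1 / 2) : ℝ) : ℂ)) = -1 / 2 := by push_cast; ring
  have e2 : (((1 / 2 : ℝ) : ℂ)) = 1 / 2 := by push_cast; ring
  have l1 := leg (p := -(1 / 2)) hF (by rw [e1]; exact h2) hY hp.h_deriv (by
    rw [e1]; exact hp.h_cont)
  have l2 := leg (p := 1 / 2) hF (by rw [e2]; exact h1) hY hp.g_deriv (by
    rw [e2]; exact hp.g_cont)
  have l3 := top hF hp.g_deriv hY (-(1 / 2)) (1 / 2)
  have l4 := hp.diff (((-(1 / 2) : ℝ) : ℂ) + Y * I) (by
    change 0 < (((-(1 / 2) : ℝ) : ℂ) + Y * I : ℂ).im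
    simpa using hY)
  unfold Pool.Agent.H63.VC3.Path
  rw [← e1, ← e2]
  rw [ofReal_neg] at l1 l3 l4 ⊢
  rw [l1, l2, l3]
  linear_combination l4

/-- Curves parametrized by the line. -/
theorem int_line {F : ℂ → ℂ} (hF : ∀ z ∈ Hp, DifferentiableAt ℂ F z)
    (h1 : DifferentiableAt ℂ F (1 / 2)) (h2 : DifferentiableAt ℂ F (-1 / 2))
    {γ γ' : ℝ → ℂ} (hγ : ∀ x, HasDerivAt γ (γ' x) x) (hpos : ∀ x, 0 < (γ x).im)
    (ht : Tendsto γ atTop (𝓝 (1 / 2))) (hb : Tendsto γ atBot (𝓝 (-1 / 2)))
    (hi : Integrable fun x => F (γ x) * γ' x) {Y : ℝ} (hY : 0 < Y) :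
    ∫ x, F (γ x) * γ' x = Pool.Agent.H63.VC3.Path F (1 / 2) Y := by
  obtain ⟨g, h, c, hp⟩ := exists_prim hF h1 h2
  rw [Path_eq_prim hF h1 h2 hp hY]
  have hd : ∀ x, HasDerivAt (fun x => g (γ x)) (F (γ x) * γ' x) x := fun x =>
    HasDerivAt.comp x (hp.g_deriv _ (hpos x)) (hγ x)
  have t1 : Tendsto (fun x => g (γ x)) atTop (𝓝 (g (1 / 2))) := by
    refine hp.g_cont.tendsto.comp (tendsto_nhdsWithin_iff.mpr ⟨ht, Eventually.of_forall fun x => ?_⟩)
    exact Or.inr (hpos x)
  have t2 : Tendsto (fun x => g (γ x)) atBot (𝓝 (h (-1 / 2) - c)) := by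
    have t3 : Tendsto (fun x => h (γ x)) atBot (𝓝 (h (-1 / 2))) := by
      refine hp.h_cont.tendsto.comp
        (tendsto_nhdsWithin_iff.mpr ⟨hb, Eventually.of_forall fun x => ?_⟩)
      exact Or.inr (hpos x)
    refine (t3.sub_const c).congr fun x => ?_
    rw [hp.diff _ (hpos x)]
    ring
  rw [integral_of_hasDerivAt_of_tendsto hd hi t2 t1]
  ring

/-- Curves parametrized by an interval. -/
theorem int_Icc {F : ℂ → ℂ} (hF : ∀ z ∈ Hp, DifferentiableAt ℂ F z)
    (h1 : DifferentiableAt ℂ F (1 / 2)) (h2 : DifferentiableAt ℂ F (-1 / 2))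
    {γ γ' : ℝ → ℂ} {a b : ℝ} (hab : a < b) (hγ : ∀ x ∈ Ioo a b, HasDerivAt γ (γ' x) x)
    (hpos : ∀ x ∈ Ioo a b, 0 < (γ x).im) (hc : ContinuousOn γ (Icc a b))
    (ha : γ a = -1 / 2) (hb : γ b = 1 / 2)
    (hi : IntervalIntegrable (fun x => F (γ x) * γ' x) volume a b) {Y : ℝ} (hY : 0 < Y) :
    ∫ x in a..b, F (γ x) * γ' x = Pool.Agent.H63.VC3.Path F (1 / 2) Y := by
  obtain ⟨g, h, c, hp⟩ := exists_prim hF h1 h2
  rw [Path_eq_prim hF h1 h2 hp hY]
  set m := (a + b) / 2 with hm
  have m1 : a < m := by rw [hm]; linarith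
  have m2 : m < b := by rw [hm]; linarith
  have hi1 : IntervalIntegrable (fun x => F (γ x) * γ' x) volume a m :=
    hi.mono_set (by rw [uIcc_of_le m1.le, uIcc_of_le hab.le]; exact Icc_subset_Icc_right m2.le)
  have hi2 : IntervalIntegrable (fun x => F (γ x) * γ' x) volume m b :=
    hi.mono_set (by rw [uIcc_of_le m2.le, uIcc_of_le hab.le]; exact Icc_subset_Icc_left m1.le)
  rw [← intervalIntegral.integral_add_adjacent_intervals hi1 hi2]
  have c1 : ContinuousOn (fun x => h (γ x)) (Icc a m) := by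
    intro x hx
    have hcx : ContinuousWithinAt γ (Icc a m) x :=
      (hc x ⟨hx.1, hx.2.trans m2.le⟩).mono (Icc_subset_Icc_right m2.le)
    rcases hx.1.eq_or_lt with h' | h'
    · have hmap : MapsTo γ (Icc a m) (insert (-1 / 2) Hp) := by
        intro s hs
        rcases hs.1.eq_or_lt with h'' | h''
        · left
          rw [← h'', ha]
        · exact Or.inr (hpos s ⟨h'', hs.2.trans_lt m2⟩)
      refine ContinuousWithinAt.comp (g := h) (t := insert (-1 / 2) Hp) ?_ hcx hmap
      rw [← h', ha]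
      exact hp.h_cont
    · exact (hp.h_deriv _ (hpos x ⟨h', hx.2.trans_lt m2⟩)).continuousAt.comp_continuousWithinAt hcx
  have c2 : ContinuousOn (fun x => g (γ x)) (Icc m b) := by
    intro x hx
    have hcx : ContinuousWithinAt γ (Icc m b) x :=
      (hc x ⟨m1.le.trans hx.1, hx.2⟩).mono (Icc_subset_Icc_left m1.le)
    rcases hx.2.eq_or_lt with h' | h'
    · have hmap : MapsTo γ (Icc m b) (insert (1 / 2) Hp) := by
        intro s hs
        rcases hs.2.eq_or_lt with h'' | h''
        · left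
          rw [h'', hb]
        · exact Or.inr (hpos s ⟨m1.trans_le hs.1, h''⟩)
      refine ContinuousWithinAt.comp (g := g) (t := insert (1 / 2) Hp) ?_ hcx hmap
      rw [h', hb]
      exact hp.g_cont
    · exact (hp.g_deriv _ (hpos x ⟨m1.trans_le hx.1, h'⟩)).continuousAt.comp_continuousWithinAt hcx
  rw [intervalIntegral.integral_eq_sub_of_hasDerivAt_of_le m1.le c1
      (fun x hx => HasDerivAt.comp x (hp.h_deriv _ (hpos x ⟨hx.1, hx.2.trans m2⟩))
        (hγ x ⟨hx.1, hx.2.trans m2⟩)) hi1,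
    intervalIntegral.integral_eq_sub_of_hasDerivAt_of_le m2.le c2
      (fun x hx => HasDerivAt.comp x (hp.g_deriv _ (hpos x ⟨m1.trans hx.1, hx.2⟩))
        (hγ x ⟨m1.trans hx.1, hx.2⟩)) hi2, ha, hb, hp.diff _ (hpos m ⟨m1, m2⟩)]
  ring

end Pool.Agent.H25.RK
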