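import Pool.Agent.H25.RK.Gdv
import Pool.Agent.H25.RK.PathI
import Pool.Agent.H63.VC3.Om
import Pool.Agent.H63.VC7.DGb

/-!
# The factor of a node as a contour integral over an arbitrary path
-/

set_option autoImplicit false

open Filter Topology Complex MeasureTheory Set
open Pool.Agent.H63.VC3 Pool.Agent.H63.VC7

namespace Pool.Agent.H25.RK

variable {m : ℕ}

theorem ww_ne_one {M : ℕ} (hM : 0 < M) {v : ℂ} (hv : 0 < v.im) : ww 2 M v ≠ 1 := by
  intro h
  have h1 := norm_ww 2 M v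
  rw [h, norm_one] at h1
  have hM' : (0 : ℝ) < M := by exact_mod_cast hM
  have hpi := Real.pi_pos
  have h2 : Real.exp (-(2 * Real.pi * M * v.im)) < 1 := by
    rw [Real.exp_lt_one_iff]
    have : 0 < 2 * Real.pi * M * v.im := by positivity
    linarith
  linarith

theorem ww_half (M : ℕ) : ww 2 M (1 / 2) = -1 := by
  unfold ww bt
  have e : 2 * (Real.pi : ℂ) * I * (M * (1 / 2 + 1 / 2) - ((((2 : ℕ) : ℝ) - 1) / 2 : ℝ)) =
      2 * Real.pi * I * (((M : ℤ) - 1 : ℤ) + 1 / 2) := by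
    push_cast
    ring
  rw [e]
  exact Om_exp_half _

theorem ww_neg_half (M : ℕ) : ww 2 M (-1 / 2) = -1 := by
  unfold ww bt
  have e : 2 * (Real.pi : ℂ) * I * (M * (-1 / 2 + 1 / 2) - ((((2 : ℕ) : ℝ) - 1) / 2 : ℝ)) =
      2 * Real.pi * I * ((-1 : ℤ) + 1 / 2) := by
    push_cast
    ring
  rw [e]
  exact Om_exp_half _

theorem ww_diff (M : ℕ) : Differentiable ℂ (ww 2 M) := by
  unfold ww
  fun_prop

theorem om_diff {M : ℕ} {v : ℂ} (h : ww 2 M v ≠ 1) : DifferentiableAt ℂ (om 2 M) v := by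
  unfold om
  refine DifferentiableAt.div (ww_diff M v) (((ww_diff M v).const_sub 1).pow 2) ?_
  exact pow_ne_zero 2 (sub_ne_zero.mpr h.symm)

theorem NTom_diff (r : ℝ) {M : ℕ} (A : Finset (Fin m)) (k : Fin m → ℕ) {v : ℂ}
    (h : ww 2 M v ≠ 1) : DifferentiableAt ℂ (fun v => NT r M A k v * om 2 M v) v :=
  ((DGb_NT_hasDeriv r M A k v).differentiableAt).mul (om_diff h)

/-- The factor of a node as an integral over the rectangular path. -/
theorem DG_path (r : ℝ) {M : ℕ} (hM : 0 < M) (A : Finset (Fin m)) (k : Fin m → ℕ) {Y : ℝ}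
    (hY : 0 < Y) : DG r M A k = -(4 * Real.pi * I) * M ^ 2 *
      Pool.Agent.H63.VC3.Path (fun v => NT r M A k v * om 2 M v) (1 / 2) Y := by
  have h := sum_l (NT r M A k) 2 M 0 (M - 1) Y hM (by omega) (by norm_num) (Nat.zero_le _) hY
    (1 / 2) (by
      have hM' : (M : ℝ) ≠ 0 := by exact_mod_cast hM.ne'
      rw [Nat.cast_sub hM, bt]
      push_cast
      field_simp
      ring) (fun z _ _ => (DGb_NT_hasDeriv r M A k z).differentiableAt) (DGb_NT_odd r M A k)
  rw [← h]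
  unfold DG
  refine Finset.sum_congr ?_ fun _ _ => rfl
  ext X
  simp only [Finset.mem_range, Finset.mem_Icc]
  omega

/-- The factor of a node as an integral over a curve parametrized by the line. -/
theorem DG_line (r : ℝ) {M : ℕ} (hM : 0 < M) (A : Finset (Fin m)) (k : Fin m → ℕ)
    {γ γ' : ℝ → ℂ} (hγ : ∀ x, HasDerivAt γ (γ' x) x) (hpos : ∀ x, 0 < (γ x).im)
    (ht : Tendsto γ atTop (𝓝 (1 / 2))) (hb : Tendsto γ atBot (𝓝 (-1 / 2)))
    (hi : Integrable γ') :
    DG r M A k = -(4 * Real.pi * I) * M ^ 2 *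
      ∫ x, NT r M A k (γ x) * om 2 M (γ x) * γ' x := by
  have d0 : ∀ z ∈ Hp, DifferentiableAt ℂ (fun v => NT r M A k v * om 2 M v) z := fun z hz =>
    NTom_diff r A k (ww_ne_one hM hz)
  have d1 : DifferentiableAt ℂ (fun v => NT r M A k v * om 2 M v) (1 / 2) :=
    NTom_diff r A k (by rw [ww_half]; norm_num)
  have d2 : DifferentiableAt ℂ (fun v => NT r M A k v * om 2 M v) (-1 / 2) :=
    NTom_diff r A k (by rw [ww_neg_half]; norm_num)
  rw [DG_path r hM A k one_pos, ← int_line d0 d1 d2 hγ hpos ht hb ?_ one_pos]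
  -- the integrand is bounded
  have hc : Continuous fun x => NT r M A k (γ x) * om 2 M (γ x) := by
    rw [continuous_iff_continuousAt]
    intro x
    exact ContinuousAt.comp (f := γ) (g := fun v => NT r M A k v * om 2 M v)
      (d0 _ (hpos x)).continuousAt (hγ x).continuousAt
  have t1 : Tendsto (fun x => NT r M A k (γ x) * om 2 M (γ x)) atTop
      (𝓝 (NT r M A k (1 / 2) * om 2 M (1 / 2))) := d1.continuousAt.tendsto.comp ht
  have t2 : Tendsto (fun x => NT r M A k (γ x) * om 2 M (γ x)) atBot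
      (𝓝 (NT r M A k (-1 / 2) * om 2 M (-1 / 2))) := d2.continuousAt.tendsto.comp hb
  obtain ⟨C, hC⟩ : ∃ C : ℝ, ∀ x, ‖NT r M A k (γ x) * om 2 M (γ x)‖ ≤ C := by
    have e1 := (t1.norm).eventually (Iio_mem_nhds
      (show ‖NT r M A k (1 / 2) * om 2 M (1 / 2)‖ < ‖NT r M A k (1 / 2) * om 2 M (1 / 2)‖ + 1 by
        linarith))
    have e2 := (t2.norm).eventually (Iio_mem_nhds
      (show ‖NT r M A k (-1 / 2) * om 2 M (-1 / 2)‖ < ‖NT r M A k (-1 / 2) * om 2 M (-1 / 2)‖ + 1 by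
        linarith))
    obtain ⟨a, ha⟩ := eventually_atTop.mp e1
    obtain ⟨b, hb'⟩ := eventually_atBot.mp e2
    obtain ⟨C, hC⟩ := (isCompact_Icc (a := b) (b := a)).exists_bound_of_continuousOn
      hc.continuousOn
    refine ⟨max C (max (‖NT r M A k (1 / 2) * om 2 M (1 / 2)‖ + 1)
      (‖NT r M A k (-1 / 2) * om 2 M (-1 / 2)‖ + 1)), fun x => ?_⟩
    rcases le_or_gt x b with h | h
    · exact ((hb' x h).le.trans (le_max_right _ _)).trans (le_max_right _ _)
    · rcases le_or_gt a x with h' | h'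
      · exact ((ha x h').le.trans (le_max_left _ _)).trans (le_max_right _ _)
      · exact (hC x ⟨h.le, h'.le⟩).trans (le_max_left _ _)
  exact hi.bdd_mul hc.aestronglyMeasurable (Eventually.of_forall hC)

/-- The factor of a node as an integral over a curve parametrized by an interval. -/
theorem DG_interval (r : ℝ) {M : ℕ} (hM : 0 < M) (A : Finset (Fin m)) (k : Fin m → ℕ)
    {γ γ' : ℝ → ℂ} {a b : ℝ} (hab : a < b) (hγ : ∀ x ∈ Ioo a b, HasDerivAt γ (γ' x) x)
    (hpos : ∀ x ∈ Ioo a b, 0 < (γ x).im) (hc : ContinuousOn γ (Icc a b))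
    (ha : γ a = -1 / 2) (hb : γ b = 1 / 2)
    (hi : IntervalIntegrable γ' volume a b) :
    DG r M A k = -(4 * Real.pi * I) * M ^ 2 *
      ∫ x in a..b, NT r M A k (γ x) * om 2 M (γ x) * γ' x := by
  have d0 : ∀ z ∈ Hp, DifferentiableAt ℂ (fun v => NT r M A k v * om 2 M v) z := fun z hz =>
    NTom_diff r A k (ww_ne_one hM hz)
  have d1 : DifferentiableAt ℂ (fun v => NT r M A k v * om 2 M v) (1 / 2) :=
    NTom_diff r A k (by rw [ww_half]; norm_num)
  have d2 : DifferentiableAt ℂ (fun v => NT r M A k v * om 2 M v) (-1 / 2) :=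
    NTom_diff r A k (by rw [ww_neg_half]; norm_num)
  rw [DG_path r hM A k one_pos, ← int_Icc d0 d1 d2 hab hγ hpos hc ha hb ?_ one_pos]
  have hc' : ContinuousOn (fun x => NT r M A k (γ x) * om 2 M (γ x)) (uIcc a b) := by
    rw [uIcc_of_le hab.le]
    intro x hx
    refine ContinuousAt.comp_continuousWithinAt (f := γ)
      (g := fun v => NT r M A k v * om 2 M v) ?_ (hc x hx)
    rcases hx.1.eq_or_lt with h | h
    · rw [← h, ha]
      exact d2.continuousAt
    · rcases hx.2.eq_or_lt with h' | h'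
      · rw [h', hb]
        exact d1.continuousAt
      · exact (d0 _ (hpos x ⟨h, h'⟩)).continuousAt
  exact hi.continuousOn_mul hc'

/-- The factor of a node as an integral over a Gudermannian line. -/
theorem DG_uline (r : ℝ) {M : ℕ} (hM : 0 < M) (A : Finset (Fin m)) (k : Fin m → ℕ) {θ : ℝ}
    (h0 : 0 < θ) (h1 : θ < Real.pi / 2) :
    DG r M A k = -(4 * Real.pi * I) * M ^ 2 *
      ∫ x, NT r M A k (gdv (ul θ x)) * om 2 M (gdv (ul θ x)) *
        (1 / (Real.pi * cosh (ul θ x))) := by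
  have h : |θ| < Real.pi / 2 := abs_lt.mpr ⟨by linarith [Real.pi_pos], h1⟩
  exact DG_line r hM A k (fun x => gdv_ul_hasDerivAt h x)
    (fun x => gdv_im_pos (by rwa [ul_im]) (by rwa [ul_im])) (gdv_tendsto_top θ)
    (gdv_tendsto_bot θ) (integrable_gdv' h)

end Pool.Agent.H25.RK
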