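import Pool.Agent.H25.RK.Trig

/-!
# The cyclic setting

`M` is the order, `o` plays the role of the angle `π / M`, and `ξ`, `η` are angles with
`s ξ ^ 2 = s η ^ 2 = 0`.
-/

set_option autoImplicit false

open Finset

namespace Pool.Agent.H25.RK

/-- Abstract exponentials with a step `o` such that `M o = π` and two infinitesimal angles. -/
structure Cyc (A R : Type*) [AddCommGroup A] [CommRing R] extends TD A R where
  M : ℕ
  o : A
  ξ : A
  η : A
  M_pos : 0 < M
  E_half : E ((M : ℤ) • o) = -1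
  E_ξ : E ξ + E (-ξ) = 2
  E_η : E η + E (-η) = 2
  isUnit_s : ∀ k : ℕ, 0 < k → k < M → IsUnit (toTD.s ((k : ℤ) • o))
  isUnit_two : IsUnit (2 : R)

namespace Cyc

variable {A R : Type*} [AddCommGroup A] [CommRing R] (C : Cyc A R)

theorem E_neg_half : C.E (-((C.M : ℤ) • C.o)) = -1 := by
  have h := C.E_mul_neg ((C.M : ℤ) • C.o)
  rw [C.E_half] at h
  linear_combination -h

theorem s_M_add (x : A) : C.s ((C.M : ℤ) • C.o + x) = -C.s x := by
  unfold TD.s
  rw [C.E_add, C.E_neg_add, C.E_half, C.E_neg_half]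
  ring

theorem c_M_add (x : A) : C.c ((C.M : ℤ) • C.o + x) = -C.c x := by
  unfold TD.c
  rw [C.E_add, C.E_neg_add, C.E_half, C.E_neg_half]
  ring

theorem s_M_sub (x : A) : C.s ((C.M : ℤ) • C.o - x) = C.s x := by
  rw [sub_eq_add_neg, C.s_M_add, C.s_neg, neg_neg]

theorem c_M_sub (x : A) : C.c ((C.M : ℤ) • C.o - x) = -C.c x := by
  rw [sub_eq_add_neg, C.c_M_add, C.c_neg]

/-- Infinitesimal angles. -/
structure Inf (e : A) : Prop where
  eq : C.E e + C.E (-e) = 2

variable {C}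

theorem Inf.neg {e : A} (h : C.Inf e) : C.Inf (-e) := ⟨by rw [neg_neg, add_comm]; exact h.eq⟩

theorem Inf.c_eq {e : A} (h : C.Inf e) : C.c e = 2 := h.eq

theorem Inf.s_sq {e : A} (h : C.Inf e) : C.s e ^ 2 = 0 := by
  have := C.c_sq e
  rw [h.c_eq] at this
  linear_combination this

theorem Inf.s_mul_E {e : A} (h : C.Inf e) : C.s e * C.E e = C.s e := by
  have h1 := h.eq
  have h2 := C.E_mul_neg e
  unfold TD.s
  linear_combination C.κ * (C.E e + 1) * h1 - 2 * C.κ * h2

theorem Inf.s_mul_E_neg {e : A} (h : C.Inf e) : C.s e * C.E (-e) = C.s e := by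
  have := h.neg.s_mul_E
  rw [C.s_neg] at this
  linear_combination -this

theorem Inf.s_mul_s_add {e : A} (h : C.Inf e) (x : A) :
    C.s e * C.s (x + e) = C.s e * C.s x := by
  have h1 := h.s_mul_E
  have h2 := h.s_mul_E_neg
  have h3 : C.s (x + e) = C.κ * (C.E x * C.E e - C.E (-x) * C.E (-e)) := by
    unfold TD.s
    rw [C.E_add, C.E_neg_add]
  have h4 : C.s x = C.κ * (C.E x - C.E (-x)) := rfl
  rw [h3, h4]
  linear_combination C.κ * C.E x * h1 - C.κ * C.E (-x) * h2

theorem Inf.s_mul_c_add {e : A} (h : C.Inf e) (x : A) :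
    C.s e * C.c (x + e) = C.s e * C.c x := by
  have h1 := h.s_mul_E
  have h2 := h.s_mul_E_neg
  have h3 : C.c (x + e) = C.E x * C.E e + C.E (-x) * C.E (-e) := by
    unfold TD.c
    rw [C.E_add, C.E_neg_add]
  have h4 : C.c x = C.E x + C.E (-x) := rfl
  rw [h3, h4]
  linear_combination C.E x * h1 + C.E (-x) * h2

theorem Inf.s_mul_s_sub {e : A} (h : C.Inf e) (x : A) :
    C.s e * C.s (x - e) = C.s e * C.s x := by
  have := h.neg.s_mul_s_add x
  rw [C.s_neg, ← sub_eq_add_neg] at this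
  linear_combination -this

theorem Inf.s_mul_c_sub {e : A} (h : C.Inf e) (x : A) :
    C.s e * C.c (x - e) = C.s e * C.c x := by
  have := h.neg.s_mul_c_add x
  rw [C.s_neg, ← sub_eq_add_neg] at this
  linear_combination -this

theorem Inf.s_add {e f : A} (h : C.Inf e) (hf : C.Inf f) :
    C.s (e + f) = C.s e + C.s f := by
  have a1 := h.eq
  have a2 := hf.eq
  unfold TD.s
  rw [C.E_add, C.E_neg_add]
  linear_combination C.κ * (-C.E (-e) * a2 - (2 - C.E f) * a1 + a1 + a2)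

theorem Inf.s_add_sq {e f : A} (h : C.Inf e) (hf : C.Inf f) :
    C.s (e + f) ^ 2 = 2 * C.s e * C.s f := by
  rw [h.s_add hf]
  linear_combination h.s_sq + hf.s_sq

variable (C)

/-- Angles whose sine is nilpotent. -/
def Nil (e : A) : Prop := C.s e ^ 4 = 0

variable {C}

theorem Inf.nil {e : A} (h : C.Inf e) : C.Nil e := by
  have := h.s_sq
  unfold Nil
  linear_combination C.s e ^ 2 * this

theorem Inf.nil_add {e f : A} (h : C.Inf e) (hf : C.Inf f) : C.Nil (e + f) := by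
  have := h.s_add_sq hf
  unfold Nil
  linear_combination (C.s (e + f) ^ 2 + 2 * C.s e * C.s f) * this +
    4 * C.s f ^ 2 * h.s_sq

theorem Nil.neg {e : A} (h : C.Nil e) : C.Nil (-e) := by
  unfold Nil at *
  rw [C.s_neg]
  linear_combination h

theorem nil_zero : C.Nil 0 := by
  unfold Nil
  rw [C.s_zero]
  ring

variable (C)

theorem inf_ξ : C.Inf C.ξ := ⟨C.E_ξ⟩

theorem inf_η : C.Inf C.η := ⟨C.E_η⟩

variable {C}

theorem isUnit_s_int {k : ℤ} (h0 : 0 < k) (hk : k < C.M) : IsUnit (C.s (k • C.o)) := by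
  obtain ⟨n, rfl⟩ := Int.eq_ofNat_of_zero_le h0.le
  exact C.isUnit_s n (by omega) (by omega)

theorem isUnit_s_add {k : ℤ} (h0 : 0 < k) (hk : k < C.M) {e : A} (he : C.Nil e) :
    IsUnit (C.s (k • C.o + e)) := by
  have h1 := C.s_sq_sub (k • C.o) e
  have h2 : C.s (k • C.o + e) * (C.s (k • C.o - e) * (C.s (k • C.o) ^ 2 + C.s e ^ 2)) =
      C.s (k • C.o) ^ 4 := by
    unfold Nil at he
    linear_combination -(C.s (k • C.o) ^ 2 + C.s e ^ 2) * h1 - he
  exact isUnit_of_mul_isUnit_left (h2 ▸ (isUnit_s_int h0 hk).pow 4)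

theorem isUnit_c_int {k : ℤ} (h0 : 0 < k) (hk : 2 * k < C.M) : IsUnit (C.c (k • C.o)) := by
  have h1 := C.s_two (k • C.o)
  have h2 : IsUnit (C.s ((2 * k) • C.o)) := isUnit_s_int (by omega) hk
  rw [show (2 * k) • C.o = k • C.o + k • C.o by module, h1] at h2
  exact isUnit_of_mul_isUnit_right h2

theorem isUnit_c_add {k : ℤ} (h0 : 0 ≤ k) (hk : 2 * k < C.M) {e : A} (he : C.Nil e) :
    IsUnit (C.c (k • C.o + e)) := by
  have h1 := C.c_mul_c (k • C.o) e
  have h2 : C.c (k • C.o + e) * (C.c (k • C.o - e) * (C.c (k • C.o) ^ 2 + C.s e ^ 2)) =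
      C.c (k • C.o) ^ 4 := by
    unfold Nil at he
    linear_combination (C.c (k • C.o) ^ 2 + C.s e ^ 2) * h1 - he
  have h3 : IsUnit (C.c (k • C.o)) := by
    rcases h0.eq_or_lt with h | h
    · rw [← h, zero_smul, C.c_zero]
      exact C.isUnit_two
    · exact isUnit_c_int h hk
  exact isUnit_of_mul_isUnit_left (h2 ▸ h3.pow 4)

/-- `c` is a unit also in the second half. -/
theorem isUnit_c_add' {k : ℤ} (h0 : C.M < 2 * k) (hk : k ≤ C.M) {e : A} (he : C.Nil e) :
    IsUnit (C.c (k • C.o + e)) := by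
  have h := isUnit_c_add (C := C) (k := C.M - k) (by omega) (by omega) he.neg
  rw [show ((C.M : ℤ) - k) • C.o + -e = (C.M : ℤ) • C.o - (k • C.o + e) by module,
    C.c_M_sub] at h
  exact IsUnit.neg_iff _ |>.mp h

end Cyc

end Pool.Agent.H25.RK
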