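import Pool.Agent.H63.VC7.Defs

/-!
# Closed forms for the factor of a node with one or two half twists
-/

set_option autoImplicit false

open Complex
open Pool.Agent.H63.VC Pool.Agent.H63.VC3 Pool.Agent.H63.VC7

namespace Pool.Agent.H25.RK

/-- The Gaussian factor. -/
noncomputable def gr (r : ℝ) (M : ℕ) (v : ℂ) : ℂ := exp (2 * Real.pi * I * r * M * v ^ 2)

/-- The product of a slot. -/
noncomputable def PP (M n : ℕ) (v : ℂ) : ℂ := ∏ i ∈ Finset.range n,
  (4 * (cos (Real.pi * (v + (i + 1 / 2) / M)) * cos (Real.pi * (v - (i + 1 / 2) / M))))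

theorem qc_PP (M k : ℕ) (v : ℂ) : qc M k v = 1 / M * PP M (M - 1 - k) v := rfl

theorem PP_zero (M : ℕ) (v : ℂ) : PP M 0 v = 1 := by simp [PP]

theorem PP_succ (M n : ℕ) (v : ℂ) : PP M (n + 1) v = PP M n v *
    (4 * (cos (Real.pi * (v + (n + 1 / 2) / M)) * cos (Real.pi * (v - (n + 1 / 2) / M)))) := by
  unfold PP
  rw [Finset.prod_range_succ]

theorem PP_succ' (M n : ℕ) (v : ℂ) : PP M (n + 1) v = PP M n v *
    (2 * cos (2 * Real.pi * v) + 2 * cos (2 * Real.pi * (n + 1 / 2) / M)) := by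
  rw [PP_succ]
  congr 1
  have h1 := cos_add (Real.pi * (v + (n + 1 / 2) / M) : ℂ) (Real.pi * (v - (n + 1 / 2) / M))
  have h2 := cos_sub (Real.pi * (v + (n + 1 / 2) / M) : ℂ) (Real.pi * (v - (n + 1 / 2) / M))
  rw [show (Real.pi * (v + (n + 1 / 2) / M) : ℂ) + (Real.pi * (v - (n + 1 / 2) / M)) =
    2 * Real.pi * v by ring] at h1
  rw [show (Real.pi * (v + (n + 1 / 2) / M) : ℂ) - (Real.pi * (v - (n + 1 / 2) / M)) =
    2 * Real.pi * (n + 1 / 2) / M by ring] at h2
  rw [h1, h2]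
  ring

theorem PP_diff (M n : ℕ) : Differentiable ℂ (PP M n) := by
  unfold PP
  apply Differentiable.fun_finsetProd
  intro i _
  fun_prop

theorem gr_diff (r : ℝ) (M : ℕ) : Differentiable ℂ (gr r M) := by
  unfold gr
  fun_prop

/-- The shift of the product. -/
theorem PP_shift (M n : ℕ) (v : ℂ) :
    PP M n (v + 1 / M) * (2 * cos (Real.pi * (v + 1 / M - (n + 1 / 2) / M))) =
      PP M n v * (2 * cos (Real.pi * (v + (n + 1 / 2) / M))) := by
  induction n with
  | zero =>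
    rw [PP_zero, PP_zero]
    congr 3
    push_cast
    ring
  | succ n ih =>
    rw [PP_succ, PP_succ]
    have e1 : (Real.pi : ℂ) * (v + 1 / M - (((n + 1 : ℕ) : ℂ) + 1 / 2) / M) =
        Real.pi * (v - (n + 1 / 2) / M) := by push_cast; ring
    have e2 : (Real.pi : ℂ) * (v + 1 / M + (n + 1 / 2) / M) =
        Real.pi * (v + (((n + 1 : ℕ) : ℂ) + 1 / 2) / M) := by push_cast; ring
    rw [e1, e2]
    linear_combination 4 * cos (Real.pi * (v + (((n + 1 : ℕ) : ℂ) + 1 / 2) / M)) *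
      cos (Real.pi * (v - (n + 1 / 2) / M)) * ih

/-- Telescoping. -/
theorem tele {M : ℕ} (hM : 0 < M) {F H : ℂ → ℂ} (hH : Differentiable ℂ H)
    (hF : ∀ v, F v = H (v + 1 / M) - H v) :
    ∑ X ∈ Finset.range M, deriv F ((vl 2 M X : ℝ) : ℂ) =
      deriv H (((vl 2 M 0 : ℝ) : ℂ) + 1) - deriv H ((vl 2 M 0 : ℝ) : ℂ) := by
  have hM' : (M : ℂ) ≠ 0 := by exact_mod_cast hM.ne'
  have e : F = fun v => H (v + 1 / M) - H v := funext hF
  have hd : ∀ v, deriv F v = deriv H (v + 1 / M) - deriv H v := by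
    intro v
    rw [e]
    have h1 : DifferentiableAt ℂ (fun v => H (v + 1 / (M : ℂ))) v :=
      (hH _).comp v (by fun_prop)
    rw [deriv_fun_sub h1 (hH v), deriv_comp_add_const]
  have hs : ∀ X, deriv F ((vl 2 M X : ℝ) : ℂ) =
      deriv H ((vl 2 M (X + 1) : ℝ) : ℂ) - deriv H ((vl 2 M X : ℝ) : ℂ) := by
    intro X
    rw [hd]
    congr 2
    unfold vl
    push_cast
    ring
  simp only [hs]
  rw [Finset.sum_range_sub (fun X => deriv H ((vl 2 M X : ℝ) : ℂ))]
  congr 2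
  unfold vl
  push_cast
  field_simp
  ring

/-- The one-slot sums. -/
noncomputable def E1 (r : ℝ) (M n : ℕ) : ℂ := ∑ X ∈ Finset.range M,
  deriv (fun v => gr r M v * (2 * sin (2 * Real.pi * v)) * PP M n v) ((vl 2 M X : ℝ) : ℂ)

/-- The two-slot sums. -/
noncomputable def E2 (r : ℝ) (M n n' : ℕ) : ℂ := ∑ X ∈ Finset.range M,
  deriv (fun v => gr r M v * (2 * sin (2 * Real.pi * v)) * (PP M n v * PP M n' v))
    ((vl 2 M X : ℝ) : ℂ)

theorem E2_zero (r : ℝ) (M n : ℕ) : E2 r M 0 n = E1 r M n := by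
  unfold E2 E1
  simp only [PP_zero, one_mul]

theorem E2_rec (r : ℝ) (M n n' : ℕ) : E2 r M (n + 1) n' = E2 r M n (n' + 1) +
    (2 * cos (2 * Real.pi * (n + 1 / 2) / M) - 2 * cos (2 * Real.pi * (n' + 1 / 2) / M)) *
      E2 r M n n' := by
  unfold E2
  rw [Finset.mul_sum, ← Finset.sum_add_distrib]
  refine Finset.sum_congr rfl fun X _ => ?_
  have d : ∀ n n' : ℕ, Differentiable ℂ
      (fun v => gr r M v * (2 * sin (2 * Real.pi * v)) * (PP M n v * PP M n' v)) := by
    intro n n'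
    have h1 := gr_diff r M
    have h2 := PP_diff M n
    have h3 := PP_diff M n'
    fun_prop
  rw [← deriv_const_mul _ (d n n' _), ← deriv_fun_add (d n (n' + 1) _) ((d n n' _).const_mul _)]
  congr 1
  funext v
  rw [PP_succ', PP_succ']
  ring

/-- The points `x = e^(πi v)`. -/
theorem two_cos_eq (w : ℂ) : 2 * cos w = exp (w * I) + (exp (w * I))⁻¹ := by
  rw [cos, ← exp_neg]
  ring_nf

theorem two_sin_eq (w : ℂ) : 2 * sin w = -I * (exp (w * I) - (exp (w * I))⁻¹) := by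
  rw [sin, ← exp_neg]
  ring_nf

/-! ### One half twist -/

theorem gr_half_shift {M : ℕ} (hM : 0 < M) (v : ℂ) : gr (1 / 2) M (v + 1 / M) =
    gr (1 / 2) M v * exp (Real.pi * v * I) ^ 2 * exp (Real.pi / M * I) := by
  unfold gr
  rw [← exp_nat_mul, ← exp_add, ← exp_add]
  congr 1
  have hM' : (M : ℂ) ≠ 0 := by exact_mod_cast hM.ne'
  push_cast
  field_simp
  ring

/-- The auxiliary function for one half twist. -/
noncomputable def H1 (M n : ℕ) (v : ℂ) : ℂ :=
  (exp (Real.pi * v * I) + exp (Real.pi / M * I) * exp (-(Real.pi * v * I))) ^ 2 *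
    (gr (1 / 2) M v * (-I * exp (-(2 * (Real.pi / M * I))) *
      exp (-(Real.pi * ((n + 1 / 2) / M) * I)) * exp (-(Real.pi * v * I))) *
      (PP M n v * (2 * cos (Real.pi * (v - (n + 1 / 2) / M)))))

theorem H1_diff (M n : ℕ) : Differentiable ℂ (H1 M n) := by
  unfold H1
  have h1 := gr_diff (1 / 2) M
  have h2 := PP_diff M n
  fun_prop

/-- The factor of the one-slot recursion. -/
noncomputable def c1 (M n : ℕ) : ℂ := -(exp (-(Real.pi / M * I))) * ((sg M (n + 1) : ℝ) : ℂ) ^ 2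

theorem sg_cast (M n : ℕ) : ((sg M n : ℝ) : ℂ) = 2 * sin (Real.pi * n / M) := by
  unfold sg
  push_cast
  ring

theorem H1_rec {M : ℕ} (hM : 0 < M) (n : ℕ) (v : ℂ) :
    gr (1 / 2) M v * (2 * sin (2 * Real.pi * v)) * PP M (n + 1) v -
      c1 M n * (gr (1 / 2) M v * (2 * sin (2 * Real.pi * v)) * PP M n v) =
      H1 M n (v + 1 / M) - H1 M n v := by
  have hM' : (M : ℂ) ≠ 0 := by exact_mod_cast hM.ne'
  unfold H1
  have hsh := PP_shift M n v
  have e0 : (Real.pi : ℂ) * (v + 1 / M - (n + 1 / 2) / M) =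
      Real.pi * (v + 1 / M - (n + 1 / 2) / M) := rfl
  rw [hsh, gr_half_shift hM, PP_succ']
  set x : ℂ := exp (Real.pi * v * I) with hx
  set q : ℂ := exp (Real.pi / M * I) with hq
  set z : ℂ := exp (Real.pi * ((n + 1 / 2) / M) * I) with hz
  have x0 : x ≠ 0 := exp_ne_zero _
  have q0 : q ≠ 0 := exp_ne_zero _
  have z0 : z ≠ 0 := exp_ne_zero _
  have a1 : exp (-(Real.pi * v * I)) = x⁻¹ := by rw [exp_neg]
  have a2 : exp (Real.pi * (v + 1 / M) * I) = x * q := by
    rw [hx, hq, ← exp_add]; congr 1; ring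
  have a3 : exp (-(Real.pi * (v + 1 / M) * I)) = (x * q)⁻¹ := by rw [exp_neg, a2]
  have a4 : exp (-(2 * (Real.pi / M * I))) = (q ^ 2)⁻¹ := by
    rw [exp_neg, hq, ← exp_nat_mul]; norm_num
  have a5 : exp (-(Real.pi * ((n + 1 / 2) / M) * I)) = z⁻¹ := by rw [exp_neg]
  have a6 : 2 * cos (Real.pi * (v + (n + 1 / 2) / M)) = x * z + (x * z)⁻¹ := by
    rw [two_cos_eq]
    have : exp ((Real.pi : ℂ) * (v + (n + 1 / 2) / M) * I) = x * z := by
      rw [hx, hz, ← exp_add]; congr 1; ring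
    rw [this]
  have a7 : 2 * cos (Real.pi * (v - (n + 1 / 2) / M)) = x * z⁻¹ + (x * z⁻¹)⁻¹ := by
    rw [two_cos_eq]
    have : exp ((Real.pi : ℂ) * (v - (n + 1 / 2) / M) * I) = x * z⁻¹ := by
      rw [hx, hz, ← exp_neg, ← exp_add]; congr 1; ring
    rw [this]
  have a8 : 2 * sin (2 * Real.pi * v) = -I * (x ^ 2 - (x ^ 2)⁻¹) := by
    rw [two_sin_eq]
    have : exp (2 * (Real.pi : ℂ) * v * I) = x ^ 2 := by
      rw [hx, ← exp_nat_mul]; congr 1; push_cast; ring
    rw [this]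
  have a9 : 2 * cos (2 * Real.pi * v) = x ^ 2 + (x ^ 2)⁻¹ := by
    rw [two_cos_eq]
    have : exp (2 * (Real.pi : ℂ) * v * I) = x ^ 2 := by
      rw [hx, ← exp_nat_mul]; congr 1; push_cast; ring
    rw [this]
  have a10 : 2 * cos (2 * Real.pi * (n + 1 / 2) / M) = z ^ 2 + (z ^ 2)⁻¹ := by
    rw [two_cos_eq]
    have : exp (2 * (Real.pi : ℂ) * (n + 1 / 2) / M * I) = z ^ 2 := by
      rw [hz, ← exp_nat_mul]; congr 1; push_cast; ring
    rw [this]
  have a11 : c1 M n = z ^ 2 + (q ^ 2)⁻¹ * (z ^ 2)⁻¹ - 2 * q⁻¹ := by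
    have b1 : (((sg M (n + 1) : ℝ) : ℂ)) ^ 2 = -(z ^ 2 * q + (z ^ 2 * q)⁻¹ - 2) := by
      rw [sg_cast, two_sin_eq]
      set s : ℂ := exp (Real.pi * ((n + 1 : ℕ) : ℂ) / M * I) with hs
      have s0 : s ≠ 0 := exp_ne_zero _
      have b2 : z ^ 2 * q = s ^ 2 := by
        rw [hz, hq, hs, ← exp_nat_mul, ← exp_nat_mul, ← exp_add]
        congr 1
        push_cast
        field_simp
        ring
      rw [b2, mul_pow, neg_sq, I_sq]
      field_simp
      ring
    unfold c1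
    rw [b1, exp_neg, ← hq]
    field_simp
  rw [a1, a2, a3, a4, a5, a6, a7, a8, a9, a10, a11]
  field_simp
  ring

theorem deriv_sq_mul {u K : ℂ → ℂ} (hu : Differentiable ℂ u) (hK : Differentiable ℂ K) {p : ℂ}
    (h : u p = 0) : deriv (fun v => u v ^ 2 * K v) p = 0 := by
  have h1 := ((hu p).hasDerivAt.pow 2).mul (hK p).hasDerivAt
  have h2 : HasDerivAt (fun v => u v ^ 2 * K v) 0 p := by
    refine h1.congr_deriv ?_
    simp [h]
  exact h2.deriv

theorem x0_sq {M : ℕ} (hM : 0 < M) :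
    exp (Real.pi * ((vl 2 M 0 : ℝ) : ℂ) * I) ^ 2 = -exp (Real.pi / M * I) := by
  have hM' : (M : ℂ) ≠ 0 := by exact_mod_cast hM.ne'
  rw [← exp_nat_mul, ← mul_neg_one, ← exp_neg_pi_mul_I, ← exp_add]
  congr 1
  unfold vl bt
  push_cast
  field_simp
  ring

theorem u_zero {M : ℕ} {w : ℂ}
    (h : exp (Real.pi * w * I) ^ 2 = -exp (Real.pi / M * I)) :
    exp (Real.pi * w * I) + exp (Real.pi / M * I) * exp (-(Real.pi * w * I)) = 0 := by
  rw [exp_neg]
  have h0 := exp_ne_zero (Real.pi * w * I)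
  field_simp
  rw [h]
  ring_nf

theorem H1_bdy {M n : ℕ} {p : ℂ}
    (h : exp (Real.pi * p * I) ^ 2 = -exp (Real.pi / M * I)) : deriv (H1 M n) p = 0 := by
  unfold H1
  have h1 := gr_diff (1 / 2) M
  have h2 := PP_diff M n
  exact deriv_sq_mul (u := fun v => exp (Real.pi * v * I) +
      exp (Real.pi / M * I) * exp (-(Real.pi * v * I)))
    (K := fun v => gr (1 / 2) M v * (-I * exp (-(2 * (Real.pi / M * I))) *
      exp (-(Real.pi * ((n + 1 / 2) / M) * I)) * exp (-(Real.pi * v * I))) *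
      (PP M n v * (2 * cos (Real.pi * (v - (n + 1 / 2) / M))))) (by fun_prop) (by fun_prop)
    (u_zero h)

theorem E1_half_succ {M : ℕ} (hM : 0 < M) (n : ℕ) :
    E1 (1 / 2) M (n + 1) = c1 M n * E1 (1 / 2) M n := by
  have h1 := gr_diff (1 / 2) M
  have h2 := PP_diff M n
  have h3 := PP_diff M (n + 1)
  have ht := tele hM (H1_diff M n) (H1_rec hM n)
  have hb0 := x0_sq hM
  have hb1 : exp (Real.pi * (((vl 2 M 0 : ℝ) : ℂ) + 1) * I) ^ 2 = -exp (Real.pi / M * I) := by
    rw [← hb0, mul_add, mul_one, add_mul, exp_add, exp_pi_mul_I]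
    ring
  rw [H1_bdy hb0, H1_bdy hb1, sub_zero] at ht
  have hd : ∀ X ∈ Finset.range M, deriv (fun v =>
      gr (1 / 2) M v * (2 * sin (2 * Real.pi * v)) * PP M (n + 1) v -
      c1 M n * (gr (1 / 2) M v * (2 * sin (2 * Real.pi * v)) * PP M n v))
      ((vl 2 M X : ℝ) : ℂ) =
      deriv (fun v => gr (1 / 2) M v * (2 * sin (2 * Real.pi * v)) * PP M (n + 1) v)
        ((vl 2 M X : ℝ) : ℂ) - c1 M n *
      deriv (fun v => gr (1 / 2) M v * (2 * sin (2 * Real.pi * v)) * PP M n v)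
        ((vl 2 M X : ℝ) : ℂ) := by
    intro X _
    rw [deriv_fun_sub (by fun_prop) (by fun_prop), deriv_const_mul _ (by fun_prop)]
  have hsum := Finset.sum_congr rfl hd
  rw [Finset.sum_sub_distrib, ← Finset.mul_sum] at hsum
  unfold E1
  have := hsum.symm.trans ht
  linear_combination this

theorem gr_deriv (r : ℝ) (M : ℕ) (v : ℂ) :
    HasDerivAt (gr r M) (gr r M v * (4 * Real.pi * I * r * M * v)) v := by
  unfold gr
  have h := ((hasDerivAt_id v).pow 2).const_mul (2 * Real.pi * I * r * M)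
  have h' := h.cexp
  refine h'.congr_deriv ?_
  simp only [id_eq, Pi.pow_apply]
  push_cast
  ring

/-- The phase. -/
noncomputable def G0 (M : ℕ) : ℂ := exp (Real.pi * I * (M + 1 / M) / 4)

theorem I_mul_exp (w : ℂ) : I * exp w = exp (Real.pi / 2 * I + w) := by
  rw [exp_add, exp_pi_div_two_mul_I]

theorem neg_I_mul_exp (w : ℂ) : -I * exp w = exp (-Real.pi / 2 * I + w) := by
  rw [exp_add, exp_neg_pi_div_two_mul_I]

theorem E1_half_zero {M : ℕ} (hM : 0 < M) :
    E1 (1 / 2) M 0 = 4 * Real.pi * I * exp (-(Real.pi / M * I)) * G0 M := by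
  have hM' : (M : ℂ) ≠ 0 := by exact_mod_cast hM.ne'
  have hH : Differentiable ℂ (fun v => -I * exp (-(Real.pi / M * I)) *
      (gr (1 / 2) M v + gr (1 / 2) M (v - 1 / M))) := by
    have h1 := gr_diff (1 / 2) M
    have h2 : Differentiable ℂ fun v => gr (1 / 2) M (v - 1 / M) :=
      h1.comp (by fun_prop)
    fun_prop
  have hF : ∀ v, gr (1 / 2) M v * (2 * sin (2 * Real.pi * v)) * PP M 0 v =
      (fun v => -I * exp (-(Real.pi / M * I)) *
        (gr (1 / 2) M v + gr (1 / 2) M (v - 1 / M))) (v + 1 / M) -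
      (fun v => -I * exp (-(Real.pi / M * I)) *
        (gr (1 / 2) M v + gr (1 / 2) M (v - 1 / M))) v := by
    intro v
    simp only
    have h1 := gr_half_shift hM v
    have h2 := gr_half_shift hM (v - 1 / M)
    rw [sub_add_cancel] at h2
    rw [add_sub_cancel_right, PP_zero, mul_one]
    set x : ℂ := exp (Real.pi * v * I) with hx
    set q : ℂ := exp (Real.pi / M * I) with hq
    have x0 : x ≠ 0 := exp_ne_zero _
    have q0 : q ≠ 0 := exp_ne_zero _
    have a8 : 2 * sin (2 * Real.pi * v) = -I * (x ^ 2 - (x ^ 2)⁻¹) := by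
      rw [two_sin_eq]
      have : exp (2 * (Real.pi : ℂ) * v * I) = x ^ 2 := by
        rw [hx, ← exp_nat_mul]; congr 1; push_cast; ring
      rw [this]
    have a2 : exp (Real.pi * (v - 1 / M) * I) = x * q⁻¹ := by
      rw [hx, hq, ← exp_neg, ← exp_add]; congr 1; ring
    rw [a2] at h2
    have a3 : exp (-(Real.pi / M * I)) = q⁻¹ := by rw [exp_neg]
    have h3 : gr (1 / 2) M (v - 1 / M) = gr (1 / 2) M v * (x ^ 2)⁻¹ * q := by
      rw [h2]
      field_simp
    rw [a8, a3, h1, h3]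
    field_simp
    ring
  have ht := tele hM hH hF
  unfold E1
  rw [ht]
  have hd : ∀ p, deriv (fun v => -I * exp (-(Real.pi / M * I)) *
      (gr (1 / 2) M v + gr (1 / 2) M (v - 1 / M))) p = -I * exp (-(Real.pi / M * I)) *
      (gr (1 / 2) M p * (2 * Real.pi * I * M * p) +
        gr (1 / 2) M (p - 1 / M) * (2 * Real.pi * I * M * (p - 1 / M))) := by
    intro p
    have h1 := gr_deriv (1 / 2) M p
    have h2 := (gr_deriv (1 / 2) M (p - 1 / M)).comp_sub_const p (1 / (M : ℂ))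
    refine (((h1.add h2).const_mul _).congr_deriv ?_).deriv
    push_cast
    ring
  rw [hd, hd]
  have p1 : ((vl 2 M 0 : ℝ) : ℂ) = -(1 / 2) + 1 / (2 * M) := by
    unfold vl bt
    push_cast
    field_simp
    ring
  rw [p1]
  have g1 : gr (1 / 2) M (-(1 / 2) + 1 / (2 * M) + 1) = I * G0 M := by
    unfold gr G0
    rw [I_mul_exp]
    congr 1
    push_cast
    field_simp
    ring
  have g2 : gr (1 / 2) M (-(1 / 2) + 1 / (2 * M) + 1 - 1 / M) = -I * G0 M := by
    unfold gr G0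
    rw [neg_I_mul_exp]
    congr 1
    push_cast
    field_simp
    ring
  have g3 : gr (1 / 2) M (-(1 / 2) + 1 / (2 * M)) = -I * G0 M := by
    unfold gr G0
    rw [neg_I_mul_exp]
    congr 1
    push_cast
    field_simp
    ring
  have g4 : gr (1 / 2) M (-(1 / 2) + 1 / (2 * M) - 1 / M) = I * G0 M := by
    unfold gr G0
    rw [I_mul_exp]
    congr 1
    push_cast
    field_simp
    ring
  rw [g1, g2, g3, g4]
  field_simp
  ring_nf
  rw [I_sq]
  ring

/-- The closed form of the one-slot sums for one half twist. -/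
theorem E1_half {M : ℕ} (hM : 0 < M) (n : ℕ) :
    E1 (1 / 2) M n = 4 * Real.pi * I * G0 M * (-1) ^ n *
      exp (-(Real.pi * (n + 1) / M * I)) * ((S M n : ℝ) : ℂ) ^ 2 := by
  induction n with
  | zero =>
    rw [E1_half_zero hM, S_zero]
    push_cast
    rw [zero_add, mul_one]
    ring
  | succ n ih =>
    rw [E1_half_succ hM, ih, S_succ, c1]
    have e : exp (-(Real.pi * (((n + 1 : ℕ) : ℂ) + 1) / M * I)) =
        exp (-(Real.pi * (n + 1) / M * I)) * exp (-(Real.pi / M * I)) := by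
      rw [← exp_add]
      congr 1
      push_cast
      ring
    rw [e]
    push_cast
    ring

/-- The identity of the two-slot recursion. -/
theorem key_id {M : ℕ} (hM : 0 < M) (n n' : ℕ) :
    ((sg M (n + n' + 1) : ℝ) : ℂ) *
      (exp (-(Real.pi * (n' + 1) / M * I)) * ((sg M (n + 1) : ℝ) : ℂ) -
        exp (-(Real.pi * (n + 1) / M * I)) * ((sg M (n' + 1) : ℝ) : ℂ)) =
      -(2 * cos (2 * Real.pi * (n + 1 / 2) / M) - 2 * cos (2 * Real.pi * (n' + 1 / 2) / M)) := by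
  have hM' : (M : ℂ) ≠ 0 := by exact_mod_cast hM.ne'
  rw [sg_cast, sg_cast, sg_cast, two_sin_eq, two_sin_eq, two_sin_eq, two_cos_eq, two_cos_eq,
    exp_neg, exp_neg]
  have e1 : exp (Real.pi * ((n + 1 : ℕ) : ℂ) / M * I) = exp (Real.pi * (n + 1) / M * I) := by
    push_cast
    rfl
  have e2 : exp (Real.pi * ((n' + 1 : ℕ) : ℂ) / M * I) = exp (Real.pi * (n' + 1) / M * I) := by
    push_cast
    rfl
  rw [e1, e2]
  set a : ℂ := exp (Real.pi * (n + 1) / M * I) with ha
  set b : ℂ := exp (Real.pi * (n' + 1) / M * I) with hb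
  set q : ℂ := exp (Real.pi / M * I) with hq
  have a0 : a ≠ 0 := exp_ne_zero _
  have b0 : b ≠ 0 := exp_ne_zero _
  have q0 : q ≠ 0 := exp_ne_zero _
  have e3 : exp (Real.pi * ((n + n' + 1 : ℕ) : ℂ) / M * I) = a * b * q⁻¹ := by
    rw [ha, hb, hq, ← exp_neg, ← exp_add, ← exp_add]
    congr 1
    push_cast
    ring
  have e4 : exp (2 * Real.pi * (n + 1 / 2) / M * I) = a ^ 2 * q⁻¹ := by
    rw [ha, hq, ← exp_neg, ← exp_nat_mul, ← exp_add]
    congr 1
    push_cast
    ring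
  have e5 : exp (2 * Real.pi * (n' + 1 / 2) / M * I) = b ^ 2 * q⁻¹ := by
    rw [hb, hq, ← exp_neg, ← exp_nat_mul, ← exp_add]
    congr 1
    push_cast
    ring
  rw [e3, e4, e5]
  field_simp
  ring_nf
  rw [I_sq]
  ring

/-- The closed form of the two-slot sums for one half twist. -/
theorem E2_half {M : ℕ} (hM : 0 < M) (n n' : ℕ) :
    E2 (1 / 2) M n n' = 4 * Real.pi * I * G0 M * (-1) ^ (n + n') *
      exp (-(Real.pi * (n + n' + n * n' + 1) / M * I)) *
        ((S M n : ℝ) * (S M n' : ℝ) * (S M (n + n') : ℝ) : ℂ) := by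
  induction n generalizing n' with
  | zero =>
    rw [E2_zero, E1_half hM, S_zero, zero_add]
    push_cast
    rw [zero_add, zero_mul, add_zero]
    ring
  | succ n ih =>
    rw [E2_rec, ih, ih]
    have hk := key_id hM n n'
    have f1 : exp (-(Real.pi * (n + ((n' + 1 : ℕ) : ℂ) + n * ((n' + 1 : ℕ) : ℂ) + 1) / M * I)) =
        exp (-(Real.pi * (n + n' + n * n' + 1) / M * I)) *
          exp (-(Real.pi * (n + 1) / M * I)) := by
      rw [← exp_add]
      congr 1
      push_cast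
      ring
    have f2 : exp (-(Real.pi * (((n + 1 : ℕ) : ℂ) + n' + ((n + 1 : ℕ) : ℂ) * n' + 1) / M * I)) =
        exp (-(Real.pi * (n + n' + n * n' + 1) / M * I)) *
          exp (-(Real.pi * (n' + 1) / M * I)) := by
      rw [← exp_add]
      congr 1
      push_cast
      ring
    have e1 : n + 1 + n' = n + n' + 1 := by omega
    have e2 : n + (n' + 1) = n + n' + 1 := by omega
    rw [f1, f2, e1, e2, S_succ, S_succ, S_succ]
    push_cast
    rw [pow_succ]
    linear_combination (4 * Real.pi * I * G0 M * (-1) ^ (n + n') *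
      exp (-(Real.pi * (n + n' + n * n' + 1) / M * I)) *
      ((S M n : ℝ) * (S M n' : ℝ) * (S M (n + n') : ℝ) : ℂ)) * hk

end Pool.Agent.H25.RK
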