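import Pool.Agent.H25.RK.DGc

/-!
# Closed forms for the factor of an end node with two half twists
-/

set_option autoImplicit false

open Complex
open Pool.Agent.H63.VC Pool.Agent.H63.VC3 Pool.Agent.H63.VC7

namespace Pool.Agent.H25.RK

theorem gr_one_shift {M : ℕ} (hM : 0 < M) (v : ℂ) : gr 1 M (v + 1 / M) =
    gr 1 M v * exp (Real.pi * v * I) ^ 4 * exp (Real.pi / M * I) ^ 2 := by
  unfold gr
  rw [← exp_nat_mul, ← exp_nat_mul, ← exp_add, ← exp_add]
  congr 1
  have hM' : (M : ℂ) ≠ 0 := by exact_mod_cast hM.ne'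
  push_cast
  field_simp
  ring

/-- The auxiliary function for two half twists. -/
noncomputable def H2 (M n : ℕ) (v : ℂ) : ℂ :=
  gr 1 M v * (-I * exp (-(Real.pi / M * I)) *
      exp (-(Real.pi * ((n + 1 / 2) / M) * I)) *
      (exp (-(Real.pi * v * I)) + exp (Real.pi / M * I) * exp (-(Real.pi * v * I)) ^ 3)) *
      (PP M n v * (2 * cos (Real.pi * (v - (n + 1 / 2) / M))))

theorem H2_diff (M n : ℕ) : Differentiable ℂ (H2 M n) := by
  unfold H2
  have h1 := gr_diff 1 M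
  have h2 := PP_diff M n
  fun_prop

/-- The factor of the one-slot recursion. -/
noncomputable def c2 (M n : ℕ) : ℂ := I * exp (Real.pi * n / M * I) * ((sg M (n + 1) : ℝ) : ℂ)

theorem H2_rec {M : ℕ} (hM : 0 < M) (n : ℕ) (v : ℂ) :
    gr 1 M v * (2 * sin (2 * Real.pi * v)) * PP M (n + 1) v -
      c2 M n * (gr 1 M v * (2 * sin (2 * Real.pi * v)) * PP M n v) =
      H2 M n (v + 1 / M) - H2 M n v := by
  have hM' : (M : ℂ) ≠ 0 := by exact_mod_cast hM.ne'
  unfold H2
  have hsh := PP_shift M n v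
  rw [hsh, gr_one_shift hM, PP_succ']
  set x : ℂ := exp (Real.pi * v * I) with hx
  set q : ℂ := exp (Real.pi / M * I) with hq
  set z : ℂ := exp (Real.pi * ((n + 1 / 2) / M) * I) with hz
  have x0 : x ≠ 0 := exp_ne_zero _
  have q0 : q ≠ 0 := exp_ne_zero _
  have z0 : z ≠ 0 := exp_ne_zero _
  have a1 : exp (-(Real.pi * v * I)) = x⁻¹ := by rw [exp_neg]
  have a3 : exp (-(Real.pi * (v + 1 / M) * I)) = (x * q)⁻¹ := by
    rw [exp_neg, hx, hq, ← exp_add]; congr 2; ring
  have a4 : exp (-(Real.pi / M * I)) = q⁻¹ := by rw [exp_neg]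
  have a5 : exp (-(Real.pi * ((n + 1 / 2) / M) * I)) = z⁻¹ := by rw [exp_neg]
  have a6 : 2 * cos (Real.pi * (v + (n + 1 / 2) / M)) = x * z + (x * z)⁻¹ := by
    rw [two_cos_eq]
    have : exp ((Real.pi : ℂ) * (v + (n + 1 / 2) / M) * I) = x * z := by
      rw [hx, hz, ← exp_add]; congr 1; ring
    rw [this]
  have a7 : 2 * cos (Real.pi * (v - (n + 1 / 2) / M)) = x * z⁻¹ + (x * z⁻¹)⁻¹ := by
    rw [two_cos_eq]
    have : exp ((Real.pi : ℂ) * (v - (n + 1 / 2) / M) * I) = x * z⁻¹ := by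
      rw [hx, hz, ← exp_neg, ← exp_add]; congr 1; ring
    rw [this]
  have a8 : 2 * sin (2 * Real.pi * v) = -I * (x ^ 2 - (x ^ 2)⁻¹) := by
    rw [two_sin_eq]
    have : exp (2 * (Real.pi : ℂ) * v * I) = x ^ 2 := by
      rw [hx, ← exp_nat_mul]; congr 1; push_cast; ring
    rw [this]
  have a9 : 2 * cos (2 * Real.pi * v) = x ^ 2 + (x ^ 2)⁻¹ := by
    rw [two_cos_eq]
    have : exp (2 * (Real.pi : ℂ) * v * I) = x ^ 2 := by
      rw [hx, ← exp_nat_mul]; congr 1; push_cast; ring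
    rw [this]
  have a10 : 2 * cos (2 * Real.pi * (n + 1 / 2) / M) = z ^ 2 + (z ^ 2)⁻¹ := by
    rw [two_cos_eq]
    have : exp (2 * (Real.pi : ℂ) * (n + 1 / 2) / M * I) = z ^ 2 := by
      rw [hz, ← exp_nat_mul]; congr 1; push_cast; ring
    rw [this]
  have a11 : c2 M n = z ^ 2 - q⁻¹ := by
    unfold c2
    rw [sg_cast, two_sin_eq]
    set s : ℂ := exp (Real.pi * ((n + 1 : ℕ) : ℂ) / M * I) with hs
    have s0 : s ≠ 0 := exp_ne_zero _
    have b2 : z ^ 2 * q = s ^ 2 := by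
      rw [hz, hq, hs, ← exp_nat_mul, ← exp_nat_mul, ← exp_add]
      congr 1
      push_cast
      field_simp
      ring
    have b3 : exp (Real.pi * n / M * I) = s * q⁻¹ := by
      rw [hs, hq, ← exp_neg, ← exp_add]
      congr 1
      push_cast
      ring
    have b4 : z ^ 2 = s ^ 2 * q⁻¹ := by
      rw [← b2]
      field_simp
    rw [b3, b4]
    field_simp
    rw [I_sq]
    ring
  rw [a1, a3, a4, a5, a6, a7, a8, a9, a10, a11]
  field_simp
  ring

theorem PP_add_one (M n : ℕ) (v : ℂ) : PP M n (v + 1) = PP M n v := by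
  unfold PP
  refine Finset.prod_congr rfl fun i _ => ?_
  have e1 : (Real.pi : ℂ) * (v + 1 + (i + 1 / 2) / M) = Real.pi * (v + (i + 1 / 2) / M) +
    Real.pi := by ring
  have e2 : (Real.pi : ℂ) * (v + 1 - (i + 1 / 2) / M) = Real.pi * (v - (i + 1 / 2) / M) +
    Real.pi := by ring
  rw [e1, e2, cos_add_pi, cos_add_pi]
  ring

theorem H2_add_one {M : ℕ} (n : ℕ) (v : ℂ) :
    H2 M n (v + 1) = exp (4 * Real.pi * I * M * v + 2 * Real.pi * I * M) * H2 M n v := by
  unfold H2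
  have e1 : (Real.pi : ℂ) * (v + 1 - (n + 1 / 2) / M) = Real.pi * (v - (n + 1 / 2) / M) +
    Real.pi := by ring
  have e2 : exp (-(Real.pi * (v + 1) * I)) = -exp (-(Real.pi * v * I)) := by
    have : -(Real.pi * (v + 1) * I) = -(Real.pi * v * I) + -(Real.pi * I) := by ring
    rw [this, exp_add, exp_neg (Real.pi * I), exp_pi_mul_I]
    ring
  have e3 : gr 1 M (v + 1) = exp (4 * Real.pi * I * M * v + 2 * Real.pi * I * M) * gr 1 M v := by
    unfold gr
    rw [← exp_add]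
    congr 1
    push_cast
    ring
  rw [PP_add_one, e1, cos_add_pi, e2, e3]
  ring

theorem v0_eq {M : ℕ} (hM : 0 < M) : ((vl 2 M 0 : ℝ) : ℂ) = -(1 / 2) + 1 / (2 * M) := by
  have hM' : (M : ℂ) ≠ 0 := by exact_mod_cast hM.ne'
  unfold vl bt
  push_cast
  field_simp
  ring

theorem H2_v0 {M : ℕ} (hM : 0 < M) (n : ℕ) : H2 M n ((vl 2 M 0 : ℝ) : ℂ) = 0 := by
  have hM' : (M : ℂ) ≠ 0 := by exact_mod_cast hM.ne'
  have h : PP M n ((vl 2 M 0 : ℝ) : ℂ) *
      (2 * cos (Real.pi * (((vl 2 M 0 : ℝ) : ℂ) - (n + 1 / 2) / M))) = 0 := by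
    rw [v0_eq hM]
    have hc : cos (Real.pi * (-(1 / 2) + 1 / (2 * (M : ℂ)) - (((0 : ℕ) : ℂ) + 1 / 2) / M)) = 0 := by
      have : (Real.pi : ℂ) * (-(1 / 2) + 1 / (2 * (M : ℂ)) - (((0 : ℕ) : ℂ) + 1 / 2) / M) =
          -(Real.pi / 2) := by
        push_cast
        field_simp
        ring
      rw [this, cos_neg, cos_pi_div_two]
    rcases Nat.eq_zero_or_pos n with h0 | h0
    · rw [h0, hc]
      ring
    · have : PP M n (-(1 / 2) + 1 / (2 * (M : ℂ))) = 0 := by
        unfold PP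
        refine Finset.prod_eq_zero (Finset.mem_range.mpr h0) ?_
        rw [hc]
        ring
      rw [this, zero_mul]
  unfold H2
  rw [h, mul_zero]

theorem H2_bdy {M : ℕ} (hM : 0 < M) (n : ℕ) :
    deriv (H2 M n) (((vl 2 M 0 : ℝ) : ℂ) + 1) = deriv (H2 M n) ((vl 2 M 0 : ℝ) : ℂ) := by
  have hM' : (M : ℂ) ≠ 0 := by exact_mod_cast hM.ne'
  rw [← deriv_comp_add_const]
  have e : (fun v => H2 M n (v + 1)) =
      fun v => exp (4 * Real.pi * I * M * v + 2 * Real.pi * I * M) * H2 M n v :=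
    funext fun v => H2_add_one n v
  rw [e, deriv_fun_mul (by fun_prop) (H2_diff M n _), H2_v0 hM, mul_zero, zero_add]
  have : exp (4 * Real.pi * I * M * ((vl 2 M 0 : ℝ) : ℂ) + 2 * Real.pi * I * M) = 1 := by
    rw [v0_eq hM]
    have : 4 * (Real.pi : ℂ) * I * M * (-(1 / 2) + 1 / (2 * M)) + 2 * Real.pi * I * M =
        2 * Real.pi * I := by
      field_simp
      ring
    rw [this, exp_two_pi_mul_I]
  rw [this, one_mul]

theorem E1_one_succ {M : ℕ} (hM : 0 < M) (n : ℕ) : E1 1 M (n + 1) = c2 M n * E1 1 M n := by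
  have h1 := gr_diff 1 M
  have h2 := PP_diff M n
  have h3 := PP_diff M (n + 1)
  have ht := tele hM (H2_diff M n) (H2_rec hM n)
  rw [H2_bdy hM, sub_self] at ht
  have hd : ∀ X ∈ Finset.range M, deriv (fun v =>
      gr 1 M v * (2 * sin (2 * Real.pi * v)) * PP M (n + 1) v -
      c2 M n * (gr 1 M v * (2 * sin (2 * Real.pi * v)) * PP M n v))
      ((vl 2 M X : ℝ) : ℂ) =
      deriv (fun v => gr 1 M v * (2 * sin (2 * Real.pi * v)) * PP M (n + 1) v)
        ((vl 2 M X : ℝ) : ℂ) - c2 M n *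
      deriv (fun v => gr 1 M v * (2 * sin (2 * Real.pi * v)) * PP M n v)
        ((vl 2 M X : ℝ) : ℂ) := by
    intro X _
    rw [deriv_fun_sub (by fun_prop) (by fun_prop), deriv_const_mul _ (by fun_prop)]
  have hsum := Finset.sum_congr rfl hd
  rw [Finset.sum_sub_distrib, ← Finset.mul_sum] at hsum
  unfold E1
  have := hsum.symm.trans ht
  linear_combination this

theorem E1_one_zero {M : ℕ} (hM : 0 < M) :
    E1 1 M 0 = 4 * Real.pi * M * exp (Real.pi * M / 2 * I - Real.pi / (2 * M) * I) := by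
  have hM' : (M : ℂ) ≠ 0 := by exact_mod_cast hM.ne'
  have hH : Differentiable ℂ (fun v => -I * exp (-(Real.pi / (2 * M) * I)) *
      gr 1 M (v - 1 / (2 * M))) := by
    have h1 := gr_diff 1 M
    have h2 : Differentiable ℂ fun v => gr 1 M (v - 1 / (2 * M)) :=
      h1.comp (by fun_prop)
    fun_prop
  have hF : ∀ v, gr 1 M v * (2 * sin (2 * Real.pi * v)) * PP M 0 v =
      (fun v => -I * exp (-(Real.pi / (2 * M) * I)) * gr 1 M (v - 1 / (2 * M))) (v + 1 / M) -
      (fun v => -I * exp (-(Real.pi / (2 * M) * I)) * gr 1 M (v - 1 / (2 * M))) v := by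
    intro v
    simp only
    rw [PP_zero, mul_one, two_sin_eq, ← exp_neg]
    have g1 : gr 1 M (v + 1 / M - 1 / (2 * M)) = gr 1 M v * exp (2 * Real.pi * v * I) *
        exp (Real.pi / (2 * M) * I) := by
      unfold gr
      rw [← exp_add, ← exp_add]
      congr 1
      push_cast
      field_simp
      ring
    have g2 : gr 1 M (v - 1 / (2 * M)) = gr 1 M v * exp (-(2 * Real.pi * v * I)) *
        exp (Real.pi / (2 * M) * I) := by
      unfold gr
      rw [← exp_add, ← exp_add]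
      congr 1
      push_cast
      field_simp
      ring
    rw [g1, g2]
    have g3 : exp (-(Real.pi / (2 * M) * I)) * exp (Real.pi / (2 * M) * I) = 1 := by
      rw [← exp_add, neg_add_cancel, exp_zero]
    linear_combination (gr 1 M v * I * (exp (2 * Real.pi * v * I) -
      exp (-(2 * Real.pi * v * I)))) * g3
  have ht := tele hM hH hF
  unfold E1
  rw [ht]
  have hd : ∀ p, deriv (fun v => -I * exp (-(Real.pi / (2 * M) * I)) *
      gr 1 M (v - 1 / (2 * M))) p = -I * exp (-(Real.pi / (2 * M) * I)) *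
        (gr 1 M (p - 1 / (2 * M)) * (4 * Real.pi * I * M * (p - 1 / (2 * M)))) := by
    intro p
    have h2 := (gr_deriv 1 M (p - 1 / (2 * M))).comp_sub_const p (1 / (2 * (M : ℂ)))
    refine ((h2.const_mul _).congr_deriv ?_).deriv
    push_cast
    ring
  rw [hd, hd, v0_eq hM]
  have e1 : -(1 / 2) + 1 / (2 * (M : ℂ)) + 1 - 1 / (2 * M) = 1 / 2 := by ring
  have e2 : -(1 / 2) + 1 / (2 * (M : ℂ)) - 1 / (2 * M) = -(1 / 2) := by ring
  rw [e1, e2]
  have g1 : gr 1 M (1 / 2) = exp (Real.pi * M / 2 * I) := by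
    unfold gr
    congr 1
    push_cast
    ring
  have g2 : gr 1 M (-(1 / 2)) = exp (Real.pi * M / 2 * I) := by
    unfold gr
    congr 1
    push_cast
    ring
  rw [g1, g2, sub_eq_add_neg (Real.pi * M / 2 * I : ℂ), exp_add]
  linear_combination (-(4 * Real.pi * M * exp (-(Real.pi / (2 * M) * I)) *
    exp (Real.pi * M / 2 * I))) * I_sq

/-- The closed form of the one-slot sums for two half twists. -/
theorem E1_one {M : ℕ} (hM : 0 < M) (n : ℕ) :
    E1 1 M n = 4 * Real.pi * M * exp (Real.pi * M / 2 * I - Real.pi / (2 * M) * I) * I ^ n *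
      exp (Real.pi * n * (n - 1) / (2 * M) * I) * ((S M n : ℝ) : ℂ) := by
  have hM' : (M : ℂ) ≠ 0 := by exact_mod_cast hM.ne'
  induction n with
  | zero =>
    rw [E1_one_zero hM, S_zero]
    simp
  | succ n ih =>
    rw [E1_one_succ hM, ih, S_succ, c2]
    have e : exp (Real.pi * ((n + 1 : ℕ) : ℂ) * (((n + 1 : ℕ) : ℂ) - 1) / (2 * M) * I) =
        exp (Real.pi * n * (n - 1) / (2 * M) * I) * exp (Real.pi * n / M * I) := by
      rw [← exp_add]
      congr 1
      push_cast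
      field_simp
      ring
    rw [e]
    push_cast
    ring

end Pool.Agent.H25.RK
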