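import Pool.Agent.H25.RK.DGd

/-!
# Closed forms for the factors of the nodes
-/

set_option autoImplicit false

open Complex
open Pool.Agent.H63.VC Pool.Agent.H63.VC3 Pool.Agent.H63.VC7

namespace Pool.Agent.H25.RK

variable {m : ℕ}

/-! ### The mirror image -/

theorem qc_conj (M k : ℕ) (v : ℂ) :
    qc M k ((starRingEnd ℂ) v) = (starRingEnd ℂ) (qc M k v) := by
  unfold qc
  rw [map_mul, map_div₀, map_one, map_natCast, map_prod]
  congr 1
  refine Finset.prod_congr rfl fun i _ => ?_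
  rw [map_mul, map_mul, ← cos_conj, ← cos_conj]
  have h4 : (starRingEnd ℂ) (4 : ℂ) = 4 := by
    have := conj_ofReal 4
    push_cast at this
    exact this
  rw [h4, map_mul, map_mul, map_add, map_sub, map_div₀, map_add, map_div₀, map_one, map_natCast,
    map_natCast, map_ofNat, conj_ofReal]

theorem NT_conj (r : ℝ) (M : ℕ) (A : Finset (Fin m)) (k : Fin m → ℕ) (v : ℂ) :
    NT (-r) M A k v = (starRingEnd ℂ) (NT r M A k ((starRingEnd ℂ) v)) := by
  unfold NT
  rw [map_mul, map_mul, map_mul, map_prod, ← exp_conj, ← sin_conj]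
  simp only [map_mul, map_pow, conj_ofReal, conj_I, map_natCast, map_ofNat, conj_conj, qc_conj]
  push_cast
  have e : 2 * (Real.pi : ℂ) * I * -r * M * v ^ 2 = 2 * Real.pi * -I * r * M * v ^ 2 := by ring
  rw [e]

theorem DG_neg (r : ℝ) (M : ℕ) (A : Finset (Fin m)) (k : Fin m → ℕ) :
    DG (-r) M A k = (starRingEnd ℂ) (DG r M A k) := by
  unfold DG
  rw [map_sum]
  refine Finset.sum_congr rfl fun X _ => ?_
  have e : NT (-r) M A k = (starRingEnd ℂ) ∘ NT r M A k ∘ (starRingEnd ℂ) :=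
    funext fun v => NT_conj r M A k v
  rw [e, deriv_conj_conj, Function.comp_apply, Function.comp_apply, conj_ofReal]

/-! ### The sums -/

theorem DG_single (r : ℝ) (M : ℕ) (j : Fin m) (k : Fin m → ℕ) :
    DG r M {j} k = 1 / M * E1 r M (M - 1 - k j) := by
  unfold DG E1
  rw [Finset.mul_sum]
  refine Finset.sum_congr rfl fun X _ => ?_
  have h1 := gr_diff r M
  have h2 := PP_diff M (M - 1 - k j)
  rw [← deriv_const_mul _ (by fun_prop)]
  congr 1
  funext v
  unfold NT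
  rw [Finset.prod_singleton, qc_PP]
  unfold gr
  ring

theorem DG_pair (r : ℝ) (M : ℕ) {i j : Fin m} (hij : i ≠ j) (k : Fin m → ℕ) :
    DG r M {i, j} k = 1 / (M : ℂ) ^ 2 * E2 r M (M - 1 - k i) (M - 1 - k j) := by
  unfold DG E2
  rw [Finset.mul_sum]
  refine Finset.sum_congr rfl fun X _ => ?_
  have h1 := gr_diff r M
  have h2 := PP_diff M (M - 1 - k i)
  have h3 := PP_diff M (M - 1 - k j)
  rw [← deriv_const_mul _ (by fun_prop)]
  congr 1
  funext v
  unfold NT
  rw [Finset.prod_pair hij, qc_PP, qc_PP]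
  unfold gr
  ring

theorem S_eq_zero {M k : ℕ} (hM : 0 < M) (h : M ≤ k) : S M k = 0 := by
  unfold S
  exact Finset.prod_eq_zero (Finset.mem_Ico.mpr ⟨hM, by omega⟩) (sg_self hM)

theorem S_inv {M k : ℕ} (h : k < M) : S M (M - 1 - k) = M / S M k := by
  rw [eq_div_iff (S_pos h).ne', mul_comm]
  exact S_mul h

theorem exp_nat_pi (n : ℕ) : exp (Real.pi * n * I) = (-1) ^ n := by
  rw [← exp_pi_mul_I, ← exp_nat_mul]
  congr 1
  ring

/-! ### One half twist -/

/-- The factor of a node with one half twist and two edges. -/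
theorem DG_half_pair {M : ℕ} {i j : Fin m} (hij : i ≠ j) (k : Fin m → ℕ) (hi : k i < M)
    (hj : k j < M) (h : M ≤ k i + k j + 1) :
    DG (1 / 2) M {i, j} k = 4 * Real.pi * I * M * (-1) ^ M * G0 M *
      exp (-(Real.pi * (k i * k j) / M * I)) /
        ((S M (k i) : ℝ) * (S M (k j) : ℝ) * (S M (k i + k j + 1 - M) : ℝ) : ℂ) := by
  have hM : 0 < M := by omega
  have hM' : (M : ℂ) ≠ 0 := by exact_mod_cast hM.ne'
  rw [DG_pair _ _ hij, E2_half hM]
  set a := k i with ha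
  set b := k j with hb
  have h1 : S M (M - 1 - a + (M - 1 - b)) = M / S M (a + b + 1 - M) := by
    rw [← S_inv (by omega)]
    congr 1
    omega
  rw [S_inv hi, S_inv hj, h1]
  have s1 : ((S M a : ℝ) : ℂ) ≠ 0 := by exact_mod_cast (S_pos hi).ne'
  have s2 : ((S M b : ℝ) : ℂ) ≠ 0 := by exact_mod_cast (S_pos hj).ne'
  have s3 : ((S M (a + b + 1 - M) : ℝ) : ℂ) ≠ 0 := by
    exact_mod_cast (S_pos (show a + b + 1 - M < M by omega)).ne'
  have e1 : ((M - 1 - a : ℕ) : ℂ) = M - 1 - a := by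
    rw [Nat.sub_sub, Nat.cast_sub (by omega)]
    push_cast
    ring
  have e2 : ((M - 1 - b : ℕ) : ℂ) = M - 1 - b := by
    rw [Nat.sub_sub, Nat.cast_sub (by omega)]
    push_cast
    ring
  have e3 : exp (-(Real.pi * (((M - 1 - a : ℕ) : ℂ) + ((M - 1 - b : ℕ) : ℂ) +
      ((M - 1 - a : ℕ) : ℂ) * ((M - 1 - b : ℕ) : ℂ) + 1) / M * I)) =
      exp (-(Real.pi * (a * b) / M * I)) * ((-1) ^ (a + b) * (-1) ^ M) := by
    have f1 := exp_nat_pi (a + b)
    have f2 : exp (-(Real.pi * M * I)) = (-1) ^ M := by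
      rw [exp_neg, exp_nat_pi, ← inv_pow]
      norm_num
    rw [← f1, ← f2, ← exp_add, ← exp_add, e1, e2]
    congr 1
    push_cast
    field_simp
    ring
  have e4 : (-1 : ℂ) ^ (M - 1 - a + (M - 1 - b)) = (-1) ^ (a + b) := by
    have : M - 1 - a + (M - 1 - b) + (a + b) = 2 * (M - 1) := by omega
    have h2 : (-1 : ℂ) ^ (M - 1 - a + (M - 1 - b)) * (-1) ^ (a + b) = 1 := by
      rw [← pow_add, this, pow_mul]
      norm_num
    have h3 : (-1 : ℂ) ^ (a + b) * (-1) ^ (a + b) = 1 := by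
      rw [← mul_pow]
      norm_num
    calc (-1 : ℂ) ^ (M - 1 - a + (M - 1 - b)) = (-1 : ℂ) ^ (M - 1 - a + (M - 1 - b)) *
        ((-1 : ℂ) ^ (a + b) * (-1) ^ (a + b)) := by rw [h3, mul_one]
      _ = _ := by rw [← mul_assoc, h2, one_mul]
  have h3 : (-1 : ℂ) ^ (a + b) * (-1) ^ (a + b) = 1 := by
    rw [← mul_pow]
    norm_num
  rw [e3, e4]
  push_cast
  field_simp
  linear_combination G0 M * h3

theorem DG_half_pair_zero {M : ℕ} {i j : Fin m} (hij : i ≠ j) (k : Fin m → ℕ)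
    (h : k i + k j + 1 < M) : DG (1 / 2) M {i, j} k = 0 := by
  have hM : 0 < M := by omega
  rw [DG_pair _ _ hij, E2_half hM]
  have : S M (M - 1 - k i + (M - 1 - k j)) = 0 := S_eq_zero hM (by omega)
  rw [this]
  push_cast
  ring

/-- The factor of a node with one half twist and one edge. -/
theorem DG_half_single {M : ℕ} (j : Fin m) (k : Fin m → ℕ) (hj : k j < M) :
    DG (1 / 2) M {j} k = 4 * Real.pi * I * M * (-1) ^ (M + k j) * G0 M *
      exp (Real.pi * k j / M * I) / ((S M (k j) : ℝ) : ℂ) ^ 2 := by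
  have hM : 0 < M := by omega
  have hM' : (M : ℂ) ≠ 0 := by exact_mod_cast hM.ne'
  rw [DG_single, E1_half hM]
  set a := k j with ha
  rw [S_inv hj]
  have s1 : ((S M a : ℝ) : ℂ) ≠ 0 := by exact_mod_cast (S_pos hj).ne'
  have e1 : ((M - 1 - a : ℕ) : ℂ) = M - 1 - a := by
    rw [Nat.sub_sub, Nat.cast_sub (by omega)]
    push_cast
    ring
  have e3 : exp (-(Real.pi * (((M - 1 - a : ℕ) : ℂ) + 1) / M * I)) =
      exp (Real.pi * a / M * I) * -1 := by
    rw [← exp_neg_pi_mul_I, ← exp_add, e1]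
    congr 1
    field_simp
    ring
  have e4 : (-1 : ℂ) ^ (M - 1 - a) * -1 = (-1) ^ (M + a) := by
    have h1 : M + a = (M - 1 - a) + 1 + 2 * a := by omega
    have h2 : (-1 : ℂ) ^ (2 * a) = 1 := by
      rw [pow_mul]
      norm_num
    rw [h1, pow_add, h2, pow_succ, mul_one]
  rw [e3, ← e4]
  push_cast
  field_simp

/-! ### Two half twists -/

/-- The factor of an end node with two half twists. -/
theorem DG_one_single {M : ℕ} (j : Fin m) (k : Fin m → ℕ) (hj : k j < M) :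
    DG 1 M {j} k = 4 * Real.pi * M * exp (Real.pi * M / 2 * I - Real.pi / (2 * M) * I) *
      I ^ (M - 1 - k j) *
      exp (Real.pi * ((M - 1 - k j : ℕ) : ℂ) * (((M - 1 - k j : ℕ) : ℂ) - 1) / (2 * M) * I) /
        ((S M (k j) : ℝ) : ℂ) := by
  have hM : 0 < M := by omega
  have hM' : (M : ℂ) ≠ 0 := by exact_mod_cast hM.ne'
  have s1 : ((S M (k j) : ℝ) : ℂ) ≠ 0 := by exact_mod_cast (S_pos hj).ne'
  rw [DG_single, E1_one hM, S_inv hj]
  push_cast
  field_simp

theorem norm_exp_real_mul_I {z : ℂ} {x : ℝ} (h : z = x * I) : ‖exp z‖ = 1 := by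
  rw [h, norm_exp_ofReal_mul_I]

theorem norm_DG_one_single {M : ℕ} (j : Fin m) (k : Fin m → ℕ) (hj : k j < M) :
    ‖DG 1 M {j} k‖ = 4 * Real.pi * M / S M (k j) := by
  rw [DG_one_single j k hj]
  rw [norm_div, norm_mul, norm_mul, norm_mul, norm_mul, norm_mul, norm_pow, norm_I, one_pow,
    norm_exp_real_mul_I (x := Real.pi * M / 2 - Real.pi / (2 * M)) (by push_cast; ring),
    norm_exp_real_mul_I (x := Real.pi * ((M - 1 - k j : ℕ) : ℝ) *
      (((M - 1 - k j : ℕ) : ℝ) - 1) / (2 * M)) (by push_cast; ring), norm_real, norm_real,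
    Real.norm_eq_abs, Real.norm_eq_abs, abs_of_pos Real.pi_pos, abs_of_pos (S_pos hj),
    norm_natCast, mul_one, mul_one, mul_one]
  norm_num

theorem norm_G0 (M : ℕ) : ‖G0 M‖ = 1 := by
  unfold G0
  exact norm_exp_real_mul_I (x := Real.pi * (M + 1 / M) / 4) (by push_cast; ring)

theorem norm_DG_half_pair {M : ℕ} {i j : Fin m} (hij : i ≠ j) (k : Fin m → ℕ) (hi : k i < M)
    (hj : k j < M) (h : M ≤ k i + k j + 1) :
    ‖DG (1 / 2) M {i, j} k‖ =
      4 * Real.pi * M / (S M (k i) * S M (k j) * S M (k i + k j + 1 - M)) := by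
  have h3 : 0 < S M (k i + k j + 1 - M) := S_pos (by omega)
  rw [DG_half_pair hij k hi hj h]
  rw [norm_div, norm_mul, norm_mul, norm_mul, norm_mul, norm_mul, norm_mul, norm_pow, norm_neg,
    norm_one, one_pow, norm_I, norm_G0,
    norm_exp_real_mul_I (x := -(Real.pi * (k i * k j) / M)) (by push_cast; ring), norm_mul,
    norm_mul, norm_real, norm_real, norm_real, norm_real,
    Real.norm_eq_abs, Real.norm_eq_abs, Real.norm_eq_abs, Real.norm_eq_abs,
    abs_of_pos Real.pi_pos, abs_of_pos (S_pos hi), abs_of_pos (S_pos hj), abs_of_pos h3,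
    norm_natCast, mul_one, mul_one, mul_one, mul_one]
  norm_num

theorem norm_DG_neg (r : ℝ) (M : ℕ) (A : Finset (Fin m)) (k : Fin m → ℕ) :
    ‖DG (-r) M A k‖ = ‖DG r M A k‖ := by
  rw [DG_neg, RCLike.norm_conj]

end Pool.Agent.H25.RK
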