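import Pool.Agent.H25.RK.RecH

/-!
# The recurrence for the second sum at the edge `l = M - 1`
-/

set_option autoImplicit false

open Finset

namespace Pool.Agent.H25.RK

namespace Cyc

variable {A R : Type*} [AddCommGroup A] [CommRing R] (C : Cyc A R)

/-- values at `x = (M - 1) o + ξ` -/
theorem edge_s : C.s (((C.M : ℤ) - 1) • C.o + C.ξ) = C.s (C.o - C.ξ) := by
  rw [← C.s_M_sub (C.o - C.ξ)]
  congr 1
  module

theorem edge_c : C.c (((C.M : ℤ) - 1) • C.o + C.ξ) = -C.c (C.o - C.ξ) := by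
  rw [← C.c_M_sub (C.o - C.ξ)]
  congr 1
  module

theorem edge_sp : C.s (((C.M : ℤ) - 1) • C.o + C.ξ + C.o) = -C.s C.ξ := by
  rw [← C.s_M_add C.ξ]
  congr 1
  module

theorem edge_cp : C.c (((C.M : ℤ) - 1) • C.o + C.ξ + C.o) = -2 := by
  rw [← C.inf_ξ.c_eq, ← C.c_M_add C.ξ]
  congr 1
  module

theorem edge_d : C.s (((C.M : ℤ) - 1) • C.o + C.ξ + (((C.M : ℤ) - 1) • C.o + C.ξ) + C.o) =
    -C.s (C.o - C.ξ - C.ξ) := by
  rw [← C.s_M_sub (C.o - C.ξ - C.ξ), ← C.s_M_add]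
  congr 1
  module

/-- The last term. -/
theorem edge_last (hM : 2 ≤ C.M) (l' : ℕ) (h1 : l' < C.M) (m : ℤ) (hm : m = C.M - 1 - l') :
    C.X (C.M - 1) l' m + C.U (C.M - 1) l' m = 0 := by
  have hξ := C.inf_ξ.nil
  have hη := C.inf_η.nil
  have hs := C.inf_ξ.nil_add C.inf_η
  have a1 := C.iS_step_neg (z := C.M - 1 + m) (by omega) hξ
  have a4 := C.iS_step_pos (z := 2 * C.M - 1) (by omega) hs
  have a5 := C.iS_sub_one (z := m) (by omega) (e := 0) nil_zero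
  rw [show ((C.M : ℤ) - 1 + m) • C.o + C.ξ = ((C.M : ℤ) - 1) • C.o + C.ξ + m • C.o by module,
    show (C.M : ℤ) - (C.M - 1 + m) - 1 = -m by ring,
    show (C.M : ℤ) - (C.M - 1 + m) = 1 - m by ring] at a1
  rw [show (2 * (C.M : ℤ) - 1) • C.o + (C.ξ + C.η) =
    (C.M : ℤ) • C.o + ((C.M : ℤ) • C.o - (C.o - C.η - C.ξ)) by module,
    show 2 * (C.M : ℤ) - 1 - C.M - 1 = C.M - 2 by ring,
    show 2 * (C.M : ℤ) - 1 - C.M = C.M - 1 by ring, C.s_M_add, C.s_M_sub] at a4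
  rw [add_zero] at a5
  have hsp : C.s (((C.M : ℤ) - 1) • C.o + C.ξ + C.o) ^ 3 = 0 := by
    rw [C.edge_sp]
    linear_combination -C.s C.ξ * C.inf_ξ.s_sq
  have t1 : C.t (C.M - 1) l' m = (C.iS m 0 * C.iS (1 - m) (-C.ξ) *
      C.iS (C.M - 1) (C.ξ + C.η)) ^ 2 *
      C.s (((C.M : ℤ) - 1) • C.o + C.ξ + m • C.o) ^ 2 := by
    unfold t
    rw [show (C.M : ℤ) - 1 - (C.M - 1) - m = -m by ring, a1,
      show (C.M : ℤ) - 1 - l' - m = 0 by rw [hm]; ring, C.iS_zero,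
      show (C.M : ℤ) - 1 + l' - (C.M : ℤ) + 1 + m = C.M - 1 by rw [hm]; ring]
    ring
  have t3 : C.t (C.M - 1 - 1) l' m = (C.iS m 0 * C.iS (1 - m) (-C.ξ) *
      C.iS (C.M - 1) (C.ξ + C.η)) ^ 2 * C.s (C.o - C.η - C.ξ) ^ 2 := by
    unfold t
    rw [show (C.M : ℤ) - 1 - (C.M - 1 - 1) - m = 1 - m by ring,
      show (C.M : ℤ) - 1 - l' - m = 0 by rw [hm]; ring, C.iS_zero,
      show (C.M : ℤ) - 1 - 1 + l' - (C.M : ℤ) + 1 + m = C.M - 2 by rw [hm]; ring, a4]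
    ring
  have u1 : C.U (C.M - 1) l' m = (C.iS m 0 * C.iS (1 - m) (-C.ξ) *
      C.iS (C.M - 1) (C.ξ + C.η)) ^ 2 * (C.s (m • C.o) ^ 2 *
      C.Q (((C.M : ℤ) - 1) • C.o + C.ξ) ((l' : ℤ) • C.o + C.η) (m • C.o) C.o) := by
    unfold U
    rw [a5, show (C.M : ℤ) - (C.M - 1) - m = 1 - m by ring,
      show (C.M : ℤ) - 1 - l' - m = 0 by rw [hm]; ring, C.iS_zero,
      show (C.M : ℤ) - 1 + l' - (C.M : ℤ) + 1 + m = C.M - 1 by rw [hm]; ring]
    ring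
  have hB : C.s (((C.M : ℤ) - 1) • C.o + C.ξ + ((l' : ℤ) • C.o + C.η) + m • C.o + C.o) =
      -C.s (C.o - C.η - C.ξ) := by
    rw [← C.s_M_sub (C.o - C.η - C.ξ), ← C.s_M_add, hm]
    congr 1
    module
  unfold X
  rw [t1, t3, u1, hsp]
  unfold TD.Q
  rw [hB, C.edge_s, C.edge_c, C.edge_sp, C.edge_cp, C.edge_d]
  rcases (show m = 0 ∨ m = 1 ∨ 2 ≤ m by omega) with h | h | h
  · -- `m = 0`
    have hl : (l' : ℤ) = C.M - 1 := by omega
    subst h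
    rw [zero_smul, C.s_zero, add_zero, C.edge_s, hl]
    have b1 : C.s (((C.M : ℤ) - 1) • C.o + C.η) = C.s (C.o - C.η) := by
      rw [← C.s_M_sub (C.o - C.η)]
      congr 1
      module
    have b2 : C.s (((C.M : ℤ) - 1) • C.o + C.η + C.o) = -C.s C.η := by
      rw [← C.s_M_add C.η]
      congr 1
      module
    rw [b1, b2]
    have e1 := C.s_sq_sub (C.o - C.η - C.ξ) (C.o - C.ξ)
    rw [show C.o - C.η - C.ξ - (C.o - C.ξ) = -C.η by abel, C.s_neg,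
      show C.o - C.η - C.ξ + (C.o - C.ξ) = C.o - C.ξ + (C.o - C.ξ) - C.η by abel] at e1
    have e2 := C.inf_η.s_mul_s_sub (C.o - C.ξ + (C.o - C.ξ))
    have e3 := C.s_two (C.o - C.ξ)
    have e4 := C.inf_η.s_mul_s_sub C.o
    have e5 := C.s_sq_sub (C.o - C.ξ) C.ξ
    rw [show C.o - C.ξ + C.ξ = C.o by abel] at e5
    have e6 := C.inf_ξ.s_sq
    linear_combination (C.iS 0 0 * C.iS (1 - 0) (-C.ξ) * C.iS (C.M - 1) (C.ξ + C.η)) ^ 2 *
      (-2 * C.s (C.o - C.ξ) ^ 3 * e1 + 2 * C.s (C.o - C.ξ) ^ 3 * e2 +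
        2 * C.s (C.o - C.ξ) ^ 3 * C.s C.η * e3 -
        2 * C.c (C.o - C.ξ) * C.s (C.o - C.ξ - C.ξ) * C.s (C.o - C.ξ) ^ 2 * e4 +
        2 * C.s C.η * C.c (C.o - C.ξ) * C.s (C.o - C.ξ) ^ 2 * (e5 + e6))
  · -- `m = 1`
    have hl : (l' : ℤ) = C.M - 2 := by omega
    subst h
    rw [one_smul, C.edge_sp, hl]
    have b2 : C.s (((C.M : ℤ) - 2) • C.o + C.η + C.o) = C.s (C.o - C.η) := by
      rw [← C.s_M_sub (C.o - C.η)]
      congr 1
      module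
    rw [b2]
    have e1 := C.s_sq_sub (C.o - C.ξ) C.o
    rw [show C.o - C.ξ - C.o = -C.ξ by abel, C.s_neg,
      show C.o - C.ξ + C.o = C.o + C.o - C.ξ by abel] at e1
    have e2 := C.inf_ξ.s_mul_s_sub (C.o + C.o)
    have e3 := C.s_two C.o
    have e4 := C.inf_ξ.s_mul_s_sub C.o
    have e5 := C.inf_ξ.s_mul_s_sub (C.o - C.η)
    have e6 := C.inf_ξ.s_sq
    have e7 := C.inf_ξ.s_mul_c_sub C.o
    have e8 : C.s C.ξ * C.s (C.o - C.ξ) * C.s (C.o - C.η - C.ξ) ^ 2 * C.s C.o * C.c C.o =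
      C.c (C.o - C.ξ) * C.s (C.o - C.η) * C.s C.ξ * C.s (C.o - C.η - C.ξ) * C.s C.o ^ 2 := by
      linear_combination C.s (C.o - C.η - C.ξ) ^ 2 * C.s C.o * C.c C.o * e4 +
        C.s C.o ^ 2 * C.c C.o * C.s (C.o - C.η - C.ξ) * e5 -
        C.s (C.o - C.η) * C.s (C.o - C.η - C.ξ) * C.s C.o ^ 2 * e7
    linear_combination (C.iS 1 0 * C.iS (1 - 1) (-C.ξ) * C.iS (C.M - 1) (C.ξ + C.η)) ^ 2 *
      (-2 * C.s (C.o - C.ξ) * C.s (C.o - C.η - C.ξ) ^ 2 * e1 +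
        2 * C.s (C.o - C.ξ) * C.s (C.o - C.η - C.ξ) ^ 2 * e2 +
        2 * C.s (C.o - C.ξ) * C.s (C.o - C.η - C.ξ) ^ 2 * C.s C.ξ * e3 + 2 * e8 +
        (2 * C.c (C.o - C.ξ) * C.s (((C.M : ℤ) - 2) • C.o + C.η) * C.s (C.o - C.η) *
            C.s (C.o - C.ξ - C.ξ) + C.c (C.o - C.ξ) * C.s C.ξ * C.s C.o ^ 2 +
          2 * C.s (C.o - C.ξ) ^ 3) * e6)
  · -- `m ≥ 2`
    obtain ⟨r, hr⟩ := C.iS_neg_dvd (z := 1 - m) (by omega) (-C.ξ)
    have e6 := C.inf_ξ.s_sq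
    rw [hr, C.s_neg]
    have h0 : (C.iS m 0 * (-C.s C.ξ * r) * C.iS (C.M - 1) (C.ξ + C.η)) ^ 2 = 0 := by
      linear_combination (C.iS m 0 * r * C.iS (C.M - 1) (C.ξ + C.η)) ^ 2 * e6
    rw [h0]
    ring

/-- Telescoping. -/
theorem sum_X (l l' : ℤ) (n : ℕ) (h1 : 0 < l) (h2 : l + l' + n + 1 < 2 * C.M)
    (h3 : (n : ℤ) ≤ C.M) (h4 : 0 ≤ l') : ∑ m ∈ range n, C.X l l' m = C.U l l' n := by
  induction n with
  | zero => simp [C.U_zero]
  | succ n ih =>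
    push_cast at h2 h3
    rw [sum_range_succ, ih (by omega) (by omega),
      C.X_eq l l' n (by omega) (by omega) (by omega) (by omega)]
    push_cast
    ring

theorem sum_X_zero (hM : 2 ≤ C.M) (l' : ℤ) (n : ℕ) (h2 : l' + n + 2 < 2 * C.M)
    (h3 : (n : ℤ) + 1 ≤ C.M) (h4 : 0 ≤ l') (h5 : l' < C.M) :
    ∑ m ∈ range (n + 1), C.X 0 l' m = C.U 0 l' (n + 1) := by
  induction n with
  | zero =>
    rw [zero_add, range_one, sum_singleton, Nat.cast_zero, C.X_edge_zero hM l' h4 h5, zero_add]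
  | succ n ih =>
    push_cast at h2 h3
    rw [sum_range_succ, ih (by omega) (by omega),
      C.X_eq 0 l' (n + 1 : ℕ) (by push_cast; omega) (by push_cast; omega) (by push_cast; omega)
        (by push_cast; omega)]
    push_cast
    ring

/-- The recurrence for `H`. -/
theorem H_rec (hM : 2 ≤ C.M) (l : ℤ) (l' : ℕ) (h0 : 0 ≤ l) (h1 : l < C.M) (h2 : l' < C.M) :
    C.c (l • C.o + C.ξ) * C.s (l • C.o + C.ξ + C.o) ^ 3 * (C.H (l + 1) l' - C.H l l') +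
      C.c (l • C.o + C.ξ + C.o) * C.s (l • C.o + C.ξ) ^ 3 * (C.H (l - 1) l' - C.H l l') =
    C.s ((l' : ℤ) • C.o + C.η) * C.s ((l' : ℤ) • C.o + C.η + C.o) * C.c (l • C.o + C.ξ) *
      C.c (l • C.o + C.ξ + C.o) * C.s (l • C.o + C.ξ + (l • C.o + C.ξ) + C.o) * C.H l l' := by
  have hsum : ∑ m ∈ range (C.M - l'), C.X l l' m = 0 := by
    rcases h0.eq_or_lt with h | h
    · subst h
      obtain ⟨n, hn⟩ : ∃ n, C.M - l' = n + 1 := ⟨C.M - l' - 1, by omega⟩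
      rw [hn, C.sum_X_zero hM l' n (by omega) (by omega) (by omega) (by omega)]
      have := C.U_last 0 l' h2
      rw [hn] at this
      push_cast at this
      exact this
    · rcases (show l + 1 ≤ C.M by omega).lt_or_eq with h3 | h3
      · rw [C.sum_X l l' (C.M - l') h (by omega) (by omega) (by omega), C.U_last l l' h2]
      · have hl : l = C.M - 1 := by omega
        subst hl
        obtain ⟨n, hn⟩ : ∃ n, C.M - l' = n + 1 := ⟨C.M - l' - 1, by omega⟩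
        rw [hn, sum_range_succ, C.sum_X _ l' n h (by omega) (by omega) (by omega)]
        have := C.edge_last hM l' h2 n (by omega)
        linear_combination this
  unfold X at hsum
  rw [sum_sub_distrib, sum_add_distrib, ← mul_sum, ← mul_sum, ← mul_sum, sum_sub_distrib,
    sum_sub_distrib] at hsum
  unfold H
  linear_combination hsum

end Cyc

end Pool.Agent.H25.RK
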