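import Mathlib

/-!
# The Gudermannian lines in the upper half plane
-/

set_option autoImplicit false

open Filter Topology Complex MeasureTheory Set

namespace Pool.Agent.H25.RK

/-- The exponential `e^(πi v)` as a function of `e^u`. -/
noncomputable def gw (E : ℂ) : ℂ := (1 + I * E) / (E + I)

/-- The function `v` with `tan (π v) = sinh u`. -/
noncomputable def gdv (u : ℂ) : ℂ := -(I / Real.pi) * log (gw (exp u))

theorem gw_ne {E : ℂ} (hE : 0 < E.re) : E + I ≠ 0 ∧ 1 + I * E ≠ 0 := by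
  constructor
  · intro h
    have := congrArg Complex.re h
    simp at this
    linarith
  · intro h
    have := congrArg Complex.im h
    simp at this
    linarith

theorem gw_re {E : ℂ} (hE : 0 < E.re) : 0 < (gw E).re := by
  have h := (gw_ne hE).1
  have hn : 0 < normSq (E + I) := normSq_pos.mpr h
  have e : (gw E).re = 2 * E.re / normSq (E + I) := by
    unfold gw
    rw [div_re]
    simp only [add_re, one_re, mul_re, I_re, zero_mul, I_im, one_mul, zero_sub, add_im, one_im,
      mul_im, zero_add, add_zero]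
    ring
  rw [e]
  positivity

theorem gw_norm {E : ℂ} (hE : 0 < E.re) (hi : 0 < E.im) : ‖gw E‖ < 1 := by
  have h := (gw_ne hE).1
  unfold gw
  rw [norm_div, div_lt_one (norm_pos_iff.mpr h), ← sq_lt_sq₀ (norm_nonneg _) (norm_nonneg _),
    ← normSq_eq_norm_sq, ← normSq_eq_norm_sq, normSq_apply, normSq_apply]
  simp only [add_re, one_re, mul_re, I_re, zero_mul, I_im, one_mul, zero_sub, add_im, one_im,
      mul_im, zero_add, add_zero]
  nlinarith

theorem exp_re_pos {u : ℂ} (h : |u.im| < Real.pi / 2) : 0 < (exp u).re := by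
  rw [exp_re]
  exact mul_pos (Real.exp_pos _) (Real.cos_pos_of_mem_Ioo (abs_lt.mp h))

theorem exp_im_pos {u : ℂ} (h0 : 0 < u.im) (h : u.im < Real.pi / 2) : 0 < (exp u).im := by
  rw [exp_im]
  exact mul_pos (Real.exp_pos _) (Real.sin_pos_of_pos_of_lt_pi h0 (by linarith [Real.pi_pos]))

theorem abs_im_lt {u : ℂ} (h0 : 0 < u.im) (h : u.im < Real.pi / 2) : |u.im| < Real.pi / 2 :=
  abs_lt.mpr ⟨by linarith [Real.pi_pos], h⟩

theorem cosh_ne {u : ℂ} (h : |u.im| < Real.pi / 2) : cosh u ≠ 0 := by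
  intro h0
  have e := congrArg Complex.re h0
  have e2 : (cosh u).re = Real.cosh u.re * Real.cos u.im := by
    conv_lhs => rw [← re_add_im u]
    rw [cosh_add, cosh_mul_I, sinh_mul_I, ← ofReal_cosh, ← ofReal_cos, ← ofReal_sinh,
      ← ofReal_sin]
    simp only [add_re, mul_re, ofReal_re, ofReal_im, mul_zero, sub_zero, mul_im, I_re, I_im,
      zero_mul, add_zero, mul_one]
  rw [e2, zero_re] at e
  have h1 := Real.cosh_pos u.re
  have h2 := Real.cos_pos_of_mem_Ioo (abs_lt.mp h)
  have := mul_pos h1 h2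
  linarith

theorem exp_gdv {u : ℂ} (h : |u.im| < Real.pi / 2) : exp (Real.pi * I * gdv u) = gw (exp u) := by
  have hw : gw (exp u) ≠ 0 := by
    intro h0
    have := gw_re (exp_re_pos h)
    rw [h0, zero_re] at this
    exact lt_irrefl _ this
  have hpi : (Real.pi : ℂ) ≠ 0 := by exact_mod_cast Real.pi_ne_zero
  have e : Real.pi * I * gdv u = log (gw (exp u)) := by
    unfold gdv
    field_simp
    ring_nf
    rw [I_sq]
    ring
  rw [e, exp_log hw]

theorem gdv_re (u : ℂ) : (gdv u).re = arg (gw (exp u)) / Real.pi := by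
  unfold gdv
  have : -(I / (Real.pi : ℂ)) * log (gw (exp u)) =
      ((1 / Real.pi : ℝ) : ℂ) * (-(I * log (gw (exp u)))) := by
    push_cast
    ring
  rw [this, re_ofReal_mul, neg_re, mul_re, I_re, I_im, log_im]
  ring

theorem gdv_im (u : ℂ) : (gdv u).im = -Real.log ‖gw (exp u)‖ / Real.pi := by
  unfold gdv
  have : -(I / (Real.pi : ℂ)) * log (gw (exp u)) =
      ((1 / Real.pi : ℝ) : ℂ) * (-(I * log (gw (exp u)))) := by
    push_cast
    ring
  rw [this, im_ofReal_mul, neg_im, mul_im, I_re, I_im, log_re]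
  ring

theorem gdv_im_pos {u : ℂ} (h0 : 0 < u.im) (h : u.im < Real.pi / 2) : 0 < (gdv u).im := by
  rw [gdv_im]
  have h1 := exp_re_pos (abs_im_lt h0 h)
  have h2 := gw_norm h1 (exp_im_pos h0 h)
  have h3 : 0 < ‖gw (exp u)‖ := by
    rw [norm_pos_iff]
    intro h4
    have := gw_re h1
    rw [h4, zero_re] at this
    exact lt_irrefl _ this
  have h4 := Real.log_neg h3 h2
  exact div_pos (by linarith) Real.pi_pos

theorem gdv_re_lt {u : ℂ} (h : |u.im| < Real.pi / 2) : |(gdv u).re| < 1 / 2 := by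
  rw [gdv_re, abs_div, abs_of_pos Real.pi_pos, div_lt_iff₀ Real.pi_pos]
  have := abs_arg_lt_pi_div_two_iff.mpr (Or.inl (gw_re (exp_re_pos h)))
  linarith

theorem cos_gdv {u : ℂ} (h : |u.im| < Real.pi / 2) : cos (Real.pi * gdv u) = 1 / cosh u := by
  have hE := exp_re_pos h
  obtain ⟨h1, h2⟩ := gw_ne hE
  have hc := cosh_ne h
  have e1 := exp_gdv h
  have hx : exp u ≠ 0 := exp_ne_zero u
  have e2 : exp (-(Real.pi * I * gdv u)) = (gw (exp u))⁻¹ := by rw [exp_neg, e1]
  rw [cos, show Real.pi * gdv u * I = Real.pi * I * gdv u by ring,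
    show -(Real.pi * gdv u) * I = -(Real.pi * I * gdv u) by ring, e1, e2, eq_div_iff hc, cosh,
    exp_neg]
  unfold gw
  field_simp
  ring_nf
  rw [I_sq]
  ring

theorem sin_gdv {u : ℂ} (h : |u.im| < Real.pi / 2) :
    sin (Real.pi * gdv u) = sinh u / cosh u := by
  have hE := exp_re_pos h
  obtain ⟨h1, h2⟩ := gw_ne hE
  have hc := cosh_ne h
  have e1 := exp_gdv h
  have hx : exp u ≠ 0 := exp_ne_zero u
  have e2 : exp (-(Real.pi * I * gdv u)) = (gw (exp u))⁻¹ := by rw [exp_neg, e1]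
  rw [sin, show Real.pi * gdv u * I = Real.pi * I * gdv u by ring,
    show -(Real.pi * gdv u) * I = -(Real.pi * I * gdv u) by ring, e1, e2, eq_div_iff hc, cosh,
    sinh, exp_neg]
  unfold gw
  field_simp
  ring_nf
  rw [show I ^ 3 = -I by rw [pow_succ, I_sq]; ring, I_sq]
  ring

theorem gdv_hasDerivAt {u : ℂ} (h : |u.im| < Real.pi / 2) :
    HasDerivAt gdv (1 / (Real.pi * cosh u)) u := by
  have hE := exp_re_pos h
  obtain ⟨h1, h2⟩ := gw_ne hE
  have hc := cosh_ne h
  have hx : exp u ≠ 0 := exp_ne_zero u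
  have hpi : (Real.pi : ℂ) ≠ 0 := by exact_mod_cast Real.pi_ne_zero
  have d0 := Complex.hasDerivAt_exp u
  have d1 := (d0.const_mul I).const_add 1
  have d2 := d0.add_const I
  have d3 := d1.div d2 h1
  have hs : (1 + I * exp u) / (exp u + I) ∈ slitPlane := Or.inl (gw_re hE)
  have d4 := (d3.clog hs).const_mul (-(I / (Real.pi : ℂ)))
  have hc' : exp u ^ 2 + 1 ≠ 0 := by
    intro h3
    apply hc
    rw [cosh, exp_neg]
    have h4 : (exp u + (exp u)⁻¹) / 2 = (exp u ^ 2 + 1) / (2 * exp u) := by field_simp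
    rw [h4, h3, zero_div]
  refine d4.congr_deriv ?_
  have h3 : (1 + I * exp u) * (exp u + I) = I * (exp u ^ 2 + 1) := by
    linear_combination exp u * I_sq
  have h4 : ((fun x => 1 + I * exp x) / fun x => exp x + I) u = (1 + I * exp u) / (exp u + I) := rfl
  rw [h4]
  have h5 : cosh u = (exp u ^ 2 + 1) / (2 * exp u) := by
    rw [cosh, exp_neg]
    field_simp
  rw [h5]
  have h6 : I * exp u * (exp u + I) - (1 + I * exp u) * exp u = -2 * exp u := by
    linear_combination exp u * I_sq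
  rw [h6]
  have h7 : -2 * exp u / (exp u + I) ^ 2 / ((1 + I * exp u) / (exp u + I)) =
      -2 * exp u / (I * (exp u ^ 2 + 1)) := by
    rw [← h3]
    field_simp
  rw [h7]
  have hI := I_ne_zero
  field_simp

theorem one_div_cosh_le (x : ℝ) : 1 / Real.cosh x ≤ 4 * (1 + x ^ 2)⁻¹ := by
  have h : 1 + x ^ 2 / 4 ≤ Real.cosh x := by
    rw [← Real.cosh_abs, Real.cosh_eq, ← sq_abs]
    have h1 := Real.quadratic_le_exp_of_nonneg (abs_nonneg x)
    have h2 := Real.add_one_le_exp (-|x|)
    linarith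
  have h1 : (1 + x ^ 2) / 4 ≤ Real.cosh x := by nlinarith [sq_nonneg x]
  rw [div_le_iff₀ (Real.cosh_pos x), ← div_eq_mul_inv, div_mul_eq_mul_div, le_div_iff₀ (by positivity)]
  linarith

/-- The line at height `θ`. -/
noncomputable def ul (θ x : ℝ) : ℂ := x + θ * I

theorem ul_im (θ x : ℝ) : (ul θ x).im = θ := by simp [ul]

theorem ul_re (θ x : ℝ) : (ul θ x).re = x := by simp [ul]

theorem norm_cosh_ge {θ : ℝ} (h : |θ| < Real.pi / 2) (x : ℝ) :
    Real.cos θ * Real.cosh x ≤ ‖cosh (ul θ x)‖ := by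
  have hc := Real.cos_pos_of_mem_Ioo (abs_lt.mp h)
  have e2 : (cosh (ul θ x)).re = Real.cosh x * Real.cos θ := by
    unfold ul
    rw [cosh_add, cosh_mul_I, sinh_mul_I, ← ofReal_cosh, ← ofReal_cos, ← ofReal_sinh,
      ← ofReal_sin]
    simp only [add_re, mul_re, ofReal_re, ofReal_im, mul_zero, sub_zero, mul_im, I_re, I_im,
      zero_mul, add_zero, mul_one]
  calc Real.cos θ * Real.cosh x = (cosh (ul θ x)).re := by rw [e2]; ring
    _ ≤ |(cosh (ul θ x)).re| := le_abs_self _
    _ ≤ _ := abs_re_le_norm _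

theorem ul_continuous (θ : ℝ) : Continuous (ul θ) := by
  unfold ul
  fun_prop

theorem integrable_gdv' {θ : ℝ} (h : |θ| < Real.pi / 2) :
    Integrable fun x : ℝ => 1 / (Real.pi * cosh (ul θ x)) := by
  have hc := Real.cos_pos_of_mem_Ioo (abs_lt.mp h)
  have hm : Continuous fun x : ℝ => 1 / (Real.pi * cosh (ul θ x)) := by
    refine Continuous.div continuous_const ?_ fun x => ?_
    · exact continuous_const.mul (Complex.continuous_cosh.comp (ul_continuous θ))
    · refine mul_ne_zero (by exact_mod_cast Real.pi_ne_zero) (cosh_ne ?_)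
      rwa [ul_im]
  refine ((integrable_inv_one_add_sq.const_mul (4 / (Real.pi * Real.cos θ)))).mono'
    hm.aestronglyMeasurable (Eventually.of_forall fun x => ?_)
  have h1 := norm_cosh_ge h x
  have h2 := one_div_cosh_le x
  have h3 := Real.cosh_pos x
  have hpi := Real.pi_pos
  rw [norm_div, norm_one, norm_mul, norm_real, Real.norm_eq_abs, abs_of_pos hpi]
  calc 1 / (Real.pi * ‖cosh (ul θ x)‖) ≤ 1 / (Real.pi * (Real.cos θ * Real.cosh x)) := by
        apply one_div_le_one_div_of_le (by positivity)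
        gcongr
    _ = (1 / (Real.pi * Real.cos θ)) * (1 / Real.cosh x) := by
        field_simp
    _ ≤ (1 / (Real.pi * Real.cos θ)) * (4 * (1 + x ^ 2)⁻¹) := by gcongr
    _ = 4 / (Real.pi * Real.cos θ) * (1 + x ^ 2)⁻¹ := by ring

theorem gdv_ul_hasDerivAt {θ : ℝ} (h : |θ| < Real.pi / 2) (x : ℝ) :
    HasDerivAt (fun x => gdv (ul θ x)) (1 / (Real.pi * cosh (ul θ x))) x := by
  have h1 : HasDerivAt (ul θ) 1 x := by
    unfold ul
    have := (Complex.ofRealCLM.hasDerivAt (x := x)).add_const (θ * I : ℂ)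
    simpa using this
  exact (HasDerivAt.comp x (gdv_hasDerivAt (by rwa [ul_im])) h1).congr_deriv (mul_one _)

theorem tendsto_exp_ul_bot (θ : ℝ) : Tendsto (fun x => exp (ul θ x)) atBot (𝓝 0) := by
  rw [tendsto_zero_iff_norm_tendsto_zero]
  refine Real.tendsto_exp_atBot.congr fun x => ?_
  rw [norm_exp, ul_re]

theorem tendsto_exp_neg_ul_top (θ : ℝ) : Tendsto (fun x => exp (-ul θ x)) atTop (𝓝 0) := by
  rw [tendsto_zero_iff_norm_tendsto_zero]
  refine (Real.tendsto_exp_neg_atTop_nhds_zero).congr fun x => ?_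
  rw [norm_exp, neg_re, ul_re]

theorem gdv_tendsto_bot (θ : ℝ) : Tendsto (fun x => gdv (ul θ x)) atBot (𝓝 (-1 / 2)) := by
  have hI : (0 : ℂ) + I ≠ 0 := by simp
  have h1 : ContinuousAt gw 0 := by
    unfold gw
    exact ContinuousAt.div (by fun_prop) (by fun_prop) hI
  have e : gw 0 = -I := by
    unfold gw
    simp
  have h2 : ContinuousAt log (gw 0) := by
    refine continuousAt_clog ?_
    rw [e]
    right
    simp
  have h3 : Tendsto (fun x => gw (exp (ul θ x))) atBot (𝓝 (gw 0)) :=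
    h1.tendsto.comp (tendsto_exp_ul_bot θ)
  have h4 := (h2.tendsto.comp h3).const_mul (-(I / (Real.pi : ℂ)))
  have hpi : (Real.pi : ℂ) ≠ 0 := by exact_mod_cast Real.pi_ne_zero
  have e2 : -(I / (Real.pi : ℂ)) * log (gw 0) = -1 / 2 := by
    rw [e, log_neg_I]
    field_simp
    rw [I_sq]
  rw [← e2]
  exact h4

theorem gdv_tendsto_top (θ : ℝ) : Tendsto (fun x => gdv (ul θ x)) atTop (𝓝 (1 / 2)) := by
  have h1 : ContinuousAt (fun e : ℂ => (e + I) / (1 + I * e)) 0 := by
    exact ContinuousAt.div (by fun_prop) (by fun_prop) (by simp)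
  have e : (((0 : ℂ) + I) / (1 + I * 0)) = I := by simp
  have h2 : ContinuousAt log I := by
    refine continuousAt_clog ?_
    right
    simp
  have h3 : Tendsto (fun x => gw (exp (ul θ x))) atTop (𝓝 I) := by
    have := h1.tendsto.comp (tendsto_exp_neg_ul_top θ)
    rw [e] at this
    refine this.congr fun x => ?_
    unfold gw
    simp only [Function.comp]
    rw [exp_neg]
    have hx : exp (ul θ x) ≠ 0 := exp_ne_zero _
    field_simp
  have h4 := (h2.tendsto.comp h3).const_mul (-(I / (Real.pi : ℂ)))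
  have hpi : (Real.pi : ℂ) ≠ 0 := by exact_mod_cast Real.pi_ne_zero
  have e2 : -(I / (Real.pi : ℂ)) * log I = 1 / 2 := by
    rw [log_I]
    field_simp
    rw [I_sq]
    ring
  rw [← e2]
  exact h4

end Pool.Agent.H25.RK
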