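import Pool.Agent.H25.RK.Jet

/-!
# The jets of the trigonometric functions
-/

set_option autoImplicit false

open Finset Filter Topology Complex

namespace Pool.Agent.H25.RK

/-- `2 sin (π x / M)` -/
noncomputable def sn (M : ℕ) (x : ℂ) : ℂ := 2 * sin (Real.pi * x / M)

/-- The linear form `k + p x + q y` -/
noncomputable def lin (a : ℤ × ℤ × ℤ) (p : ℂ × ℂ) : ℂ := a.1 + a.2.1 * p.1 + a.2.2 * p.2

theorem lin_zero (p : ℂ × ℂ) : lin 0 p = 0 := by simp [lin]

theorem lin_add (a b : ℤ × ℤ × ℤ) (p : ℂ × ℂ) : lin (a + b) p = lin a p + lin b p := by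
  unfold lin
  simp only [Prod.fst_add, Prod.snd_add, Int.cast_add]
  ring

theorem lin_neg (a : ℤ × ℤ × ℤ) (p : ℂ × ℂ) : lin (-a) p = -lin a p := by
  unfold lin
  simp only [Prod.fst_neg, Prod.snd_neg, Int.cast_neg]
  ring

theorem lin_sub (a b : ℤ × ℤ × ℤ) (p : ℂ × ℂ) : lin (a - b) p = lin a p - lin b p := by
  rw [sub_eq_add_neg, lin_add, lin_neg, sub_eq_add_neg]

theorem lin_an (a : ℤ × ℤ × ℤ) : AnalyticAt ℂ (lin a) 0 :=
  (analyticAt_const.add (analyticAt_const.mul an_fst)).add (analyticAt_const.mul an_snd)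

/-- The exponential of a linear form. -/
noncomputable def efn (M : ℕ) (a : ℤ × ℤ × ℤ) (p : ℂ × ℂ) : ℂ := exp (Real.pi * I / M * lin a p)

theorem efn_an (M : ℕ) (a : ℤ × ℤ × ℤ) : AnalyticAt ℂ (efn M a) 0 :=
  (analyticAt_const.mul (lin_an a)).cexp

/-- A function of one variable which is analytic at `0` is `f 0 + z g z`. -/
theorem exists_slope {f : ℂ → ℂ} (hf : AnalyticAt ℂ f 0) :
    ∃ g : ℂ → ℂ, AnalyticAt ℂ g 0 ∧ ∀ z, f z = f 0 + z * g z := by
  obtain ⟨p, hp⟩ := hf
  refine ⟨dslope f 0, hp.has_fpower_series_dslope_fslope.analyticAt, fun z => ?_⟩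
  have := sub_smul_dslope f 0 z
  rw [smul_eq_mul, sub_zero] at this
  rw [this]
  ring

/-- the difference `exp (c z) + exp (- c z) - 2` is `z ^ 2` times an analytic function -/
theorem exists_cosh (c : ℂ) : ∃ g : ℂ → ℂ, AnalyticAt ℂ g 0 ∧
    ∀ z, exp (c * z) + exp (-(c * z)) - 2 = z ^ 2 * g z := by
  obtain ⟨g, hg, h⟩ := exists_slope (f := fun z => exp (c * z)) (by fun_prop)
  have he : AnalyticAt ℂ (fun z : ℂ => exp (-(c * z))) 0 := by fun_prop
  refine ⟨fun z => g z ^ 2 * exp (-(c * z)), (hg.pow 2).mul he, fun z => ?_⟩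
  have h1 := h z
  simp only [mul_zero, exp_zero] at h1
  have h2 : exp (c * z) * exp (-(c * z)) = 1 := by rw [← exp_add, add_neg_cancel, exp_zero]
  linear_combination (exp (c * z) - 1 + z * g z) * exp (-(c * z)) * h1 -
    (exp (c * z) - 2) * h2

theorem lin_o (k : ℤ) (a : ℤ × ℤ × ℤ) (p : ℂ × ℂ) :
    lin (k • ((1, 0, 0) : ℤ × ℤ × ℤ) + a) p = k + lin a p := by
  rw [lin_add]
  congr 1
  simp [lin]

theorem efn_add (M : ℕ) (a b : ℤ × ℤ × ℤ) :
    efn M (a + b) = fun p => efn M a p * efn M b p := by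
  funext p
  unfold efn
  rw [lin_add, ← exp_add]
  congr 1
  ring

/-- The class of the exponential. -/
noncomputable def cE (M : ℕ) (a : ℤ × ℤ × ℤ) : JR :=
  Ideal.Quotient.mk Jd ⟨efn M a, efn_an M a⟩

theorem rep_E (M : ℕ) (a : ℤ × ℤ × ℤ) : Rep (efn M a) (cE M a) := ⟨efn_an M a, rfl⟩

/-- The exponentials. -/
noncomputable def TJ (M : ℕ) : TD (ℤ × ℤ × ℤ) JR where
  E := cE M
  κ := cC (-I)
  E_zero := by
    refine (rep_E M 0).eq (rep_one.congr (Eventually.of_forall fun p => ?_))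
    simp [efn, lin_zero]
  E_add a b := by
    refine (rep_E M (a + b)).eq ?_
    rw [efn_add]
    exact (rep_E M a).mul (rep_E M b)
  κ_sq := by
    rw [← cC_mul, show (-I) * (-I) = -1 by rw [neg_mul_neg, I_mul_I], cC_neg, cC_one]

theorem sn_eq (M : ℕ) (x : ℂ) :
    sn M x = -I * (exp (Real.pi * I / M * x) - exp (-(Real.pi * I / M * x))) := by
  unfold sn
  rw [Complex.sin, show (Real.pi : ℂ) * x / M * I = Real.pi * I / M * x by ring,
    show -((Real.pi : ℂ) * x / M) * I = -(Real.pi * I / M * x) by ring]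
  ring

theorem rep_s (M : ℕ) (a : ℤ × ℤ × ℤ) : Rep (fun p => sn M (lin a p)) ((TJ M).s a) := by
  have h := (rep_C (-I)).mul ((rep_E M a).sub (rep_E M (-a)))
  refine Rep.congr h (Eventually.of_forall fun p => ?_)
  rw [sn_eq]
  unfold efn
  rw [lin_neg]
  ring_nf

theorem sn_natCast_ne {M k : ℕ} (h0 : 0 < k) (hk : k < M) : sn M k ≠ 0 := by
  have hM : (0 : ℝ) < M := by exact_mod_cast (by omega : 0 < M)
  have hk0 : (0 : ℝ) < k := by exact_mod_cast h0
  have hk1 : (k : ℝ) < M := by exact_mod_cast hk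
  have hp : 0 < Real.sin (Real.pi * k / M) := by
    apply Real.sin_pos_of_pos_of_lt_pi
    · have := Real.pi_pos
      positivity
    · rw [div_lt_iff₀ hM]
      exact mul_lt_mul_of_pos_left hk1 Real.pi_pos
  have e : sn M k = ((2 * Real.sin (Real.pi * k / M) : ℝ) : ℂ) := by
    unfold sn
    push_cast
    rfl
  rw [e]
  exact_mod_cast (by positivity : (2 * Real.sin (Real.pi * k / M)) ≠ 0)

theorem rep_two : Rep (fun _ => 2) (2 : JR) := by
  have e : (2 : JR) = 1 + 1 := by norm_num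
  rw [e]
  refine (rep_one.add rep_one).congr (Eventually.of_forall fun p => ?_)
  norm_num

/-- The context. -/
noncomputable def CJ (M : ℕ) (hM : 0 < M) : Cyc (ℤ × ℤ × ℤ) JR where
  toTD := TJ M
  M := M
  o := (1, 0, 0)
  ξ := (0, 1, 0)
  η := (0, 0, 1)
  M_pos := hM
  E_half := by
    have hMc : (M : ℂ) ≠ 0 := by exact_mod_cast hM.ne'
    refine (rep_E M _).eq (rep_one.neg.congr (Eventually.of_forall fun p => ?_))
    unfold efn
    have := lin_o M 0 p
    rw [add_zero, lin_zero, add_zero] at this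
    rw [this]
    rw [show (Real.pi : ℂ) * I / M * ((M : ℤ) : ℂ) = Real.pi * I by
      push_cast; field_simp, exp_pi_mul_I]
  E_ξ := by
    obtain ⟨g, hg, h⟩ := exists_cosh (Real.pi * I / M)
    have h1 := (rep_E M (0, 1, 0)).add (rep_E M (-(0, 1, 0)))
    refine h1.eq ((rep_two.iff h1.an).mpr ⟨fun p => g p.1, fun _ => 0, ?_, analyticAt_const,
      Eventually.of_forall fun p => ?_⟩)
    · exact AnalyticAt.fun_comp (f := fun p : ℂ × ℂ => p.1) hg an_fst
    · have := h p.1
      simp only [efn, lin_neg]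
      rw [show lin (0, 1, 0) p = p.1 by simp [lin], mul_neg, this]
      ring
  E_η := by
    obtain ⟨g, hg, h⟩ := exists_cosh (Real.pi * I / M)
    have h1 := (rep_E M (0, 0, 1)).add (rep_E M (-(0, 0, 1)))
    refine h1.eq ((rep_two.iff h1.an).mpr ⟨fun _ => 0, fun p => g p.2, analyticAt_const, ?_,
      Eventually.of_forall fun p => ?_⟩)
    · exact AnalyticAt.fun_comp (f := fun p : ℂ × ℂ => p.2) hg an_snd
    · have := h p.2
      simp only [efn, lin_neg]
      rw [show lin (0, 0, 1) p = p.2 by simp [lin], mul_neg, this]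
      ring
  isUnit_s k h0 hk := by
    refine (rep_s M _).isUnit ?_
    have := lin_o k 0 0
    rw [add_zero, lin_zero, add_zero] at this
    rw [this]
    exact_mod_cast sn_natCast_ne h0 hk
  isUnit_two := by
    exact rep_two.isUnit two_ne_zero

end Pool.Agent.H25.RK
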