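import Pool.Agent.H25.RK.Main

/-!
# Germs of analytic functions of two variables modulo `(x ^ 2, y ^ 2)`
-/

set_option autoImplicit false

open Finset Filter Topology

namespace Pool.Agent.H25.RK

/-- Functions of two variables analytic at `0`. -/
def An : Subring (ℂ × ℂ → ℂ) where
  carrier := {f | AnalyticAt ℂ f 0}
  mul_mem' := fun ha hb => ha.mul hb
  one_mem' := analyticAt_const
  add_mem' := fun ha hb => ha.add hb
  zero_mem' := analyticAt_const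
  neg_mem' := fun ha => ha.neg

/-- The germ of `f` is in the ideal generated by `x ^ 2` and `y ^ 2`. -/
def Sq (f : ℂ × ℂ → ℂ) : Prop :=
  ∃ g h : ℂ × ℂ → ℂ, AnalyticAt ℂ g 0 ∧ AnalyticAt ℂ h 0 ∧
    ∀ᶠ p in 𝓝 (0 : ℂ × ℂ), f p = p.1 ^ 2 * g p + p.2 ^ 2 * h p

/-- The ideal generated by `x ^ 2` and `y ^ 2`. -/
def Jd : Ideal An where
  carrier := {f | Sq f.1}
  add_mem' := by
    rintro a b ⟨g, h, hg, hh, he⟩ ⟨g', h', hg', hh', he'⟩
    refine ⟨g + g', h + h', hg.add hg', hh.add hh', ?_⟩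
    filter_upwards [he, he'] with p h1 h2
    change a.1 p + b.1 p = _
    rw [h1, h2]
    simp only [Pi.add_apply]
    ring
  zero_mem' := ⟨0, 0, analyticAt_const, analyticAt_const, Eventually.of_forall fun p => by simp⟩
  smul_mem' := by
    rintro c a ⟨g, h, hg, hh, he⟩
    refine ⟨c.1 * g, c.1 * h, c.2.mul hg, c.2.mul hh, ?_⟩
    filter_upwards [he] with p h1
    change c.1 p * a.1 p = _
    rw [h1]
    simp only [Pi.mul_apply]
    ring

/-- The ring of jets. -/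
abbrev JR : Type := An ⧸ Jd

/-- The function `f` is analytic at `0` and its class is `r`. -/
def Rep (f : ℂ × ℂ → ℂ) (r : JR) : Prop :=
  ∃ h : AnalyticAt ℂ f 0, Ideal.Quotient.mk Jd ⟨f, h⟩ = r

theorem Rep.an {f : ℂ × ℂ → ℂ} {r : JR} (h : Rep f r) : AnalyticAt ℂ f 0 := h.1

theorem exists_rep {f : ℂ × ℂ → ℂ} (h : AnalyticAt ℂ f 0) : ∃ r, Rep f r := ⟨_, h, rfl⟩

theorem Rep.add {f g : ℂ × ℂ → ℂ} {r s : JR} (hf : Rep f r) (hg : Rep g s) :
    Rep (fun p => f p + g p) (r + s) := by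
  obtain ⟨h1, rfl⟩ := hf
  obtain ⟨h2, rfl⟩ := hg
  exact ⟨h1.add h2, (map_add (Ideal.Quotient.mk Jd) (⟨f, h1⟩ : An) ⟨g, h2⟩).symm ▸ rfl⟩

theorem Rep.mul {f g : ℂ × ℂ → ℂ} {r s : JR} (hf : Rep f r) (hg : Rep g s) :
    Rep (fun p => f p * g p) (r * s) := by
  obtain ⟨h1, rfl⟩ := hf
  obtain ⟨h2, rfl⟩ := hg
  exact ⟨h1.mul h2, (map_mul (Ideal.Quotient.mk Jd) (⟨f, h1⟩ : An) ⟨g, h2⟩).symm ▸ rfl⟩

theorem Rep.neg {f : ℂ × ℂ → ℂ} {r : JR} (hf : Rep f r) : Rep (fun p => -f p) (-r) := by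
  obtain ⟨h1, rfl⟩ := hf
  exact ⟨h1.neg, (map_neg (Ideal.Quotient.mk Jd) (⟨f, h1⟩ : An)).symm ▸ rfl⟩

theorem Rep.sub {f g : ℂ × ℂ → ℂ} {r s : JR} (hf : Rep f r) (hg : Rep g s) :
    Rep (fun p => f p - g p) (r - s) := by
  obtain ⟨h1, rfl⟩ := hf
  obtain ⟨h2, rfl⟩ := hg
  exact ⟨h1.sub h2, (map_sub (Ideal.Quotient.mk Jd) (⟨f, h1⟩ : An) ⟨g, h2⟩).symm ▸ rfl⟩

theorem Rep.pow {f : ℂ × ℂ → ℂ} {r : JR} (hf : Rep f r) (n : ℕ) :
    Rep (fun p => f p ^ n) (r ^ n) := by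
  obtain ⟨h1, rfl⟩ := hf
  exact ⟨h1.pow n, (map_pow (Ideal.Quotient.mk Jd) (⟨f, h1⟩ : An) n).symm ▸ rfl⟩

theorem rep_zero : Rep (fun _ => 0) 0 := ⟨analyticAt_const, map_zero (Ideal.Quotient.mk Jd)⟩

theorem rep_one : Rep (fun _ => 1) 1 := ⟨analyticAt_const, map_one (Ideal.Quotient.mk Jd)⟩

theorem Rep.prod {ι : Type*} {s : Finset ι} {f : ι → ℂ × ℂ → ℂ} {r : ι → JR}
    (h : ∀ i ∈ s, Rep (f i) (r i)) : Rep (fun p => ∏ i ∈ s, f i p) (∏ i ∈ s, r i) := by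
  classical
  induction s using Finset.induction_on with
  | empty => simpa using rep_one
  | insert a s ha ih =>
    have h1 := (h a (mem_insert_self _ _)).mul (ih fun i hi => h i (mem_insert_of_mem hi))
    rw [prod_insert ha]
    convert h1 using 2 with p
    rw [prod_insert ha]

theorem Rep.sum {ι : Type*} {s : Finset ι} {f : ι → ℂ × ℂ → ℂ} {r : ι → JR}
    (h : ∀ i ∈ s, Rep (f i) (r i)) : Rep (fun p => ∑ i ∈ s, f i p) (∑ i ∈ s, r i) := by
  classical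
  induction s using Finset.induction_on with
  | empty => simpa using rep_zero
  | insert a s ha ih =>
    have h1 := (h a (mem_insert_self _ _)).add (ih fun i hi => h i (mem_insert_of_mem hi))
    rw [sum_insert ha]
    convert h1 using 2 with p
    rw [sum_insert ha]

/-- Equality of classes. -/
theorem Rep.iff {f g : ℂ × ℂ → ℂ} {r : JR} (hf : Rep f r) (hg : AnalyticAt ℂ g 0) :
    Rep g r ↔ Sq (fun p => g p - f p) := by
  obtain ⟨h1, rfl⟩ := hf
  constructor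
  · rintro ⟨h2, h3⟩
    have := Ideal.Quotient.eq.mp h3
    exact this
  · intro h
    exact ⟨hg, Ideal.Quotient.eq.mpr h⟩

theorem Rep.sq {f g : ℂ × ℂ → ℂ} {r : JR} (hf : Rep f r) (hg : Rep g r) :
    Sq (fun p => g p - f p) := (hf.iff hg.an).mp hg

theorem Rep.congr {f g : ℂ × ℂ → ℂ} {r : JR} (hf : Rep f r)
    (h : ∀ᶠ p in 𝓝 (0 : ℂ × ℂ), g p = f p) : Rep g r := by
  refine (hf.iff (hf.an.congr ?_)).mpr ⟨0, 0, analyticAt_const, analyticAt_const, ?_⟩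
  · filter_upwards [h] with p hp
    exact hp.symm
  · filter_upwards [h] with p hp
    rw [hp]
    simp

theorem Rep.eq {f : ℂ × ℂ → ℂ} {r s : JR} (hf : Rep f r) (hg : Rep f s) : r = s := by
  obtain ⟨h1, rfl⟩ := hf
  obtain ⟨h2, rfl⟩ := hg
  rfl

theorem Rep.isUnit {f : ℂ × ℂ → ℂ} {r : JR} (hf : Rep f r) (h0 : f 0 ≠ 0) : IsUnit r := by
  obtain ⟨s, hs⟩ := exists_rep (hf.an.inv h0)
  have h1 := hf.mul hs
  have h2 : Rep (fun p => f p * f⁻¹ p) 1 := by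
    refine rep_one.congr ?_
    filter_upwards [hf.an.continuousAt.eventually_ne h0] with p hp
    exact mul_inv_cancel₀ hp
  exact IsUnit.of_mul_eq_one s (h1.eq h2)

theorem Rep.inv {f : ℂ × ℂ → ℂ} {r : JR} (hf : Rep f r) (h0 : f 0 ≠ 0) :
    Rep (fun p => (f p)⁻¹) (Ring.inverse r) := by
  obtain ⟨s, hs⟩ := exists_rep (hf.an.inv h0)
  have h1 := hf.mul hs
  have h2 : Rep (fun p => f p * f⁻¹ p) 1 := by
    refine rep_one.congr ?_
    filter_upwards [hf.an.continuousAt.eventually_ne h0] with p hp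
    exact mul_inv_cancel₀ hp
  have h3 := h1.eq h2
  have h4 := Ring.inverse_mul_cancel r (hf.isUnit h0)
  have h5 : Ring.inverse r = s := by linear_combination s * h4 - Ring.inverse r * h3
  rw [h5]
  exact hs

/-- The coordinates. -/
theorem an_fst : AnalyticAt ℂ (fun p : ℂ × ℂ => p.1) 0 := analyticAt_fst

theorem an_snd : AnalyticAt ℂ (fun p : ℂ × ℂ => p.2) 0 := analyticAt_snd

/-- The class of `x`. -/
noncomputable def cX : JR := Ideal.Quotient.mk Jd ⟨fun p => p.1, an_fst⟩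

/-- The class of `y`. -/
noncomputable def cY : JR := Ideal.Quotient.mk Jd ⟨fun p => p.2, an_snd⟩

theorem rep_X : Rep (fun p => p.1) cX := ⟨an_fst, rfl⟩

theorem rep_Y : Rep (fun p => p.2) cY := ⟨an_snd, rfl⟩

theorem cX_sq : cX ^ 2 = 0 := by
  refine Rep.eq (rep_X.pow 2) ?_
  refine (rep_zero.iff (an_fst.pow 2)).mpr
    ⟨fun _ => 1, fun _ => 0, analyticAt_const, analyticAt_const, Eventually.of_forall fun p => ?_⟩
  change p.1 ^ 2 - 0 = _
  ring

theorem cY_sq : cY ^ 2 = 0 := by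
  refine Rep.eq (rep_Y.pow 2) ?_
  refine (rep_zero.iff (an_snd.pow 2)).mpr
    ⟨fun _ => 0, fun _ => 1, analyticAt_const, analyticAt_const, Eventually.of_forall fun p => ?_⟩
  change p.2 ^ 2 - 0 = _
  ring

/-- The class of a constant. -/
noncomputable def cC (a : ℂ) : JR := Ideal.Quotient.mk Jd ⟨fun _ => a, analyticAt_const⟩

theorem rep_C (a : ℂ) : Rep (fun _ => a) (cC a) := ⟨analyticAt_const, rfl⟩

theorem cC_mul (a b : ℂ) : cC (a * b) = cC a * cC b :=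
  (rep_C (a * b)).eq ((rep_C a).mul (rep_C b))

theorem cC_add (a b : ℂ) : cC (a + b) = cC a + cC b :=
  (rep_C (a + b)).eq ((rep_C a).add (rep_C b))

theorem cC_one : cC 1 = 1 := (rep_C 1).eq rep_one

theorem cC_zero : cC 0 = 0 := (rep_C 0).eq rep_zero

theorem cC_neg (a : ℂ) : cC (-a) = -cC a := (rep_C (-a)).eq (rep_C a).neg

end Pool.Agent.H25.RK
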