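import Pool.Agent.H25.RK.JTrig
import Pool.Agent.H63.VC.Asym
import Pool.Agent.H63.VC.EndB
import Pool.Agent.H63.VC.Riem
import Pool.Agent.H63.VC.SlowL
import Pool.Agent.H63.VC.SlowU
import Pool.Agent.H63.VC.Small
import Pool.Agent.H63.VC3.LLfun

/-!
# The interpolation `exp (LL M z)` near the integers
-/

set_option autoImplicit false

open Finset Filter Topology Complex
open Pool.Agent.H63.VC Pool.Agent.H63.VC3

namespace Pool.Agent.H25.RK

/-- `∏_{j=1}^n 2 sin (π (j + z) / M)` -/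
noncomputable def PiF (M n : ℕ) (z : ℂ) : ℂ := ∏ i ∈ range n, sn M (((i : ℂ) + 1) + z)

theorem PiF_succ (M n : ℕ) (z : ℂ) : PiF M (n + 1) z = PiF M n z * sn M (((n : ℂ) + 1) + z) := by
  unfold PiF; rw [prod_range_succ]

theorem PiF_zero (M : ℕ) (z : ℂ) : PiF M 0 z = 1 := by simp [PiF]

theorem S_cast (M n : ℕ) : (S M n : ℂ) = PiF M n 0 := by
  unfold S PiF sg
  rw [prod_Ico_eq_prod_range]
  push_cast
  refine prod_congr rfl fun i _ => ?_
  unfold sn
  rw [add_zero, add_comm (1 : ℂ)]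

theorem LL_exp_step (M : ℕ) (hM : 0 < M) (s : ℂ) (h0 : 0 < s.re) (h1 : s.re < M) :
    exp (LL M s) = exp (LL M (s - 1)) * sn M s := by
  have hMr : (0 : ℝ) < M := by exact_mod_cast hM
  have h := LL_step M hM s h0 h1
  have hre : (s / (M : ℂ)).re = s.re / M := by rw [Complex.div_natCast_re]
  have h2 := hh_exp (s / M) (by rw [hre]; positivity) (by rw [hre, div_lt_one hMr]; exact h1)
  rw [show LL M s = LL M (s - 1) + hh (s / M) by rw [← h]; ring, exp_add, h2]
  unfold sn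
  rw [mul_div_assoc]

theorem LL_exp_add (M : ℕ) (hM : 0 < M) (n : ℕ) (hn : n < M) (z : ℂ) (h : |z.re| < 1) :
    exp (LL M (n + z)) = exp (LL M z) * PiF M n z := by
  obtain ⟨ha, hb⟩ := abs_lt.mp h
  induction n with
  | zero => rw [Nat.cast_zero, zero_add, PiF_zero, mul_one]
  | succ n ih =>
    have hn' : ((n : ℝ) + 1) + 1 ≤ M := by exact_mod_cast hn
    have h0 := ih (by omega)
    have h1 := LL_exp_step M hM (((n + 1 : ℕ) : ℂ) + z) (by
      simp only [add_re, natCast_re]; push_cast; have := Nat.cast_nonneg (α := ℝ) n; linarith) (by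
      simp only [add_re, natCast_re]; push_cast; linarith)
    rw [h1, PiF_succ, show ((n + 1 : ℕ) : ℂ) + z - 1 = n + z by push_cast; ring, h0,
      show ((n + 1 : ℕ) : ℂ) + z = ((n : ℂ) + 1) + z by push_cast; ring]
    ring

/-- `exp (-2 LL M z)` -/
noncomputable def uL (M : ℕ) (z : ℂ) : ℂ := exp (-2 * LL M z)

theorem uL_eq (M : ℕ) (z : ℂ) : uL M z = (exp (LL M z) ^ 2)⁻¹ := by
  unfold uL
  rw [← exp_nat_mul, ← exp_neg]
  congr 1
  push_cast
  ring

theorem uL_add (M : ℕ) (hM : 0 < M) (n : ℕ) (hn : n < M) (z : ℂ) (h : |z.re| < 1) :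
    uL M (n + z) = uL M z * ((PiF M n z)⁻¹) ^ 2 := by
  rw [uL_eq, uL_eq, LL_exp_add M hM n hn z h, mul_pow, mul_inv, inv_pow]

theorem uL_zero (M : ℕ) (hM : 0 < M) : uL M 0 = 1 := by
  have h := LL_nat M 0 hM
  rw [S_cast, PiF_zero, Nat.cast_zero] at h
  rw [uL_eq, h]
  norm_num

theorem uL_an (M : ℕ) (hM : 0 < M) : AnalyticAt ℂ (uL M) 0 := by
  have hMr : (0 : ℝ) < M := by exact_mod_cast hM
  have h1 : AnalyticAt ℂ (LL M) 0 := by
    have ho : IsOpen {s : ℂ | -1 < s.re ∧ s.re < M} :=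
      (isOpen_lt continuous_const continuous_re).inter (isOpen_lt continuous_re continuous_const)
    have hd : DifferentiableOn ℂ (LL M) {s : ℂ | -1 < s.re ∧ s.re < M} := fun s hs =>
      (LL_differentiableAt M hM s hs.1 hs.2).differentiableWithinAt
    exact hd.analyticAt (ho.mem_nhds ⟨by norm_num, by simpa using hMr⟩)
  exact (analyticAt_const.mul h1).cexp

theorem uL_refl (M : ℕ) (hM : 0 < M) (z : ℂ) (h : |z.re| < 1) :
    uL M z * uL M (-z) * (M : ℂ) ^ 2 = PiF M (M - 1) z ^ 2 := by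
  have hMc : (M : ℂ) ≠ 0 := by exact_mod_cast hM.ne'
  have h1 := LL_exp_add M hM (M - 1) (by omega) z h
  have h2 := LL_reflect M hM (-z)
  rw [show (M : ℂ) - 1 - -z = ((M - 1 : ℕ) : ℂ) + z by
    rw [Nat.cast_sub (by omega)]; push_cast; ring] at h2
  have h3 : exp (LL M (-z)) * exp (LL M (((M - 1 : ℕ) : ℂ) + z)) = M := by
    rw [← exp_add, h2]
    rw [← ofReal_exp, Real.exp_log (by exact_mod_cast hM)]
    norm_num
  rw [h1] at h3
  rw [uL_eq, uL_eq]
  have e1 := exp_ne_zero (LL M z)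
  have e2 := exp_ne_zero (LL M (-z))
  field_simp
  rw [← h3]
  ring

/-! ### Representatives -/

section rep

variable {M : ℕ} (hM : 0 < M)

theorem rep_Pi (n : ℕ) (e : ℤ × ℤ × ℤ) :
    Rep (fun p => PiF M n (lin e p)) ((CJ M hM).Pi n e) := by
  unfold PiF Cyc.Pi
  refine Rep.prod fun i _ => ?_
  refine (rep_s M _).congr (Eventually.of_forall fun p => ?_)
  change _ = sn M (lin (((i : ℤ) + 1) • ((1, 0, 0) : ℤ × ℤ × ℤ) + e) p)
  rw [lin_o]
  push_cast
  rfl

theorem PiF_ne {n : ℕ} (hn : n < M) : PiF M n 0 ≠ 0 := by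
  unfold PiF
  rw [prod_ne_zero_iff]
  intro i hi
  have := mem_range.mp hi
  rw [add_zero]
  have h := sn_natCast_ne (M := M) (k := i + 1) (by omega) (by omega)
  push_cast at h
  exact h

theorem rep_iS {n : ℕ} (hn : n < M) {e : ℤ × ℤ × ℤ} (he : lin e 0 = 0) :
    Rep (fun p => (PiF M n (lin e p))⁻¹) ((CJ M hM).iS n e) := by
  have h : Rep (fun p => ∏ i ∈ range n, (sn M (((i : ℂ) + 1) + lin e p))⁻¹)
      ((CJ M hM).iS n e) := by
    rw [Cyc.iS_nat]
    refine Rep.prod fun i hi => ?_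
    have hi' := mem_range.mp hi
    have h1 : Rep (fun p => sn M (((i : ℂ) + 1) + lin e p))
        ((CJ M hM).s (((i : ℤ) + 1) • (CJ M hM).o + e)) := by
      refine (rep_s M _).congr (Eventually.of_forall fun p => ?_)
      change _ = sn M (lin (((i : ℤ) + 1) • ((1, 0, 0) : ℤ × ℤ × ℤ) + e) p)
      rw [lin_o]
      push_cast
      rfl
    refine h1.inv ?_
    rw [he, add_zero]
    have h := sn_natCast_ne (M := M) (k := i + 1) (by omega) (by omega)
    push_cast at h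
    exact h
  refine h.congr (Eventually.of_forall fun p => ?_)
  unfold PiF
  rw [prod_inv_distrib]

theorem rep_S (n : ℕ) : Rep (fun _ => (S M n : ℂ)) ((CJ M hM).S n) := by
  have h := rep_Pi hM n 0
  rw [Cyc.Pi_S] at h
  refine h.congr (Eventually.of_forall fun p => ?_)
  rw [lin_zero, S_cast]

theorem S_ne {n : ℕ} (hn : n < M) : (S M n : ℂ) ≠ 0 := by
  rw [S_cast]
  exact PiF_ne hn

theorem rep_V {n : ℕ} (hn : n < M) : Rep (fun _ => ((S M n : ℂ))⁻¹) ((CJ M hM).V n) :=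
  (rep_S hM n).inv (S_ne hn)

end rep

end Pool.Agent.H25.RK
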