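import Pool.Agent.H25.RK.LLb

/-!
# The base factor
-/

set_option autoImplicit false

open Finset Filter Topology Complex
open Pool.Agent.H63.VC Pool.Agent.H63.VC3

namespace Pool.Agent.H25.RK

/-- Third order expansion at `0`. -/
theorem exists_taylor {f : ℂ → ℂ} (hf : AnalyticAt ℂ f 0) :
    ∃ (a b : ℂ) (w : ℂ → ℂ), AnalyticAt ℂ w 0 ∧
      ∀ z, f z = f 0 + a * z + b * z ^ 2 + z ^ 3 * w z := by
  obtain ⟨g, hg, h1⟩ := exists_slope hf
  obtain ⟨h, hh, h2⟩ := exists_slope hg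
  obtain ⟨w, hw, h3⟩ := exists_slope hh
  refine ⟨g 0, h 0, w, hw, fun z => ?_⟩
  rw [h1, h2, h3]
  ring

theorem an_comp {w : ℂ → ℂ} (hw : AnalyticAt ℂ w 0) {f : ℂ × ℂ → ℂ} (hf : AnalyticAt ℂ f 0)
    (h0 : f 0 = 0) : AnalyticAt ℂ (fun p => w (f p)) 0 := by
  apply AnalyticAt.fun_comp (f := f) _ hf
  rw [h0]
  exact hw

/-- `f (x + y)` -/
theorem rep_sum {f : ℂ → ℂ} {a b : ℂ} {w : ℂ → ℂ} (hw : AnalyticAt ℂ w 0)
    (h : ∀ z, f z = f 0 + a * z + b * z ^ 2 + z ^ 3 * w z) (hf : AnalyticAt ℂ f 0) :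
    Rep (fun p => f (p.1 + p.2)) (cC (f 0) + cC a * (cX + cY) + 2 * cC b * (cX * cY)) := by
  have hs : AnalyticAt ℂ (fun p : ℂ × ℂ => p.1 + p.2) 0 := an_fst.add an_snd
  have h1 := ((rep_C (f 0)).add ((rep_C a).mul (rep_X.add rep_Y))).add
    ((rep_two.mul (rep_C b)).mul (rep_X.mul rep_Y))
  refine (h1.iff (an_comp hf hs (by simp))).mpr
    ⟨fun p => b + (p.1 + 3 * p.2) * w (p.1 + p.2), fun p => b + (p.2 + 3 * p.1) * w (p.1 + p.2),
      ?_, ?_, Eventually.of_forall fun p => ?_⟩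
  · exact analyticAt_const.add ((an_fst.add (analyticAt_const.mul an_snd)).mul
      (an_comp hw hs (by simp)))
  · exact analyticAt_const.add ((an_snd.add (analyticAt_const.mul an_fst)).mul
      (an_comp hw hs (by simp)))
  · change f (p.1 + p.2) - (f 0 + a * (p.1 + p.2) + 2 * b * (p.1 * p.2)) =
      p.1 ^ 2 * (b + (p.1 + 3 * p.2) * w (p.1 + p.2)) +
        p.2 ^ 2 * (b + (p.2 + 3 * p.1) * w (p.1 + p.2))
    rw [h (p.1 + p.2)]
    ring

/-- `f (-(x + y))` -/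
theorem rep_sum_neg {f : ℂ → ℂ} {a b : ℂ} {w : ℂ → ℂ} (hw : AnalyticAt ℂ w 0)
    (h : ∀ z, f z = f 0 + a * z + b * z ^ 2 + z ^ 3 * w z) (hf : AnalyticAt ℂ f 0) :
    Rep (fun p => f (-(p.1 + p.2))) (cC (f 0) - cC a * (cX + cY) + 2 * cC b * (cX * cY)) := by
  have hs : AnalyticAt ℂ (fun p : ℂ × ℂ => -(p.1 + p.2)) 0 := (an_fst.add an_snd).neg
  have h1 := ((rep_C (f 0)).sub ((rep_C a).mul (rep_X.add rep_Y))).add
    ((rep_two.mul (rep_C b)).mul (rep_X.mul rep_Y))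
  refine (h1.iff (an_comp hf hs (by simp))).mpr
    ⟨fun p => b - (p.1 + 3 * p.2) * w (-(p.1 + p.2)),
      fun p => b - (p.2 + 3 * p.1) * w (-(p.1 + p.2)),
      ?_, ?_, Eventually.of_forall fun p => ?_⟩
  · exact analyticAt_const.sub ((an_fst.add (analyticAt_const.mul an_snd)).mul
      (an_comp hw hs (by simp)))
  · exact analyticAt_const.sub ((an_snd.add (analyticAt_const.mul an_fst)).mul
      (an_comp hw hs (by simp)))
  · change f (-(p.1 + p.2)) - (f 0 - a * (p.1 + p.2) + 2 * b * (p.1 * p.2)) =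
      p.1 ^ 2 * (b - (p.1 + 3 * p.2) * w (-(p.1 + p.2))) +
        p.2 ^ 2 * (b - (p.2 + 3 * p.1) * w (-(p.1 + p.2)))
    rw [h (-(p.1 + p.2))]
    ring

/-- `f (-x)` -/
theorem rep_neg_X {f : ℂ → ℂ} {a b : ℂ} {w : ℂ → ℂ} (hw : AnalyticAt ℂ w 0)
    (h : ∀ z, f z = f 0 + a * z + b * z ^ 2 + z ^ 3 * w z) (hf : AnalyticAt ℂ f 0) :
    Rep (fun p => f (-p.1)) (cC (f 0) - cC a * cX) := by
  have h1 := (rep_C (f 0)).sub ((rep_C a).mul rep_X)
  refine (h1.iff (an_comp hf an_fst.neg (by simp))).mpr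
    ⟨fun p => b - p.1 * w (-p.1), fun _ => 0, ?_, analyticAt_const,
      Eventually.of_forall fun p => ?_⟩
  · exact analyticAt_const.sub (an_fst.mul (an_comp hw an_fst.neg (by simp)))
  · change f (-p.1) - (f 0 - a * p.1) = p.1 ^ 2 * (b - p.1 * w (-p.1)) + p.2 ^ 2 * 0
    rw [h (-p.1)]
    ring

/-- `f (-y)` -/
theorem rep_neg_Y {f : ℂ → ℂ} {a b : ℂ} {w : ℂ → ℂ} (hw : AnalyticAt ℂ w 0)
    (h : ∀ z, f z = f 0 + a * z + b * z ^ 2 + z ^ 3 * w z) (hf : AnalyticAt ℂ f 0) :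
    Rep (fun p => f (-p.2)) (cC (f 0) - cC a * cY) := by
  have h1 := (rep_C (f 0)).sub ((rep_C a).mul rep_Y)
  refine (h1.iff (an_comp hf an_snd.neg (by simp))).mpr
    ⟨fun _ => 0, fun p => b - p.2 * w (-p.2), analyticAt_const, ?_,
      Eventually.of_forall fun p => ?_⟩
  · exact analyticAt_const.sub (an_snd.mul (an_comp hw an_snd.neg (by simp)))
  · change f (-p.2) - (f 0 - a * p.2) = p.1 ^ 2 * 0 + p.2 ^ 2 * (b - p.2 * w (-p.2))
    rw [h (-p.2)]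
    ring

section cyc

variable {A R : Type*} [AddCommGroup A] [CommRing R] (C : Cyc A R)

/-- `∏ (s(i)² - s(e)²)` for `s(e)² = 2 s(ξ) s(η)` -/
theorem Pi_sq_aux (n : ℕ) (hn : n < C.M) :
    C.Pi n (C.ξ + C.η) * C.Pi n (-(C.ξ + C.η)) =
      C.S n ^ 2 * (1 - 2 * C.s C.ξ * C.s C.η * ∑ j ∈ range n, C.v ((j : ℤ) + 1) ^ 2) := by
  induction n with
  | zero => simp [C.Pi_zero, C.S_zero]
  | succ n ih =>
    have h0 := ih (by omega)
    have h1 := C.s_sq_sub (((n : ℤ) + 1) • C.o) (C.ξ + C.η)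
    have h2 := C.inf_ξ.s_add_sq C.inf_η
    have h3 := C.s_mul_v (k := (n : ℤ) + 1) (by omega) (by omega)
    rw [C.Pi_succ, C.Pi_succ, C.S_succ, sum_range_succ, ← sub_eq_add_neg]
    have h4 := C.inf_ξ.s_sq
    have h5 : (2 * C.s C.ξ * C.s C.η) ^ 2 = 0 := by
      linear_combination 4 * C.s C.η ^ 2 * h4
    set σ := C.s (((n : ℤ) + 1) • C.o)
    set τ := 2 * C.s C.ξ * C.s C.η
    set sv := ∑ j ∈ range n, C.v ((j : ℤ) + 1) ^ 2
    have h6 : σ ^ 2 * C.v ((n : ℤ) + 1) ^ 2 = 1 := by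
      linear_combination (σ * C.v ((n : ℤ) + 1) + 1) * h3
    linear_combination C.s (((n : ℤ) + 1) • C.o + (C.ξ + C.η)) *
        C.s (((n : ℤ) + 1) • C.o - (C.ξ + C.η)) * h0 -
      C.S n ^ 2 * (1 - τ * sv) * h1 - C.S n ^ 2 * (1 - τ * sv) * h2 +
      C.S n ^ 2 * τ * h6 + C.S n ^ 2 * sv * h5

theorem Pi_sq : C.Pi (C.M - 1) (C.ξ + C.η) ^ 2 =
    C.P ^ 2 * (1 - 2 * C.β * C.s C.ξ * C.s C.η) := by
  have hM := C.M_pos
  have h := Pi_sq_aux C (C.M - 1) (by omega)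
  rw [C.Pi_reflect] at h
  unfold Cyc.P Cyc.β
  linear_combination h

theorem isUnit_P : IsUnit C.P := C.isUnit_S (by have := C.M_pos; omega)

end cyc

variable {M : ℕ} (hM : 0 < M)

theorem re_fst_lt : ∀ᶠ p in 𝓝 (0 : ℂ × ℂ), |p.1.re| < 1 := by
  have h : Continuous fun p : ℂ × ℂ => |p.1.re| := by fun_prop
  exact h.continuousAt.eventually_lt continuousAt_const (by simp)

theorem re_snd_lt : ∀ᶠ p in 𝓝 (0 : ℂ × ℂ), |p.2.re| < 1 := by
  have h : Continuous fun p : ℂ × ℂ => |p.2.re| := by fun_prop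
  exact h.continuousAt.eventually_lt continuousAt_const (by simp)

theorem re_add_lt : ∀ᶠ p in 𝓝 (0 : ℂ × ℂ), |(p.1 + p.2).re| < 1 := by
  have h : Continuous fun p : ℂ × ℂ => |(p.1 + p.2).re| := by fun_prop
  exact h.continuousAt.eventually_lt continuousAt_const (by simp)

/-- The base factor. -/
theorem rep_lam : Rep (fun p => uL M (-p.1) * uL M (-p.2) * uL M (p.1 + p.2))
    (1 - (CJ M hM).β * (CJ M hM).s (CJ M hM).ξ * (CJ M hM).s (CJ M hM).η) := by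
  set C := CJ M hM with hC
  have hu := uL_an M hM
  obtain ⟨a, b, w, hw, h⟩ := exists_taylor hu
  have h0 := uL_zero M hM
  have r1 := rep_neg_X hw h hu
  have r2 := rep_neg_Y hw h hu
  have r3 := rep_sum hw h hu
  have r4 := rep_sum_neg hw h hu
  rw [h0, cC_one] at r1 r2 r3 r4
  -- the even product
  have r5 := (r3.mul r4).mul ((rep_S hM (M - 1)).pow 2)
  have hP : C.P = C.S (M - 1) := rfl
  have r6 : Rep (fun p => uL M (p.1 + p.2) * uL M (-(p.1 + p.2)) * (S M (M - 1) : ℂ) ^ 2)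
      (C.P ^ 2 * (1 - 2 * C.β * C.s C.ξ * C.s C.η)) := by
    rw [← Pi_sq]
    have := (rep_Pi hM (M - 1) (C.ξ + C.η)).pow 2
    refine this.congr ?_
    filter_upwards [re_add_lt] with p hp
    have e := uL_refl M hM (p.1 + p.2) hp
    rw [S_full M hM]
    have e2 : lin (C.ξ + C.η) p = p.1 + p.2 := by
      rw [lin_add]
      simp [hC, CJ, lin]
    rw [e2, ← e]
    push_cast
    ring
  have e := r5.eq r6
  rw [← hP] at e
  have hu2 : IsUnit (C.P ^ 2) := (isUnit_P C).pow 2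
  have e' : (1 + cC a * (cX + cY) + 2 * cC b * (cX * cY)) *
      (1 - cC a * (cX + cY) + 2 * cC b * (cX * cY)) = 1 - 2 * C.β * C.s C.ξ * C.s C.η := by
    apply hu2.mul_left_cancel
    linear_combination e
  have hX := cX_sq
  have hY := cY_sq
  have e3 : (2 * cC b - cC a ^ 2) * (cX * cY) = -(C.β * C.s C.ξ * C.s C.η) := by
    apply C.isUnit_two.mul_left_cancel
    linear_combination e' + (cC a ^ 2 - 4 * cC b ^ 2 * cY ^ 2) * hX + cC a ^ 2 * hY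
  have e4 : (1 - cC a * cX) * (1 - cC a * cY) * (1 + cC a * (cX + cY) + 2 * cC b * (cX * cY)) =
      1 - C.β * C.s C.ξ * C.s C.η := by
    linear_combination e3 + (-cC a ^ 2 - 2 * cC a * cC b * cY + cC a ^ 3 * cY +
      2 * cC a ^ 2 * cC b * cY ^ 2) * hX + (-cC a ^ 2 - 2 * cC a * cC b * cX +
      cC a ^ 3 * cX) * hY
  rw [← e4]
  exact (r1.mul r2).mul r3

end Pool.Agent.H25.RK
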