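import Pool.Agent.H25.RK.Rows3

/-!
# The identity `F = P² (1 - β s(ξ) s(η)) H`
-/

set_option autoImplicit false

open Finset

namespace Pool.Agent.H25.RK

namespace Cyc

variable {A R : Type*} [AddCommGroup A] [CommRing R] (C : Cyc A R)

theorem row_zero {k : ℕ} (hk : k < C.M) :
    C.F ((0 : ℤ) • C.o + C.ξ) ((k : ℤ) • C.o + C.η) = C.G 0 k := by
  rw [zero_smul, zero_add, C.F_inf C.inf_ξ]
  induction k with
  | zero =>
    rw [Nat.cast_zero, zero_smul, zero_add, C.B_η, C.G_bot_zero]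
    ring
  | succ k ih =>
    have h0 := ih (by omega)
    have h1 := C.B_step (k := k + 1) (by omega) hk
    have h2 := C.G_bot_step (k := k + 1) (by omega) hk
    rw [add_tsub_cancel_right] at h2
    rw [show ((k + 1 : ℕ) : ℤ) • C.o + C.η - C.o = (k : ℤ) • C.o + C.η by
      push_cast; module] at h1
    have hu : IsUnit (C.s (((k + 1 : ℕ) : ℤ) • C.o + C.η)) :=
      isUnit_s_add (by omega) (by omega) C.inf_η.nil
    apply hu.mul_left_cancel
    linear_combination C.s C.ξ * h1 - h2 + C.s (((k + 1 : ℕ) : ℤ) • C.o + C.η) * h0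

theorem row_top {k : ℕ} (hk : k < C.M) :
    C.F (((C.M : ℤ) - 1) • C.o + C.ξ) ((k : ℤ) • C.o + C.η) = C.G ((C.M : ℤ) - 1) k := by
  rw [C.F_top]
  induction k with
  | zero =>
    rw [Nat.cast_zero, zero_smul, zero_add, C.B_η, C.G_top_zero]
    ring
  | succ k ih =>
    have h0 := ih (by omega)
    have h1 := C.B_step (k := k + 1) (by omega) hk
    have h2 := C.G_top_step (k := k + 1) (by omega) hk
    rw [add_tsub_cancel_right] at h2
    rw [show ((k + 1 : ℕ) : ℤ) • C.o + C.η - C.o = (k : ℤ) • C.o + C.η by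
      push_cast; module] at h1
    have hu : IsUnit (C.s (((k + 1 : ℕ) : ℤ) • C.o + C.η)) :=
      isUnit_s_add (by omega) (by omega) C.inf_η.nil
    apply hu.mul_left_cancel
    linear_combination -C.s C.ξ * h1 - h2 + C.s (((k + 1 : ℕ) : ℤ) • C.o + C.η) * h0

/-- The difference of the two sides. -/
noncomputable def D (l : ℤ) (k : ℕ) : R :=
  C.F (l • C.o + C.ξ) ((k : ℤ) • C.o + C.η) - C.G l k

theorem D_rec (hM : 2 ≤ C.M) (l : ℤ) (k : ℕ) (h0 : 0 ≤ l) (h1 : l < C.M) (h2 : k < C.M) :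
    C.c (l • C.o + C.ξ) * C.s (l • C.o + C.ξ + C.o) ^ 3 * (C.D (l + 1) k - C.D l k) +
      C.c (l • C.o + C.ξ + C.o) * C.s (l • C.o + C.ξ) ^ 3 * (C.D (l - 1) k - C.D l k) =
    C.s ((k : ℤ) • C.o + C.η) * C.s ((k : ℤ) • C.o + C.η + C.o) * C.c (l • C.o + C.ξ) *
      C.c (l • C.o + C.ξ + C.o) * C.s (l • C.o + C.ξ + (l • C.o + C.ξ) + C.o) * C.D l k := by
  have a1 := C.F_rec (l • C.o + C.ξ) ((k : ℤ) • C.o + C.η) (C.Phi_M h2)
  have a2 := C.H_rec hM l k h0 h1 h2
  unfold D G
  rw [show (l + 1) • C.o + C.ξ = l • C.o + C.ξ + C.o by module,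
    show (l - 1) • C.o + C.ξ = l • C.o + C.ξ - C.o by module]
  linear_combination a1 - C.P ^ 2 * (1 - C.β * C.s C.ξ * C.s C.η) * a2

theorem s_cube_zero : C.s C.ξ ^ 3 = 0 := by linear_combination C.s C.ξ * C.inf_ξ.s_sq

/-- Upwards. -/
theorem D_up (hM : 2 ≤ C.M) {k : ℕ} (hk : k < C.M) (l : ℕ) (hl : l < C.M)
    (h : 2 * l ≤ C.M + 1) : C.D l k = 0 := by
  induction l using Nat.strong_induction_on with
  | _ l ih =>
    rcases Nat.eq_zero_or_pos l with h0 | h0
    · subst h0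
      unfold D
      rw [Nat.cast_zero, C.row_zero hk, sub_self]
    · obtain ⟨n, rfl⟩ : ∃ n, l = n + 1 := ⟨l - 1, by omega⟩
      have h1 := C.D_rec hM n k (by omega) (by omega) hk
      have h2 := ih n (by omega) (by omega) (by omega)
      have h3 : C.s ((n : ℤ) • C.o + C.ξ) ^ 3 * C.D ((n : ℤ) - 1) k = 0 := by
        rcases Nat.eq_zero_or_pos n with hn | hn
        · subst hn
          rw [Nat.cast_zero, zero_smul, zero_add, C.s_cube_zero, zero_mul]
        · have := ih (n - 1) (by omega) (by omega) (by omega)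
          rw [show ((n - 1 : ℕ) : ℤ) = n - 1 by omega] at this
          rw [this, mul_zero]
      have u1 : IsUnit (C.c ((n : ℤ) • C.o + C.ξ)) :=
        isUnit_c_add (by omega) (by omega) C.inf_ξ.nil
      have u2 : IsUnit (C.s ((n : ℤ) • C.o + C.ξ + C.o)) := by
        rw [show (n : ℤ) • C.o + C.ξ + C.o = ((n : ℤ) + 1) • C.o + C.ξ by module]
        exact isUnit_s_add (by omega) (by omega) C.inf_ξ.nil
      apply (u1.mul (u2.pow 3)).mul_left_cancel
      push_cast
      rw [h2] at h1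
      linear_combination h1 - C.c ((n : ℤ) • C.o + C.ξ + C.o) * h3

/-- Downwards. -/
theorem D_down (hM : 2 ≤ C.M) {k : ℕ} (hk : k < C.M) (n : ℕ) (hn : n < C.M)
    (h : 2 * n ≤ C.M + 1) : C.D ((C.M : ℤ) - 1 - n) k = 0 := by
  induction n using Nat.strong_induction_on with
  | _ n ih =>
    rcases Nat.eq_zero_or_pos n with h0 | h0
    · subst h0
      unfold D
      rw [Nat.cast_zero, sub_zero, C.row_top hk, sub_self]
    · obtain ⟨m, rfl⟩ : ∃ m, n = m + 1 := ⟨n - 1, by omega⟩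
      have h1 := C.D_rec hM ((C.M : ℤ) - 1 - m) k (by omega) (by omega) hk
      have h2 := ih m (by omega) (by omega) (by omega)
      have h3 : C.s (((C.M : ℤ) - 1 - m) • C.o + C.ξ + C.o) ^ 3 *
          C.D ((C.M : ℤ) - 1 - m + 1) k = 0 := by
        rcases Nat.eq_zero_or_pos m with hm | hm
        · subst hm
          rw [Nat.cast_zero, sub_zero, C.edge_sp]
          linear_combination -C.D ((C.M : ℤ) - 1 + 1) k * C.s_cube_zero
        · have := ih (m - 1) (by omega) (by omega) (by omega)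
          rw [show (C.M : ℤ) - 1 - ((m - 1 : ℕ) : ℤ) = (C.M : ℤ) - 1 - m + 1 by omega] at this
          rw [this, mul_zero]
      have u1 : IsUnit (C.c (((C.M : ℤ) - 1 - m) • C.o + C.ξ + C.o)) := by
        rw [show ((C.M : ℤ) - 1 - m) • C.o + C.ξ + C.o = ((C.M : ℤ) - m) • C.o + C.ξ by module]
        exact isUnit_c_add' (by omega) (by omega) C.inf_ξ.nil
      have u2 : IsUnit (C.s (((C.M : ℤ) - 1 - m) • C.o + C.ξ)) :=
        isUnit_s_add (by omega) (by omega) C.inf_ξ.nil
      apply (u1.mul (u2.pow 3)).mul_left_cancel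
      rw [h2] at h1
      push_cast
      rw [show (C.M : ℤ) - 1 - (m + 1) = (C.M : ℤ) - 1 - m - 1 by ring]
      linear_combination h1 - C.c (((C.M : ℤ) - 1 - m) • C.o + C.ξ) * h3

/-- The identity. -/
theorem F_eq {l k : ℕ} (hl : l < C.M) (hk : k < C.M) :
    C.F ((l : ℤ) • C.o + C.ξ) ((k : ℤ) • C.o + C.η) =
      C.P ^ 2 * (1 - C.β * C.s C.ξ * C.s C.η) * C.H l k := by
  have key : C.D l k = 0 := by
    rcases Nat.lt_or_ge C.M 2 with h | h
    · have h0 : l = 0 := by omega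
      subst h0
      unfold D
      rw [Nat.cast_zero, C.row_zero hk, sub_self]
    · rcases Nat.lt_or_ge (C.M + 1) (2 * l) with h' | h'
      · have := C.D_down h hk (C.M - 1 - l) (by omega) (by omega)
        rwa [show (C.M : ℤ) - 1 - ((C.M - 1 - l : ℕ) : ℤ) = l by omega] at this
      · exact C.D_up h hk l hl h'
  unfold D G at key
  linear_combination key

end Cyc

end Pool.Agent.H25.RK
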