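import Pool.Agent.H25.RK.Lam

/-!
# The jets of the kernel at the lattice points

`Kf M l l' = ∑_{k < M} S(k)^4 P_k(l) P_k(l')` is the kernel of the exact formula; `K_jets` says that
at the lattice points it agrees, up to terms `x² g + y² h`, with `M ^ 6` times the dual sum.
-/

set_option autoImplicit false

open Finset Filter Topology Complex
open Pool.Agent.H63.VC Pool.Agent.H63.VC3

namespace Pool.Agent.H25.RK

/-- `∏_{i=k+1}^{M-1} (-(2 sin (π (i - l) / M) 2 sin (π (i + l + 1) / M)))` -/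
noncomputable def Pk (M k : ℕ) (l : ℂ) : ℂ :=
  ∏ i ∈ Ico (k + 1) M, -(sn M (i - l) * sn M (i + l + 1))

/-- The kernel. -/
noncomputable def Kf (M : ℕ) (l l' : ℂ) : ℂ :=
  ∑ k ∈ range M, (S M k : ℂ) ^ 4 * (Pk M k l * Pk M k l')

/-- `∏_{i=1}^{j} 2 sin (π (l + i) / M) 2 sin (π (l + 1 - i) / M)` -/
noncomputable def PhiF (M j : ℕ) (l : ℂ) : ℂ :=
  ∏ i ∈ range j, (sn M (l + ((i : ℂ) + 1)) * sn M (l - i))

theorem sn_neg (M : ℕ) (x : ℂ) : sn M (-x) = -sn M x := by
  unfold sn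
  rw [show (Real.pi : ℂ) * (-x) / M = -(Real.pi * x / M) by ring, Complex.sin_neg]
  ring

theorem sn_M_add (M : ℕ) (hM : 0 < M) (x : ℂ) : sn M (M + x) = -sn M x := by
  have h : (M : ℂ) ≠ 0 := by exact_mod_cast hM.ne'
  unfold sn
  rw [show (Real.pi : ℂ) * (M + x) / M = Real.pi * x / M + Real.pi by field_simp; ring,
    Complex.sin_add_pi]
  ring

theorem sn_M_sub (M : ℕ) (hM : 0 < M) (x : ℂ) : sn M (M - x) = sn M x := by
  rw [sub_eq_add_neg, sn_M_add M hM, sn_neg, neg_neg]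

theorem Pk_eq (M : ℕ) (hM : 0 < M) (j : ℕ) (hj : j < M) (l : ℂ) :
    Pk M (M - 1 - j) l = PhiF M j l := by
  unfold Pk PhiF
  rw [prod_Ico_eq_prod_range, show M - (M - 1 - j + 1) = j by omega, ← prod_range_reflect]
  refine prod_congr rfl fun i hi => ?_
  have hi' := mem_range.mp hi
  have e : (((M - 1 - j + 1 + (j - 1 - i) : ℕ)) : ℂ) = M - 1 - i := by
    rw [show M - 1 - j + 1 + (j - 1 - i) = M - 1 - i by omega, Nat.cast_sub (by omega),
      Nat.cast_sub (by omega)]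
    push_cast
    ring
  rw [e, show (M : ℂ) - 1 - i - l = M - (l + (i + 1)) by ring,
    show (M : ℂ) - 1 - i + l + 1 = M + (l - i) by ring, sn_M_sub M hM, sn_M_add M hM]
  ring

theorem Kf_eq (M : ℕ) (hM : 0 < M) (l l' : ℂ) :
    Kf M l l' = (M : ℂ) ^ 4 * ∑ j ∈ range M, PhiF M j l * PhiF M j l' * ((S M j : ℂ)⁻¹) ^ 4 := by
  unfold Kf
  rw [← sum_range_reflect, mul_sum]
  refine sum_congr rfl fun j hj => ?_
  have hj' := mem_range.mp hj
  rw [Pk_eq M hM j hj', Pk_eq M hM j hj']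
  have h := S_mul (M := M) (k := j) hj'
  have hne := S_ne (M := M) hj'
  have h' : (S M j : ℂ) * (S M (M - 1 - j) : ℂ) = M := by exact_mod_cast h
  rw [← h']
  field_simp

section rep

variable {M : ℕ} (hM : 0 < M)

theorem rep_Phi_ξ (j l : ℕ) : Rep (fun p => PhiF M j (l + p.1))
    ((CJ M hM).Phi j ((l : ℤ) • (CJ M hM).o + (CJ M hM).ξ)) := by
  unfold PhiF Cyc.Phi
  refine Rep.prod fun i _ => Rep.mul ?_ ?_
  · refine (rep_s M _).congr (Eventually.of_forall fun p => ?_)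
    congr 1
    simp [CJ, lin]
    ring
  · refine (rep_s M _).congr (Eventually.of_forall fun p => ?_)
    congr 1
    simp [CJ, lin]
    ring

theorem rep_Phi_η (j l : ℕ) : Rep (fun p => PhiF M j (l + p.2))
    ((CJ M hM).Phi j ((l : ℤ) • (CJ M hM).o + (CJ M hM).η)) := by
  unfold PhiF Cyc.Phi
  refine Rep.prod fun i _ => Rep.mul ?_ ?_
  · refine (rep_s M _).congr (Eventually.of_forall fun p => ?_)
    congr 1
    simp [CJ, lin]
    ring
  · refine (rep_s M _).congr (Eventually.of_forall fun p => ?_)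
    congr 1
    simp [CJ, lin]
    ring

theorem rep_M : Rep (fun _ => (M : ℂ)) (CJ M hM).P := by
  refine (rep_S hM (M - 1)).congr (Eventually.of_forall fun p => ?_)
  rw [S_full M hM]
  push_cast
  rfl

theorem rep_K (l l' : ℕ) : Rep (fun p => Kf M (l + p.1) (l' + p.2))
    ((CJ M hM).P ^ 4 * (CJ M hM).F ((l : ℤ) • (CJ M hM).o + (CJ M hM).ξ)
      ((l' : ℤ) • (CJ M hM).o + (CJ M hM).η)) := by
  have h : Rep (fun p => (M : ℂ) ^ 4 * ∑ j ∈ range M, PhiF M j (l + p.1) * PhiF M j (l' + p.2) *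
      ((S M j : ℂ)⁻¹) ^ 4) ((CJ M hM).P ^ 4 *
      (CJ M hM).F ((l : ℤ) • (CJ M hM).o + (CJ M hM).ξ)
        ((l' : ℤ) • (CJ M hM).o + (CJ M hM).η)) := by
    refine ((rep_M hM).pow 4).mul (Rep.sum fun j hj => ?_)
    exact ((rep_Phi_ξ hM j l).mul (rep_Phi_η hM j l')).mul ((rep_V hM (mem_range.mp hj)).pow 4)
  refine h.congr (Eventually.of_forall fun p => ?_)
  rw [Kf_eq M hM]

theorem lin_ξ (p : ℂ × ℂ) : lin (-(CJ M hM).ξ) p = -p.1 := by simp [CJ, lin]

theorem lin_η (p : ℂ × ℂ) : lin (-(CJ M hM).η) p = -p.2 := by simp [CJ, lin]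

theorem lin_ξη (p : ℂ × ℂ) : lin ((CJ M hM).ξ + (CJ M hM).η) p = p.1 + p.2 := by
  simp [CJ, lin]

/-- the terms of the dual sum -/
theorem rep_term {m a b n : ℕ} (hm : m < M) (ha : a < M) (hb : b < M) (hn : n < M) :
    Rep (fun p => exp (-2 * LL M m - 2 * LL M (a - p.1) - 2 * LL M (b - p.2) -
        2 * LL M (n + p.1 + p.2)))
      ((1 - (CJ M hM).β * (CJ M hM).s (CJ M hM).ξ * (CJ M hM).s (CJ M hM).η) *
        ((CJ M hM).iS m 0 * (CJ M hM).iS a (-(CJ M hM).ξ) * (CJ M hM).iS b (-(CJ M hM).η) *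
          (CJ M hM).iS n ((CJ M hM).ξ + (CJ M hM).η)) ^ 2) := by
  have h1 := rep_iS hM hm (e := 0) (lin_zero 0)
  have h2 := rep_iS hM ha (e := -(CJ M hM).ξ) (by rw [lin_ξ hM]; simp)
  have h3 := rep_iS hM hb (e := -(CJ M hM).η) (by rw [lin_η hM]; simp)
  have h4 := rep_iS hM hn (e := (CJ M hM).ξ + (CJ M hM).η) (by rw [lin_ξη hM]; simp)
  have h5 := (rep_lam hM).mul ((((h1.mul h2).mul h3).mul h4).pow 2)
  refine h5.congr ?_
  filter_upwards [re_fst_lt, re_snd_lt, re_add_lt] with p p1 p2 p3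
  have e0 : |(0 : ℂ).re| < 1 := by simp
  have u1 := uL_add M hM m hm 0 e0
  have u2 := uL_add M hM a ha (-p.1) (by rw [neg_re, abs_neg]; exact p1)
  have u3 := uL_add M hM b hb (-p.2) (by rw [neg_re, abs_neg]; exact p2)
  have u4 := uL_add M hM n hn (p.1 + p.2) p3
  rw [uL_zero M hM, one_mul, add_zero] at u1
  rw [lin_zero, lin_ξ hM, lin_η hM, lin_ξη hM]
  have : exp (-2 * LL M m - 2 * LL M (a - p.1) - 2 * LL M (b - p.2) - 2 * LL M (n + p.1 + p.2)) =
      uL M m * uL M (a + -p.1) * uL M (b + -p.2) * uL M (n + (p.1 + p.2)) := by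
    unfold uL
    rw [← exp_add, ← exp_add, ← exp_add]
    congr 1
    rw [show (n : ℂ) + p.1 + p.2 = n + (p.1 + p.2) by ring, sub_eq_add_neg (a : ℂ),
      sub_eq_add_neg (b : ℂ)]
    ring
  rw [this, u1, u2, u3, u4]
  ring

/-- first order expansion with the derivative -/
theorem exists_taylor2 {f : ℂ → ℂ} (hf : AnalyticAt ℂ f 0) :
    ∃ w : ℂ → ℂ, AnalyticAt ℂ w 0 ∧ ∀ z, f z = f 0 + deriv f 0 * z + z ^ 2 * w z := by
  obtain ⟨q, hq⟩ := id hf
  have hg : AnalyticAt ℂ (dslope f 0) 0 := hq.has_fpower_series_dslope_fslope.analyticAt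
  obtain ⟨w, hw, h⟩ := exists_slope hg
  refine ⟨w, hw, fun z => ?_⟩
  have h1 := sub_smul_dslope f 0 z
  rw [smul_eq_mul, sub_zero] at h1
  rw [dslope_same] at h
  rw [h] at h1
  linear_combination -h1

theorem sn_taylor (M : ℕ) : ∃ w : ℂ → ℂ, AnalyticAt ℂ w 0 ∧
    ∀ z, sn M z = 2 * Real.pi / M * z + z ^ 2 * w z := by
  have hd : HasDerivAt (sn M) (2 * Real.pi / M) 0 := by
    have h1 : HasDerivAt (fun z : ℂ => (Real.pi : ℂ) * z / M) (Real.pi / M) 0 := by
      have := ((hasDerivAt_id (0 : ℂ)).const_mul (Real.pi : ℂ)).div_const (M : ℂ)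
      simpa using this
    have h2 := h1.csin.const_mul 2
    simp only [mul_zero, zero_div, Complex.cos_zero, one_mul] at h2
    have e : (2 : ℂ) * (Real.pi / M) = 2 * Real.pi / M := by ring
    rw [e] at h2
    exact h2
  have ha : AnalyticAt ℂ (sn M) 0 := by
    have : AnalyticAt ℂ (fun z : ℂ => 2 * Complex.sin (Real.pi * z / M)) 0 := by fun_prop
    exact this
  obtain ⟨w, hw, h⟩ := exists_taylor2 ha
  refine ⟨w, hw, fun z => ?_⟩
  rw [h, hd.deriv]
  have : sn M 0 = 0 := by simp [sn]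
  rw [this]
  ring

theorem s_ξ_eq : (CJ M hM).s (CJ M hM).ξ = cC (2 * Real.pi / M) * cX := by
  obtain ⟨w, hw, h⟩ := sn_taylor M
  have h1 : Rep (fun p => sn M p.1) ((CJ M hM).s (CJ M hM).ξ) := by
    refine (rep_s M _).congr (Eventually.of_forall fun p => ?_)
    congr 1
    simp [CJ, lin]
  have h2 := (rep_C (2 * Real.pi / M)).mul rep_X
  refine h1.eq ((h2.iff h1.an).mpr ⟨fun p => w p.1, fun _ => 0, ?_, analyticAt_const,
    Eventually.of_forall fun p => ?_⟩)
  · exact an_comp hw an_fst (by simp)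
  · change sn M p.1 - 2 * Real.pi / M * p.1 = p.1 ^ 2 * w p.1 + p.2 ^ 2 * 0
    rw [h]
    ring

theorem s_η_eq : (CJ M hM).s (CJ M hM).η = cC (2 * Real.pi / M) * cY := by
  obtain ⟨w, hw, h⟩ := sn_taylor M
  have h1 : Rep (fun p => sn M p.2) ((CJ M hM).s (CJ M hM).η) := by
    refine (rep_s M _).congr (Eventually.of_forall fun p => ?_)
    congr 1
    simp [CJ, lin]
  have h2 := (rep_C (2 * Real.pi / M)).mul rep_Y
  refine h1.eq ((h2.iff h1.an).mpr ⟨fun _ => 0, fun p => w p.2, analyticAt_const, ?_,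
    Eventually.of_forall fun p => ?_⟩)
  · exact an_comp hw an_snd (by simp)
  · change sn M p.2 - 2 * Real.pi / M * p.2 = p.1 ^ 2 * 0 + p.2 ^ 2 * w p.2
    rw [h]
    ring

end rep

section low

variable {A R : Type*} [AddCommGroup A] [CommRing R] (C : Cyc A R)

/-- The low terms. -/
theorem t_low (l l' m a b n : ℕ) (hm : m < C.M) (ha : a < C.M) (hb : b < C.M)
    (h1 : a + l + m + 1 = C.M) (h2 : b + l' + m + 1 = C.M) (h3 : n + 1 + l + l' + m + 1 = C.M) :
    C.t l l' m = 2 * C.s C.ξ * C.s C.η * (C.V m * C.V a * C.V b * C.S n) ^ 2 := by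
  unfold Cyc.t
  rw [C.iS_V hm, show (C.M : ℤ) - 1 - l - m = (a : ℤ) by omega,
    show (C.M : ℤ) - 1 - l' - m = (b : ℤ) by omega,
    show (l : ℤ) + l' - C.M + 1 + m = -((n + 1 : ℕ) : ℤ) by omega,
    mul_pow, C.iS_neg_sq, C.inf_ξ.s_add_sq C.inf_η]
  have h1 := C.s_mul_iS C.inf_ξ.neg ha
  have h2 := C.s_mul_iS C.inf_η.neg hb
  have h3 := C.s_mul_Pi C.inf_ξ.neg (-C.η) n
  have h4 := C.s_mul_Pi C.inf_η.neg 0 n
  rw [C.s_neg] at h1 h2 h3 h4
  rw [zero_add, C.Pi_S] at h4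
  rw [show -(C.ξ + C.η) = -C.η + -C.ξ by abel]
  set x1 := C.iS (a : ℤ) (-C.ξ)
  set x2 := C.iS (b : ℤ) (-C.η)
  set x3 := C.Pi n (-C.η + -C.ξ)
  set x4 := C.Pi n (-C.η)
  set c := C.V m
  set va := C.V a
  set vb := C.V b
  set d := C.S n
  have g1 : C.s C.ξ * x1 ^ 2 = C.s C.ξ * va ^ 2 := by
    linear_combination -(x1 + va) * h1
  have g2 : C.s C.η * x2 ^ 2 = C.s C.η * vb ^ 2 := by
    linear_combination -(x2 + vb) * h2
  have g3 : C.s C.ξ * x3 ^ 2 = C.s C.ξ * x4 ^ 2 := by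
    linear_combination -(x3 + x4) * h3
  have g4 : C.s C.η * x4 ^ 2 = C.s C.η * d ^ 2 := by
    linear_combination -(x4 + d) * h4
  linear_combination c ^ 2 * x2 ^ 2 * 2 * C.s C.η * x1 ^ 2 * g3 +
    c ^ 2 * x2 ^ 2 * 2 * C.s C.ξ * x1 ^ 2 * g4 +
    c ^ 2 * x2 ^ 2 * 2 * C.s C.η * d ^ 2 * g1 +
    c ^ 2 * va ^ 2 * 2 * C.s C.ξ * d ^ 2 * g2

/-- The terms beyond the range vanish. -/
theorem t_far (l l' m : ℕ) (h : C.M < l + m + 1) : C.t l l' m = 0 := by
  obtain ⟨r, hr⟩ := C.iS_neg_dvd (z := C.M - 1 - l - m) (by omega) (-C.ξ)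
  unfold Cyc.t
  rw [hr, C.s_neg]
  linear_combination (C.iS m 0 * r * C.iS (C.M - 1 - l' - m) (-C.η) *
    C.iS (l + l' - C.M + 1 + m) (C.ξ + C.η)) ^ 2 * C.inf_ξ.s_sq

theorem H_split {l l' : ℕ} (hl : l < C.M) (hl' : l' < C.M) :
    C.H l l' = ∑ m ∈ range (C.M - 1 - l - l'), C.t l l' m +
      ∑ m ∈ Ico (C.M - 1 - l - l') (C.M - max l l'), C.t l l' m := by
  have h1 : C.M - 1 - l - l' ≤ C.M - max l l' := by
    rcases max_choice l l' with h | h <;> rw [h] <;> omega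
  have h2 : C.M - max l l' ≤ C.M - l' := Nat.sub_le_sub_left (le_max_right _ _) _
  unfold Cyc.H
  rw [range_eq_Ico, range_eq_Ico, sum_Ico_consecutive _ (Nat.zero_le _) h1,
    ← sum_Ico_consecutive _ (Nat.zero_le _) h2]
  rw [sum_eq_zero (s := Ico (C.M - max l l') (C.M - l'))]
  · rw [add_zero]
  · intro m hm
    have hm' := mem_Ico.mp hm
    apply t_far
    rcases le_total l l' with h | h
    · rw [max_eq_right h] at hm'
      omega
    · rw [max_eq_left h] at hm'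
      omega

end low

/-- The dual sum. -/
noncomputable def KH (M l l' : ℕ) (x y : ℂ) : ℂ :=
  ∑ m ∈ Ico (M - 1 - l - l') (M - max l l'),
    exp (-2 * LL M m - 2 * LL M (M - 1 - l - m - x) - 2 * LL M (M - 1 - l' - m - y) -
      2 * LL M (l + l' - M + 1 + m + x + y))

/-- The low part. -/
noncomputable def KL (M l l' : ℕ) : ℝ :=
  ∑ m ∈ range (M - 1 - l - l'),
    (S M (M - 2 - l - l' - m) / (S M m * S M (M - 1 - l - m) * S M (M - 1 - l' - m))) ^ 2

/-- The jets of the kernel at the lattice points. -/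
theorem K_jets {M : ℕ} (hM : 0 < M) {l l' : ℕ} (hl : l < M) (hl' : l' < M) :
    Sq (fun p => Kf M (l + p.1) (l' + p.2) - ((M : ℂ) ^ 6 * KH M l l' p.1 p.2 +
      (M : ℂ) ^ 6 * (8 * (Real.pi / M) ^ 2 * KL M l l' * (p.1 * p.2)))) := by
  set C := CJ M hM with hC
  have hCM : C.M = M := rfl
  have r1 := rep_K hM l l'
  have hF := C.F_eq (l := l) (k := l') hl hl'
  have hH := H_split C (l := l) (l' := l') hl hl'
  rw [hCM] at hH
  -- the high part
  have r2 : Rep (fun p => KH M l l' p.1 p.2)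
      ((1 - C.β * C.s C.ξ * C.s C.η) *
        ∑ m ∈ Ico (M - 1 - l - l') (M - max l l'), C.t l l' m) := by
    rw [mul_sum]
    unfold KH
    refine Rep.sum fun m hm => ?_
    have hm' := mem_Ico.mp hm
    have g1 : m < M := by have := hm'.2; omega
    have g2 : m + l < M := by
      have := le_max_left l l'
      omega
    have g3 : m + l' < M := by
      have := le_max_right l l'
      omega
    obtain ⟨a, ha⟩ : ∃ a, a + l + m + 1 = M := ⟨M - 1 - l - m, by omega⟩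
    obtain ⟨b, hb⟩ : ∃ b, b + l' + m + 1 = M := ⟨M - 1 - l' - m, by omega⟩
    obtain ⟨n, hn⟩ : ∃ n, l + l' + m + 1 = M + n := ⟨l + l' + m + 1 - M, by omega⟩
    have ht := rep_term hM (m := m) (a := a) (b := b) (n := n) g1 (by omega) (by omega) (by omega)
    have e : C.t l l' m = (C.iS m 0 * C.iS a (-C.ξ) * C.iS b (-C.η) *
        C.iS n (C.ξ + C.η)) ^ 2 := by
      unfold Cyc.t
      rw [hCM, show (M : ℤ) - 1 - l - m = a by omega, show (M : ℤ) - 1 - l' - m = b by omega,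
        show (l : ℤ) + l' - M + 1 + m = n by omega]
    rw [e]
    refine ht.congr (Eventually.of_forall fun p => ?_)
    have ea : (M : ℂ) - 1 - l - m = a := by
      have : ((a + l + m + 1 : ℕ) : ℂ) = M := by rw [ha]
      push_cast at this
      linear_combination -this
    have eb : (M : ℂ) - 1 - l' - m = b := by
      have : ((b + l' + m + 1 : ℕ) : ℂ) = M := by rw [hb]
      push_cast at this
      linear_combination -this
    have en : (l : ℂ) + l' - M + 1 + m = n := by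
      have : ((l + l' + m + 1 : ℕ) : ℂ) = ((M + n : ℕ) : ℂ) := by rw [hn]
      push_cast at this
      linear_combination this
    rw [ea, eb, en]
  -- the low part
  have r3 : Rep (fun p => 8 * (Real.pi / M) ^ 2 * KL M l l' * (p.1 * p.2))
      (∑ m ∈ range (M - 1 - l - l'), C.t l l' m) := by
    have : Rep (fun p => ∑ m ∈ range (M - 1 - l - l'), (2 * (2 * Real.pi / M * p.1) *
        (2 * Real.pi / M * p.2) * (((S M m : ℂ))⁻¹ * ((S M (M - 1 - l - m) : ℂ))⁻¹ *
          ((S M (M - 1 - l' - m) : ℂ))⁻¹ * (S M (M - 2 - l - l' - m) : ℂ)) ^ 2))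
        (∑ m ∈ range (M - 1 - l - l'), C.t l l' m) := by
      refine Rep.sum fun m hm => ?_
      have hm' := mem_range.mp hm
      rw [t_low C l l' m (M - 1 - l - m) (M - 1 - l' - m) (M - 2 - l - l' - m)
        (show m < M by omega) (show M - 1 - l - m < M by omega)
        (show M - 1 - l' - m < M by omega) (show M - 1 - l - m + l + m + 1 = M by omega)
        (show M - 1 - l' - m + l' + m + 1 = M by omega)
        (show M - 2 - l - l' - m + 1 + l + l' + m + 1 = M by omega), s_ξ_eq hM, s_η_eq hM]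
      exact ((rep_two.mul ((rep_C _).mul rep_X)).mul ((rep_C _).mul rep_Y)).mul
        (((((rep_V hM (by omega)).mul (rep_V hM (by omega))).mul (rep_V hM (by omega))).mul
          (rep_S hM _)).pow 2)
    refine this.congr (Eventually.of_forall fun p => ?_)
    unfold KL
    push_cast
    rw [mul_sum, sum_mul]
    refine sum_congr rfl fun m _ => ?_
    simp only [div_eq_mul_inv, mul_inv]
    ring
  have hlow : C.s C.ξ * ∑ m ∈ range (M - 1 - l - l'), C.t l l' m = 0 := by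
    rw [mul_sum]
    refine sum_eq_zero fun m hm => ?_
    have hm' := mem_range.mp hm
    rw [t_low C l l' m (M - 1 - l - m) (M - 1 - l' - m) (M - 2 - l - l' - m)
        (show m < M by omega) (show M - 1 - l - m < M by omega)
        (show M - 1 - l' - m < M by omega) (show M - 1 - l - m + l + m + 1 = M by omega)
        (show M - 1 - l' - m + l' + m + 1 = M by omega)
        (show M - 2 - l - l' - m + 1 + l + l' + m + 1 = M by omega)]
    linear_combination 2 * C.s C.η * (C.V m * C.V (M - 1 - l - m) * C.V (M - 1 - l' - m) *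
      C.S (M - 2 - l - l' - m)) ^ 2 * C.inf_ξ.s_sq
  have r4 := (((rep_M hM).pow 6).mul r2).add (((rep_M hM).pow 6).mul r3)
  have e : (CJ M hM).P ^ 6 * ((1 - C.β * C.s C.ξ * C.s C.η) *
        ∑ m ∈ Ico (M - 1 - l - l') (M - max l l'), C.t l l' m) +
      (CJ M hM).P ^ 6 * ∑ m ∈ range (M - 1 - l - l'), C.t l l' m =
      C.P ^ 4 * C.F ((l : ℤ) • C.o + C.ξ) ((l' : ℤ) • C.o + C.η) := by
    rw [hF, hH, ← hC]
    linear_combination C.P ^ 6 * C.β * C.s C.η * hlow
  rw [e] at r4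
  exact r4.sq r1

end Pool.Agent.H25.RK
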