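import Pool.Agent.H25.RK.Cyc

/-!
# The two sums and their recurrences
-/

set_option autoImplicit false

open Finset

namespace Pool.Agent.H25.RK

namespace Cyc

variable {A R : Type*} [AddCommGroup A] [CommRing R] (C : Cyc A R)

/-- `1 / ∏_{i = 1}^z s (i + e)`, extended to negative `z`. -/
noncomputable def iS : ℤ → A → R
  | Int.ofNat n, e => ∏ i ∈ range n, Ring.inverse (C.s (((i : ℤ) + 1) • C.o + e))
  | Int.negSucc n, e => ∏ i ∈ range (n + 1), C.s (e - (i : ℤ) • C.o)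

theorem iS_nat (n : ℕ) (e : A) :
    C.iS (n : ℤ) e = ∏ i ∈ range n, Ring.inverse (C.s (((i : ℤ) + 1) • C.o + e)) := rfl

theorem iS_neg (n : ℕ) (e : A) :
    C.iS (-(n : ℤ)) e = ∏ i ∈ range n, C.s (e - (i : ℤ) • C.o) := by
  cases n with
  | zero => simp [iS_nat C 0 e |> fun h => (by simpa using h : C.iS 0 e = 1)]
  | succ n => rfl

theorem iS_zero (e : A) : C.iS 0 e = 1 := by
  have := C.iS_nat 0 e
  simpa using this

theorem iS_sub_one {z : ℤ} (hz : z < C.M) {e : A} (he : C.Nil e) :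
    C.iS (z - 1) e = C.iS z e * C.s (z • C.o + e) := by
  rcases lt_or_ge 0 z with h | h
  · obtain ⟨n, rfl⟩ : ∃ n : ℕ, z = (n : ℤ) + 1 := ⟨(z - 1).toNat, by omega⟩
    have h1 := isUnit_s_add (C := C) h hz he
    rw [add_sub_cancel_right, C.iS_nat, show ((n : ℤ) + 1) = ((n + 1 : ℕ) : ℤ) by push_cast; rfl,
      C.iS_nat, prod_range_succ, mul_assoc]
    have h2 : Ring.inverse (C.s (((n : ℤ) + 1) • C.o + e)) *
        C.s (((n + 1 : ℕ) : ℤ) • C.o + e) = 1 := by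
      push_cast
      exact Ring.inverse_mul_cancel _ h1
    rw [h2, mul_one]
  · obtain ⟨n, rfl⟩ : ∃ n : ℕ, z = -(n : ℤ) := ⟨(-z).toNat, by omega⟩
    rw [show -(n : ℤ) - 1 = -((n + 1 : ℕ) : ℤ) by push_cast; ring, C.iS_neg, C.iS_neg,
      prod_range_succ]
    congr 2
    module

/-- `Φ_j (x) = ∏_{i = 1 - j}^j s (x + i)`. -/
def Phi (j : ℕ) (x : A) : R :=
  ∏ i ∈ range j, (C.s (x + ((i : ℤ) + 1) • C.o) * C.s (x - (i : ℤ) • C.o))

theorem Phi_zero (x : A) : C.Phi 0 x = 1 := by simp [Phi]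

theorem Phi_succ (j : ℕ) (x : A) :
    C.Phi (j + 1) x = C.Phi j x * (C.s (x + ((j : ℤ) + 1) • C.o) * C.s (x - (j : ℤ) • C.o)) := by
  unfold Phi
  rw [prod_range_succ]

theorem Phi_succ_add (j : ℕ) (x : A) :
    C.Phi (j + 1) (x + C.o) =
      C.Phi j x * (C.s (x + ((j : ℤ) + 1) • C.o) * C.s (x + ((j : ℤ) + 2) • C.o)) := by
  induction j with
  | zero =>
    rw [C.Phi_succ, C.Phi_zero, C.Phi_zero]
    rw [show x + C.o + (((0 : ℕ) : ℤ) + 1) • C.o = x + (((0 : ℕ) : ℤ) + 2) • C.o by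
        push_cast; module,
      show x + C.o - ((0 : ℕ) : ℤ) • C.o = x + (((0 : ℕ) : ℤ) + 1) • C.o by
        push_cast; module]
    ring
  | succ j ih =>
    rw [C.Phi_succ (j + 1), ih, C.Phi_succ j x]
    push_cast
    rw [show x + C.o + ((j : ℤ) + 1 + 1) • C.o = x + ((j : ℤ) + 1 + 2) • C.o by module,
      show x + C.o - ((j : ℤ) + 1) • C.o = x - (j : ℤ) • C.o by module,
      show x + ((j : ℤ) + 1 + 1) • C.o = x + ((j : ℤ) + 2) • C.o by module]
    ring

theorem Phi_succ_sub (j : ℕ) (x : A) :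
    C.Phi (j + 1) (x - C.o) =
      C.Phi j x * (C.s (x - ((j : ℤ) + 1) • C.o) * C.s (x - (j : ℤ) • C.o)) := by
  induction j with
  | zero =>
    rw [C.Phi_succ, C.Phi_zero, C.Phi_zero]
    rw [show x - C.o + (((0 : ℕ) : ℤ) + 1) • C.o = x - (((0 : ℕ) : ℤ)) • C.o by
        push_cast; module,
      show x - C.o - ((0 : ℕ) : ℤ) • C.o = x - (((0 : ℕ) : ℤ) + 1) • C.o by
        push_cast; module]
    ring
  | succ j ih =>
    rw [C.Phi_succ (j + 1), ih, C.Phi_succ j x]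
    push_cast
    rw [show x - C.o + ((j : ℤ) + 1 + 1) • C.o = x + ((j : ℤ) + 1) • C.o by module,
      show x - C.o - ((j : ℤ) + 1) • C.o = x - ((j : ℤ) + 1 + 1) • C.o by module]
    ring

/-- `s 1 ⋯ s n` -/
def S (n : ℕ) : R := ∏ i ∈ range n, C.s (((i : ℤ) + 1) • C.o)

theorem S_zero : C.S 0 = 1 := by simp [S]

theorem S_succ (n : ℕ) : C.S (n + 1) = C.S n * C.s (((n : ℤ) + 1) • C.o) := by
  unfold S; rw [prod_range_succ]

theorem isUnit_S {n : ℕ} (hn : n < C.M) : IsUnit (C.S n) := by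
  induction n with
  | zero => rw [C.S_zero]; exact isUnit_one
  | succ n ih =>
    rw [C.S_succ]
    exact (ih (by omega)).mul (isUnit_s_int (by omega) (by omega))

/-- `1 / (s 1 ⋯ s n)` -/
noncomputable def V (n : ℕ) : R := Ring.inverse (C.S n)

theorem S_mul_V {n : ℕ} (hn : n < C.M) : C.S n * C.V n = 1 :=
  Ring.mul_inverse_cancel _ (C.isUnit_S hn)

theorem V_zero : C.V 0 = 1 := by
  have := C.S_mul_V C.M_pos
  rwa [C.S_zero, one_mul] at this

theorem V_eq {n : ℕ} (hn : n + 1 < C.M) : C.V n = C.V (n + 1) * C.s (((n : ℤ) + 1) • C.o) := by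
  have h1 := C.S_mul_V (n := n) (by omega)
  have h2 := C.S_mul_V hn
  rw [C.S_succ] at h2
  calc C.V n = C.V n * (C.S n * C.s (((n : ℤ) + 1) • C.o) * C.V (n + 1)) := by rw [h2, mul_one]
    _ = (C.S n * C.V n) * (C.V (n + 1) * C.s (((n : ℤ) + 1) • C.o)) := by ring
    _ = _ := by rw [h1, one_mul]

/-- The state sum (up to the factor `M ^ 4`). -/
noncomputable def F (x y : A) : R :=
  ∑ j ∈ range C.M, C.Phi j x * C.Phi j y * C.V j ^ 4

/-- The step in `j`. -/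
theorem Phi_rec_term (j : ℕ) (hj : j + 1 < C.M) (x : A) :
    (C.c x * C.s (x + C.o) ^ 3 * (C.Phi (j + 1) (x + C.o) - C.Phi (j + 1) x) +
      C.c (x + C.o) * C.s x ^ 3 * (C.Phi (j + 1) (x - C.o) - C.Phi (j + 1) x)) *
        C.V (j + 1) ^ 4 =
    C.c x * C.c (x + C.o) * C.s (x + x + C.o) *
      (C.s (((j : ℤ) + 1) • C.o) * C.s (((j : ℤ) + 2) • C.o) * C.Phi (j + 1) x * C.V (j + 1) ^ 4 +
        C.Phi j x * C.V j ^ 4) := by
  rw [C.V_eq hj, C.Phi_succ_add, C.Phi_succ_sub, C.Phi_succ]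
  have h1 := C.cubic x (((j : ℤ) + 1) • C.o) C.o
  have h2 := C.s_sub_s (x + C.o) (((j : ℤ) + 1) • C.o)
  have h3 := C.s_sub_s x (((j : ℤ) + 1) • C.o)
  rw [show x + C.o - ((j : ℤ) + 1) • C.o = x - (j : ℤ) • C.o by module] at h1 h2
  rw [show x + C.o + ((j : ℤ) + 1) • C.o = x + ((j : ℤ) + 2) • C.o by module] at h2
  rw [show ((j : ℤ) + 1) • C.o + C.o = ((j : ℤ) + 2) • C.o by module] at h1
  linear_combination
    C.Phi j x * C.V (j + 1) ^ 4 * C.s (((j : ℤ) + 1) • C.o) * C.c x * C.c (x + C.o) * h1 +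
    C.Phi j x * C.V (j + 1) ^ 4 * C.c x * C.s (x + C.o) ^ 3 *
      C.s (x + ((j : ℤ) + 1) • C.o) * h2 -
    C.Phi j x * C.V (j + 1) ^ 4 * C.c (x + C.o) * C.s x ^ 3 * C.s (x - (j : ℤ) • C.o) * h3

/-- The recurrence for `F`. -/
theorem F_rec (x y : A) (hy : C.Phi C.M y = 0) :
    C.c x * C.s (x + C.o) ^ 3 * (C.F (x + C.o) y - C.F x y) +
      C.c (x + C.o) * C.s x ^ 3 * (C.F (x - C.o) y - C.F x y) =
    C.s y * C.s (y + C.o) * C.c x * C.c (x + C.o) * C.s (x + x + C.o) * C.F x y := by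
  obtain ⟨N, hN⟩ : ∃ N, C.M = N + 1 := ⟨C.M - 1, by have := C.M_pos; omega⟩
  have key : ∀ n, n < C.M →
      C.c x * C.s (x + C.o) ^ 3 *
          (∑ j ∈ range (n + 1), C.Phi j (x + C.o) * C.Phi j y * C.V j ^ 4 -
            ∑ j ∈ range (n + 1), C.Phi j x * C.Phi j y * C.V j ^ 4) +
        C.c (x + C.o) * C.s x ^ 3 *
          (∑ j ∈ range (n + 1), C.Phi j (x - C.o) * C.Phi j y * C.V j ^ 4 -
            ∑ j ∈ range (n + 1), C.Phi j x * C.Phi j y * C.V j ^ 4) =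
      C.s y * C.s (y + C.o) * C.c x * C.c (x + C.o) * C.s (x + x + C.o) *
          ∑ j ∈ range (n + 1), C.Phi j x * C.Phi j y * C.V j ^ 4 -
        C.c x * C.c (x + C.o) * C.s (x + x + C.o) * C.Phi n x * C.Phi (n + 1) y * C.V n ^ 4 := by
    intro n
    induction n with
    | zero =>
      intro _
      simp only [zero_add, range_one, sum_singleton, C.Phi_zero, C.V_zero, C.Phi_succ,
        Nat.cast_zero, one_smul, zero_smul, sub_zero]
      ring
    | succ n ih =>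
      intro hn
      have h0 := ih (by omega)
      have h1 := C.Phi_rec_term n hn x
      rw [sum_range_succ, sum_range_succ (fun j => C.Phi j x * C.Phi j y * C.V j ^ 4),
        sum_range_succ (fun j => C.Phi j (x - C.o) * C.Phi j y * C.V j ^ 4)]
      have h2 := C.Phi_succ (n + 1) y
      have h3 : C.s (y + (((n + 1 : ℕ) : ℤ) + 1) • C.o) * C.s (y - ((n + 1 : ℕ) : ℤ) • C.o) =
          C.s y * C.s (y + C.o) -
            C.s (((n : ℤ) + 1) • C.o) * C.s (((n : ℤ) + 2) • C.o) := by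
        have := C.ptolemy (((n : ℤ) + 2) • C.o) (-(((n : ℤ) + 1) • C.o)) y
        rw [C.s_neg, show ((n : ℤ) + 2) • C.o + y = y + (((n + 1 : ℕ) : ℤ) + 1) • C.o by
            push_cast; module,
          show -(((n : ℤ) + 1) • C.o) + y = y - ((n + 1 : ℕ) : ℤ) • C.o by
            push_cast; module,
          show ((n : ℤ) + 2) • C.o + -(((n : ℤ) + 1) • C.o) + y = y + C.o by module] at this
        linear_combination this
      rw [h3] at h2
      linear_combination h0 + C.Phi (n + 1) y * h1 +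
        C.c x * C.c (x + C.o) * C.s (x + x + C.o) * C.Phi (n + 1) x * C.V (n + 1) ^ 4 * h2
  have h := key N (by omega)
  rw [← hN, hy] at h
  unfold F
  linear_combination h

end Cyc

end Pool.Agent.H25.RK
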