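import Pool.Agent.H25.RK.Rec

/-!
# The recurrence for the second sum
-/

set_option autoImplicit false

open Finset

namespace Pool.Agent.H25.RK

namespace Cyc

variable {A R : Type*} [AddCommGroup A] [CommRing R] (C : Cyc A R)

/-- The terms of the second sum. -/
noncomputable def t (l l' m : ℤ) : R :=
  (C.iS m 0 * C.iS (C.M - 1 - l - m) (-C.ξ) * C.iS (C.M - 1 - l' - m) (-C.η) *
    C.iS (l + l' - C.M + 1 + m) (C.ξ + C.η)) ^ 2

/-- The second sum. -/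
noncomputable def H (l : ℤ) (l' : ℕ) : R := ∑ m ∈ range (C.M - l'), C.t l l' m

/-- The certificate. -/
noncomputable def U (l l' m : ℤ) : R :=
  (C.iS (m - 1) 0 * C.iS (C.M - l - m) (-C.ξ) * C.iS (C.M - 1 - l' - m) (-C.η) *
    C.iS (l + l' - C.M + 1 + m) (C.ξ + C.η)) ^ 2 *
    C.Q (l • C.o + C.ξ) (l' • C.o + C.η) (m • C.o) C.o

/-- The summand of the recurrence. -/
noncomputable def X (l l' m : ℤ) : R :=
  C.c (l • C.o + C.ξ) * C.s (l • C.o + C.ξ + C.o) ^ 3 * (C.t (l + 1) l' m - C.t l l' m) +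
    C.c (l • C.o + C.ξ + C.o) * C.s (l • C.o + C.ξ) ^ 3 * (C.t (l - 1) l' m - C.t l l' m) -
    C.s (l' • C.o + C.η) * C.s (l' • C.o + C.η + C.o) * C.c (l • C.o + C.ξ) *
      C.c (l • C.o + C.ξ + C.o) * C.s (l • C.o + C.ξ + (l • C.o + C.ξ) + C.o) * C.t l l' m

theorem iS_step_neg {z : ℤ} (hz : 0 < z) {e : A} (he : C.Nil e) :
    C.iS (C.M - z - 1) (-e) = C.iS (C.M - z) (-e) * C.s (z • C.o + e) := by
  rw [C.iS_sub_one (by omega) he.neg,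
    show ((C.M : ℤ) - z) • C.o + -e = (C.M : ℤ) • C.o - (z • C.o + e) by module, C.s_M_sub]

theorem iS_step_pos {z : ℤ} (hz : z < 2 * C.M) {e : A} (he : C.Nil e) :
    C.iS (z - C.M - 1) e = -(C.iS (z - C.M) e * C.s (z • C.o + e)) := by
  rw [C.iS_sub_one (by omega) he,
    show z • C.o + e = (C.M : ℤ) • C.o + ((z - C.M : ℤ) • C.o + e) by module, C.s_M_add]
  ring

theorem X_eq (l l' m : ℤ) (h1 : 0 < l + m) (h2 : l + l' + m + 2 < 2 * C.M) (h3 : m < C.M)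
    (h4 : 0 ≤ l' + m) : C.X l l' m = C.U l l' (m + 1) - C.U l l' m := by
  have hξ := C.inf_ξ.nil
  have hη := C.inf_η.nil
  have hs := C.inf_ξ.nil_add C.inf_η
  have a1 := C.iS_step_neg h1 hξ
  have a2 := C.iS_step_neg (z := l + m + 1) (by omega) hξ
  have a3 := C.iS_step_pos h2 hs
  have a4 := C.iS_step_pos (z := l + l' + m + 1) (by omega) hs
  have a5 := C.iS_sub_one h3 (e := 0) nil_zero
  have a6 := C.iS_step_neg (z := l' + m + 1) (by omega) hη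
  have hst := C.star (l • C.o + C.ξ) (l' • C.o + C.η) (m • C.o) C.o
  rw [show (l + m) • C.o + C.ξ = l • C.o + C.ξ + m • C.o by module] at a1
  rw [show (l + m + 1) • C.o + C.ξ = l • C.o + C.ξ + m • C.o + C.o by module,
    show (C.M : ℤ) - (l + m + 1) = C.M - (l + m) - 1 by ring, a1] at a2
  rw [show (l + l' + m + 2) • C.o + (C.ξ + C.η) =
    l • C.o + C.ξ + (l' • C.o + C.η) + m • C.o + C.o + C.o by module] at a3
  rw [show (l + l' + m + 1) • C.o + (C.ξ + C.η) =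
    l • C.o + C.ξ + (l' • C.o + C.η) + m • C.o + C.o by module,
    show l + l' + m + 1 - (C.M : ℤ) = l + l' + m + 2 - C.M - 1 by ring, a3] at a4
  rw [add_zero] at a5
  rw [show (l' + m + 1) • C.o + C.η = l' • C.o + C.η + m • C.o + C.o by module] at a6
  have t1 : C.t l l' m = (C.iS m 0 * C.iS (C.M - (l + m)) (-C.ξ) *
      C.iS (C.M - (l' + m + 1)) (-C.η) * C.iS (l + l' + m + 2 - C.M) (C.ξ + C.η)) ^ 2 *
      C.s (l • C.o + C.ξ + m • C.o) ^ 2 *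
      C.s (l • C.o + C.ξ + (l' • C.o + C.η) + m • C.o + C.o + C.o) ^ 2 := by
    unfold t
    rw [show (C.M : ℤ) - 1 - l - m = C.M - (l + m) - 1 by ring, a1,
      show (C.M : ℤ) - 1 - l' - m = C.M - (l' + m + 1) by ring,
      show l + l' - (C.M : ℤ) + 1 + m = l + l' + m + 2 - C.M - 1 by ring, a3]
    ring
  have t2 : C.t (l + 1) l' m = (C.iS m 0 * C.iS (C.M - (l + m)) (-C.ξ) *
      C.iS (C.M - (l' + m + 1)) (-C.η) * C.iS (l + l' + m + 2 - C.M) (C.ξ + C.η)) ^ 2 *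
      C.s (l • C.o + C.ξ + m • C.o) ^ 2 * C.s (l • C.o + C.ξ + m • C.o + C.o) ^ 2 := by
    unfold t
    rw [show (C.M : ℤ) - 1 - (l + 1) - m = C.M - (l + m) - 1 - 1 by ring, a2,
      show (C.M : ℤ) - 1 - l' - m = C.M - (l' + m + 1) by ring,
      show l + 1 + l' - (C.M : ℤ) + 1 + m = l + l' + m + 2 - C.M by ring]
    ring
  have t3 : C.t (l - 1) l' m = (C.iS m 0 * C.iS (C.M - (l + m)) (-C.ξ) *
      C.iS (C.M - (l' + m + 1)) (-C.η) * C.iS (l + l' + m + 2 - C.M) (C.ξ + C.η)) ^ 2 *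
      C.s (l • C.o + C.ξ + (l' • C.o + C.η) + m • C.o + C.o + C.o) ^ 2 *
      C.s (l • C.o + C.ξ + (l' • C.o + C.η) + m • C.o + C.o) ^ 2 := by
    unfold t
    rw [show (C.M : ℤ) - 1 - (l - 1) - m = C.M - (l + m) by ring,
      show (C.M : ℤ) - 1 - l' - m = C.M - (l' + m + 1) by ring,
      show l - 1 + l' - (C.M : ℤ) + 1 + m = l + l' + m + 2 - C.M - 1 - 1 by ring, a4]
    ring
  have u1 : C.U l l' m = (C.iS m 0 * C.iS (C.M - (l + m)) (-C.ξ) *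
      C.iS (C.M - (l' + m + 1)) (-C.η) * C.iS (l + l' + m + 2 - C.M) (C.ξ + C.η)) ^ 2 *
      (C.Q (l • C.o + C.ξ) (l' • C.o + C.η) (m • C.o) C.o * C.s (m • C.o) ^ 2 *
        C.s (l • C.o + C.ξ + (l' • C.o + C.η) + m • C.o + C.o + C.o) ^ 2) := by
    unfold U
    rw [a5, show (C.M : ℤ) - l - m = C.M - (l + m) by ring,
      show (C.M : ℤ) - 1 - l' - m = C.M - (l' + m + 1) by ring,
      show l + l' - (C.M : ℤ) + 1 + m = l + l' + m + 2 - C.M - 1 by ring, a3]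
    ring
  have u2 : C.U l l' (m + 1) = (C.iS m 0 * C.iS (C.M - (l + m)) (-C.ξ) *
      C.iS (C.M - (l' + m + 1)) (-C.η) * C.iS (l + l' + m + 2 - C.M) (C.ξ + C.η)) ^ 2 *
      (C.Q (l • C.o + C.ξ) (l' • C.o + C.η) (m • C.o + C.o) C.o *
        C.s (l' • C.o + C.η + m • C.o + C.o) ^ 2 * C.s (l • C.o + C.ξ + m • C.o) ^ 2) := by
    unfold U
    rw [add_sub_cancel_right, show (C.M : ℤ) - l - (m + 1) = C.M - (l + m) - 1 by ring, a1,
      show (C.M : ℤ) - 1 - l' - (m + 1) = C.M - (l' + m + 1) - 1 by ring, a6,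
      show l + l' - (C.M : ℤ) + 1 + (m + 1) = l + l' + m + 2 - C.M by ring,
      show (m + 1) • C.o = m • C.o + C.o by module]
    ring
  unfold X
  rw [t1, t2, t3, u1, u2]
  linear_combination (C.iS m 0 * C.iS (C.M - (l + m)) (-C.ξ) *
      C.iS (C.M - (l' + m + 1)) (-C.η) * C.iS (l + l' + m + 2 - C.M) (C.ξ + C.η)) ^ 2 * hst

theorem U_zero (l l' : ℤ) : C.U l l' 0 = 0 := by
  have h : C.iS (0 - 1) 0 = 0 := by
    have := C.iS_neg 1 0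
    rw [show (0 : ℤ) - 1 = -((1 : ℕ) : ℤ) by norm_num, this]
    simp [C.s_zero]
  unfold U
  rw [h]
  ring

theorem U_last (l : ℤ) (l' : ℕ) (h : l' < C.M) : C.U l l' ((C.M - l' : ℕ) : ℤ) = 0 := by
  have h : C.iS (C.M - 1 - l' - ((C.M - l' : ℕ) : ℤ)) (-C.η) = -C.s C.η := by
    have := C.iS_neg 1 (-C.η)
    rw [show (C.M : ℤ) - 1 - l' - ((C.M - l' : ℕ) : ℤ) = -((1 : ℕ) : ℤ) by omega, this]
    simp [C.s_neg]
  have h2 := C.inf_η.s_sq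
  unfold U
  rw [h]
  linear_combination (C.iS (((C.M - l' : ℕ) : ℤ) - 1) 0 *
    C.iS (C.M - l - ((C.M - l' : ℕ) : ℤ)) (-C.ξ) *
    C.iS (l + l' - C.M + 1 + ((C.M - l' : ℕ) : ℤ)) (C.ξ + C.η)) ^ 2 *
    C.Q (l • C.o + C.ξ) ((l' : ℤ) • C.o + C.η) (((C.M - l' : ℕ) : ℤ) • C.o) C.o * h2

theorem iS_neg_dvd {z : ℤ} (hz : z < 0) (e : A) : ∃ r, C.iS z e = C.s e * r := by
  obtain ⟨n, rfl⟩ : ∃ n : ℕ, z = -((n + 1 : ℕ) : ℤ) := ⟨(-z - 1).toNat, by omega⟩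
  rw [C.iS_neg, prod_range_succ']
  refine ⟨∏ i ∈ range n, C.s (e - ((i + 1 : ℕ) : ℤ) • C.o), ?_⟩
  rw [Nat.cast_zero, zero_smul, sub_zero, mul_comm]

/-- The edge `l = 0`. -/
theorem X_edge_zero (hM : 2 ≤ C.M) (l' : ℤ) (h0 : 0 ≤ l') (h1 : l' < C.M) :
    C.X 0 l' 0 = C.U 0 l' 1 := by
  have hξ := C.inf_ξ.nil
  have hη := C.inf_η.nil
  have hs := C.inf_ξ.nil_add C.inf_η
  have hx : (0 : ℤ) • C.o + C.ξ = C.ξ := by module
  have a2 := C.iS_step_neg (z := 1) (by omega) hξ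
  have a3 := C.iS_step_pos (z := l' + 2) (by omega) hs
  have a6 := C.iS_step_neg (z := l' + 1) (by omega) hη
  have hst := C.star_zero C.ξ (l' • C.o + C.η) C.o
  rw [show (1 : ℤ) • C.o + C.ξ = C.ξ + C.o by module] at a2
  rw [show (l' + 2) • C.o + (C.ξ + C.η) = C.ξ + (l' • C.o + C.η) + C.o + C.o by module] at a3
  rw [show (l' + 1) • C.o + C.η = l' • C.o + C.η + C.o by module] at a6
  have t1 : C.t 0 l' 0 = (C.iS (C.M - 1) (-C.ξ) *
      C.iS (C.M - (l' + 1)) (-C.η) * C.iS (l' + 2 - C.M) (C.ξ + C.η)) ^ 2 *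
      C.s (C.ξ + (l' • C.o + C.η) + C.o + C.o) ^ 2 := by
    unfold t
    rw [C.iS_zero, show (C.M : ℤ) - 1 - 0 - 0 = C.M - 1 by ring,
      show (C.M : ℤ) - 1 - l' - 0 = C.M - (l' + 1) by ring,
      show 0 + l' - (C.M : ℤ) + 1 + 0 = l' + 2 - C.M - 1 by ring, a3]
    ring
  have t2 : C.t (0 + 1) l' 0 = (C.iS (C.M - 1) (-C.ξ) *
      C.iS (C.M - (l' + 1)) (-C.η) * C.iS (l' + 2 - C.M) (C.ξ + C.η)) ^ 2 *
      C.s (C.ξ + C.o) ^ 2 := by
    unfold t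
    rw [C.iS_zero, show (C.M : ℤ) - 1 - (0 + 1) - 0 = C.M - 1 - 1 by ring, a2,
      show (C.M : ℤ) - 1 - l' - 0 = C.M - (l' + 1) by ring,
      show 0 + 1 + l' - (C.M : ℤ) + 1 + 0 = l' + 2 - C.M by ring]
    ring
  have u2 : C.U 0 l' 1 = (C.iS (C.M - 1) (-C.ξ) *
      C.iS (C.M - (l' + 1)) (-C.η) * C.iS (l' + 2 - C.M) (C.ξ + C.η)) ^ 2 *
      (C.Q C.ξ (l' • C.o + C.η) C.o C.o * C.s (l' • C.o + C.η + C.o) ^ 2) := by
    unfold U
    rw [hx, sub_self, C.iS_zero, show (C.M : ℤ) - 0 - 1 = C.M - 1 by ring,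
      show (C.M : ℤ) - 1 - l' - 1 = C.M - (l' + 1) - 1 by ring, a6,
      show 0 + l' - (C.M : ℤ) + 1 + 1 = l' + 2 - C.M by ring, one_smul]
    ring
  have h3 : C.s C.ξ ^ 3 = 0 := by linear_combination C.s C.ξ * C.inf_ξ.s_sq
  have h5 : C.s C.ξ * C.s (C.ξ + C.η) ^ 2 = 0 := by
    rw [C.inf_ξ.s_add_sq C.inf_η]
    linear_combination 2 * C.s C.η * C.inf_ξ.s_sq
  have h4 : C.s C.ξ * C.s (C.ξ + (l' • C.o + C.η) + C.o) ^ 2 * C.t 0 l' 0 = 0 := by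
    rcases (show l' + 1 ≤ C.M by omega).lt_or_eq with h | h
    · obtain ⟨r, hr⟩ := C.iS_neg_dvd (z := 0 + l' - C.M + 1 + 0) (by omega) (C.ξ + C.η)
      unfold t
      rw [hr]
      linear_combination (C.s (C.ξ + (l' • C.o + C.η) + C.o) ^ 2 *
        (C.iS 0 0 * C.iS (C.M - 1 - 0 - 0) (-C.ξ) * C.iS (C.M - 1 - l' - 0) (-C.η) * r) ^ 2) * h5
    · have : C.s (C.ξ + (l' • C.o + C.η) + C.o) ^ 2 = C.s (C.ξ + C.η) ^ 2 := by
        rw [show C.ξ + (l' • C.o + C.η) + C.o = (l' + 1) • C.o + (C.ξ + C.η) by module, h,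
          C.s_M_add]
        ring
      rw [this, h5, zero_mul]
  have h6 : C.s C.ξ * C.s C.ξ ^ 2 * C.t 0 l' 0 = 0 := by
    linear_combination C.t 0 l' 0 * h3
  rw [t1] at h4 h6
  unfold X
  rw [hx, t1, t2, u2, h3]
  linear_combination (C.iS (C.M - 1) (-C.ξ) *
      C.iS (C.M - (l' + 1)) (-C.η) * C.iS (l' + 2 - C.M) (C.ξ + C.η)) ^ 2 * hst -
      C.c (C.ξ + C.o) * (h4 - h6)

end Cyc

end Pool.Agent.H25.RK
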