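import Pool.Agent.H25.RK.EdgeL

/-!
# The rows `l = 0` and `l = M - 1`
-/

set_option autoImplicit false

open Finset

namespace Pool.Agent.H25.RK

namespace Cyc

variable {A R : Type*} [AddCommGroup A] [CommRing R] (C : Cyc A R)

theorem Phi_reflect (j : ℕ) (x : A) : C.Phi j (((C.M : ℤ) - 1) • C.o - x) = C.Phi j x := by
  unfold Phi
  refine prod_congr rfl fun i _ => ?_
  rw [show ((C.M : ℤ) - 1) • C.o - x + ((i : ℤ) + 1) • C.o =
    (C.M : ℤ) • C.o - (x - (i : ℤ) • C.o) by module,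
    show ((C.M : ℤ) - 1) • C.o - x - (i : ℤ) • C.o =
    (C.M : ℤ) • C.o - (x + ((i : ℤ) + 1) • C.o) by module, C.s_M_sub, C.s_M_sub, mul_comm]

theorem Phi_inf {e : A} (he : C.Inf e) (j : ℕ) :
    C.Phi (j + 1) e = (-1) ^ j * C.s e * C.S j * C.S (j + 1) := by
  induction j with
  | zero =>
    have h := he.s_mul_s_add C.o
    rw [C.Phi_succ, C.Phi_zero, C.S_zero, C.S_succ, C.S_zero]
    rw [show e + (((0 : ℕ) : ℤ) + 1) • C.o = C.o + e by push_cast; module,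
      show e - ((0 : ℕ) : ℤ) • C.o = e by push_cast; module,
      show (((0 : ℕ) : ℤ) + 1) • C.o = C.o by push_cast; module]
    linear_combination h
  | succ j ih =>
    have h1 := he.s_mul_s_add (((j + 1 : ℕ) : ℤ) • C.o + C.o)
    have h2 := he.s_mul_s_add (-(((j + 1 : ℕ) : ℤ) • C.o))
    rw [C.s_neg] at h2
    rw [C.Phi_succ (j + 1), ih, C.S_succ (j + 1), C.S_succ j,
      show e + (((j + 1 : ℕ) : ℤ) + 1) • C.o = ((j + 1 : ℕ) : ℤ) • C.o + C.o + e by
        push_cast; module,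
      show e - ((j + 1 : ℕ) : ℤ) • C.o = -(((j + 1 : ℕ) : ℤ) • C.o) + e by
        push_cast; module,
      show (((j + 1 : ℕ) : ℤ) + 1) • C.o = ((j + 1 : ℕ) : ℤ) • C.o + C.o by push_cast; module,
      show ((j : ℤ) + 1) • C.o = ((j + 1 : ℕ) : ℤ) • C.o by push_cast; module]
    linear_combination (-1) ^ j * C.S j * C.S j * C.s (((j + 1 : ℕ) : ℤ) • C.o) *
      (C.s (-(((j + 1 : ℕ) : ℤ) • C.o) + e) * h1 +
        C.s (((j + 1 : ℕ) : ℤ) • C.o + C.o) * h2)

/-- The coefficient of `s e` in `F e y`. -/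
noncomputable def B (y : A) : R :=
  ∑ j ∈ range (C.M - 1), (-1) ^ j * C.S j * C.S (j + 1) * C.Phi (j + 1) y * C.V (j + 1) ^ 4

theorem F_inf {e : A} (he : C.Inf e) (y : A) : C.F e y = 1 + C.s e * C.B y := by
  have hM := C.M_pos
  unfold F B
  obtain ⟨N, hN⟩ : ∃ N, C.M = N + 1 := ⟨C.M - 1, by omega⟩
  rw [hN, sum_range_succ', add_tsub_cancel_right, C.Phi_zero, C.Phi_zero, C.V_zero, mul_sum,
    add_comm]
  congr 1
  · ring
  · refine sum_congr rfl fun j _ => ?_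
    rw [C.Phi_inf he]
    ring

theorem F_top (y : A) :
    C.F (((C.M : ℤ) - 1) • C.o + C.ξ) y = 1 - C.s C.ξ * C.B y := by
  have h : C.F (((C.M : ℤ) - 1) • C.o + C.ξ) y = C.F (-C.ξ) y := by
    unfold F
    refine sum_congr rfl fun j _ => ?_
    rw [← C.Phi_reflect j (-C.ξ), sub_neg_eq_add]
  rw [h, C.F_inf C.inf_ξ.neg, C.s_neg]
  ring

/-- `∏_{i=1}^j s (y + i) s (y - i)` -/
def W (j : ℕ) (y : A) : R :=
  ∏ i ∈ range j, (C.s (y + ((i : ℤ) + 1) • C.o) * C.s (y - ((i : ℤ) + 1) • C.o))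

theorem W_zero (y : A) : C.W 0 y = 1 := by simp [W]

theorem W_succ (j : ℕ) (y : A) :
    C.W (j + 1) y = C.W j y * (C.s y ^ 2 - C.s (((j : ℤ) + 1) • C.o) ^ 2) := by
  unfold W
  rw [prod_range_succ, C.s_sq_sub]

theorem Phi_mul_s (j : ℕ) (y : A) :
    C.Phi j y * C.s (y - (j : ℤ) • C.o) = C.s y * C.W j y := by
  induction j with
  | zero => simp [C.Phi_zero, C.W_zero]
  | succ j ih =>
    unfold W at *
    rw [C.Phi_succ, prod_range_succ]
    push_cast
    linear_combination C.s (y + ((j : ℤ) + 1) • C.o) * C.s (y - ((j : ℤ) + 1) • C.o) * ih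

theorem B_step_aux (y : A) (n : ℕ) (hn : n < C.M) :
    C.s y * ∑ j ∈ range n, (-1) ^ j * C.S j * C.S (j + 1) *
      (C.Phi (j + 1) y - C.Phi (j + 1) (y - C.o)) * C.V (j + 1) ^ 4 =
    C.c y * (1 - (-1) ^ n * (C.V n ^ 2 * C.W n y)) := by
  induction n with
  | zero => simp [C.V_zero, C.W_zero]
  | succ n ih =>
    have h0 := ih (by omega)
    have h1 := C.S_mul_V hn
    have h2 := C.V_eq hn
    have h3 := C.Phi_mul_s n y
    have h4 := C.s_sub_s y (((n : ℤ) + 1) • C.o)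
    have h5 := C.W_succ n y
    have h6 := C.S_succ n
    rw [sum_range_succ, C.Phi_succ, C.Phi_succ_sub, h5, mul_add, h0, h2]
    have h7 : C.S n * C.s (((n : ℤ) + 1) • C.o) * C.V (n + 1) = 1 := by rw [← h6]; exact h1
    set σ := C.s (((n : ℤ) + 1) • C.o)
    set v := C.V (n + 1)
    rw [h6]
    have h8 : C.S n * (C.S n * σ) * σ * v ^ 4 = v ^ 2 := by
      linear_combination v ^ 2 * (C.S n * σ * v + 1) * h7
    linear_combination (-1) ^ n * C.s y * C.S n * (C.S n * σ) * v ^ 4 * C.Phi n y *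
        C.s (y - (n : ℤ) • C.o) * h4 +
      (-1) ^ n * C.s y * C.S n * (C.S n * σ) * v ^ 4 * σ * C.c y * h3 +
      (-1) ^ n * C.s y ^ 2 * C.c y * C.W n y * h8

end Cyc

end Pool.Agent.H25.RK
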