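import Pool.Agent.H25.RK.Rows

/-!
# The rows `l = 0` and `l = M - 1`, second part
-/

set_option autoImplicit false

open Finset

namespace Pool.Agent.H25.RK

namespace Cyc

variable {A R : Type*} [AddCommGroup A] [CommRing R] (C : Cyc A R)

theorem W_last {k : ℕ} (h0 : 0 < k) (h1 : k < C.M) :
    C.W (C.M - 1) ((k : ℤ) • C.o + C.η) = 0 := by
  unfold W
  rw [prod_mul_distrib]
  have a1 : ∃ r, ∏ i ∈ range (C.M - 1), C.s ((k : ℤ) • C.o + C.η + ((i : ℤ) + 1) • C.o) =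
      C.s C.η * r := by
    obtain ⟨r, hr⟩ := dvd_prod_of_mem
      (fun i : ℕ => C.s ((k : ℤ) • C.o + C.η + ((i : ℤ) + 1) • C.o))
      (mem_range.mpr (show C.M - k - 1 < C.M - 1 by omega))
    refine ⟨-r, ?_⟩
    rw [hr]
    have : C.s ((k : ℤ) • C.o + C.η + (((C.M - k - 1 : ℕ) : ℤ) + 1) • C.o) = -C.s C.η := by
      rw [← C.s_M_add]
      congr 1
      rw [show (((C.M - k - 1 : ℕ) : ℤ) + 1) = C.M - k by omega]
      module
    rw [this]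
    ring
  have a2 : ∃ r, ∏ i ∈ range (C.M - 1), C.s ((k : ℤ) • C.o + C.η - ((i : ℤ) + 1) • C.o) =
      C.s C.η * r := by
    obtain ⟨r, hr⟩ := dvd_prod_of_mem
      (fun i : ℕ => C.s ((k : ℤ) • C.o + C.η - ((i : ℤ) + 1) • C.o))
      (mem_range.mpr (show k - 1 < C.M - 1 by omega))
    refine ⟨r, ?_⟩
    rw [hr]
    have : C.s ((k : ℤ) • C.o + C.η - (((k - 1 : ℕ) : ℤ) + 1) • C.o) = C.s C.η := by
      congr 1
      rw [show (((k - 1 : ℕ) : ℤ) + 1) = k by omega]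
      module
    rw [this]
  obtain ⟨r1, h1⟩ := a1
  obtain ⟨r2, h2⟩ := a2
  rw [h1, h2]
  linear_combination r1 * r2 * C.inf_η.s_sq

theorem Phi_M {k : ℕ} (h1 : k < C.M) : C.Phi C.M ((k : ℤ) • C.o + C.η) = 0 := by
  unfold Phi
  rw [prod_mul_distrib]
  have a1 : ∃ r, ∏ i ∈ range C.M, C.s ((k : ℤ) • C.o + C.η + ((i : ℤ) + 1) • C.o) =
      C.s C.η * r := by
    obtain ⟨r, hr⟩ := dvd_prod_of_mem
      (fun i : ℕ => C.s ((k : ℤ) • C.o + C.η + ((i : ℤ) + 1) • C.o))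
      (mem_range.mpr (show C.M - k - 1 < C.M by omega))
    refine ⟨-r, ?_⟩
    rw [hr]
    have : C.s ((k : ℤ) • C.o + C.η + (((C.M - k - 1 : ℕ) : ℤ) + 1) • C.o) = -C.s C.η := by
      rw [← C.s_M_add]
      congr 1
      rw [show (((C.M - k - 1 : ℕ) : ℤ) + 1) = C.M - k by omega]
      module
    rw [this]
    ring
  have a2 : ∃ r, ∏ i ∈ range C.M, C.s ((k : ℤ) • C.o + C.η - (i : ℤ) • C.o) =
      C.s C.η * r := by
    obtain ⟨r, hr⟩ := dvd_prod_of_mem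
      (fun i : ℕ => C.s ((k : ℤ) • C.o + C.η - (i : ℤ) • C.o))
      (mem_range.mpr h1)
    refine ⟨r, ?_⟩
    rw [hr]
    have : C.s ((k : ℤ) • C.o + C.η - (k : ℤ) • C.o) = C.s C.η := by
      congr 1
      module
    rw [this]
  obtain ⟨r1, h1⟩ := a1
  obtain ⟨r2, h2⟩ := a2
  rw [h1, h2]
  linear_combination r1 * r2 * C.inf_η.s_sq

/-- The increments of `B`. -/
theorem B_step {k : ℕ} (h0 : 0 < k) (h1 : k < C.M) :
    C.s ((k : ℤ) • C.o + C.η) *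
      (C.B ((k : ℤ) • C.o + C.η) - C.B ((k : ℤ) • C.o + C.η - C.o)) =
    C.c ((k : ℤ) • C.o + C.η) := by
  have h := C.B_step_aux ((k : ℤ) • C.o + C.η) (C.M - 1) (by omega)
  rw [C.W_last h0 h1] at h
  have h2 : C.B ((k : ℤ) • C.o + C.η) - C.B ((k : ℤ) • C.o + C.η - C.o) =
      ∑ j ∈ range (C.M - 1), (-1) ^ j * C.S j * C.S (j + 1) *
      (C.Phi (j + 1) ((k : ℤ) • C.o + C.η) - C.Phi (j + 1) ((k : ℤ) • C.o + C.η - C.o)) *
        C.V (j + 1) ^ 4 := by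
    unfold B
    rw [← sum_sub_distrib]
    exact sum_congr rfl fun j _ => by ring
  rw [h2, h]
  ring

/-- `1 / s k` -/
noncomputable def v (k : ℤ) : R := Ring.inverse (C.s (k • C.o))

theorem s_mul_v {k : ℤ} (h0 : 0 < k) (h1 : k < C.M) : C.s (k • C.o) * C.v k = 1 :=
  Ring.mul_inverse_cancel _ (isUnit_s_int h0 h1)

theorem S_mul_V_succ {n : ℕ} (hn : n + 1 < C.M) : C.S n * C.V (n + 1) = C.v ((n : ℤ) + 1) := by
  have h1 := C.S_mul_V hn
  rw [C.S_succ] at h1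
  have h2 := C.s_mul_v (k := (n : ℤ) + 1) (by omega) (by omega)
  linear_combination C.v ((n : ℤ) + 1) * h1 - C.S n * C.V (n + 1) * h2

/-- The coefficient `β = ∑ 1 / s k ^ 2`. -/
noncomputable def β : R := ∑ j ∈ range (C.M - 1), C.v ((j : ℤ) + 1) ^ 2

theorem B_η : C.B C.η = C.s C.η * C.β := by
  unfold B β
  rw [mul_sum]
  refine sum_congr rfl fun j hj => ?_
  have hj' : j + 1 < C.M := by have := mem_range.mp hj; omega
  have h1 := C.S_mul_V hj'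
  rw [C.Phi_inf C.inf_η, ← C.S_mul_V_succ hj']
  have h2 : ((-1 : R) ^ j) * (-1) ^ j = 1 := by
    rw [← mul_pow]; norm_num
  linear_combination C.S j ^ 2 * C.S (j + 1) ^ 2 * C.V (j + 1) ^ 4 * C.s C.η * h2 +
    C.s C.η * C.S j ^ 2 * C.V (j + 1) ^ 2 * (C.S (j + 1) * C.V (j + 1) + 1) * h1

/-! ### The row `l = M - 1` -/

/-- `P = s 1 ⋯ s (M - 1)` -/
def P : R := C.S (C.M - 1)

/-- The normalized second sum. -/
noncomputable def G (l : ℤ) (l' : ℕ) : R :=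
  C.P ^ 2 * (1 - C.β * C.s C.ξ * C.s C.η) * C.H l l'

theorem H_top {k : ℕ} (hk : k < C.M) :
    C.H ((C.M : ℤ) - 1) k = (C.iS (C.M - 1 - k) (-C.η) * C.iS k (C.ξ + C.η)) ^ 2 := by
  unfold H
  obtain ⟨n, hn⟩ : ∃ n, C.M - k = n + 1 := ⟨C.M - k - 1, by omega⟩
  rw [hn, sum_range_succ', sum_eq_zero, zero_add]
  · unfold t
    rw [Nat.cast_zero, C.iS_zero, show (C.M : ℤ) - 1 - (C.M - 1) - 0 = 0 by ring, C.iS_zero,
      show (C.M : ℤ) - 1 - k - 0 = C.M - 1 - k by ring,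
      show (C.M : ℤ) - 1 + k - C.M + 1 + 0 = k by ring]
    ring
  · intro m _
    obtain ⟨r, hr⟩ := C.iS_neg_dvd (z := C.M - 1 - (C.M - 1) - ((m + 1 : ℕ) : ℤ)) (by
      push_cast; omega) (-C.ξ)
    unfold t
    rw [hr, C.s_neg]
    linear_combination (C.iS ((m + 1 : ℕ) : ℤ) 0 * r *
      C.iS (C.M - 1 - k - ((m + 1 : ℕ) : ℤ)) (-C.η) *
      C.iS (C.M - 1 + k - C.M + 1 + ((m + 1 : ℕ) : ℤ)) (C.ξ + C.η)) ^ 2 * C.inf_ξ.s_sq

/-- `∏_{i=1}^n s (i + e)` -/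
def Pi (n : ℕ) (e : A) : R := ∏ i ∈ range n, C.s (((i : ℤ) + 1) • C.o + e)

theorem Pi_mul_iS {n : ℕ} (hn : n < C.M) {e : A} (he : C.Nil e) : C.Pi n e * C.iS n e = 1 := by
  unfold Pi
  rw [C.iS_nat, ← prod_mul_distrib]
  refine prod_eq_one fun i hi => ?_
  have hi' := mem_range.mp hi
  exact Ring.mul_inverse_cancel _ (isUnit_s_add (by omega) (by omega) he)

theorem Pi_reflect (e : A) : C.Pi (C.M - 1) (-e) = C.Pi (C.M - 1) e := by
  unfold Pi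
  rw [← prod_range_reflect]
  refine prod_congr rfl fun i hi => ?_
  have hi' := mem_range.mp hi
  rw [← C.s_M_sub]
  congr 1
  rw [show ((C.M - 1 - 1 - i : ℕ) : ℤ) = C.M - 2 - i by omega]
  module

theorem Pi_mul_neg (n : ℕ) {e : A} (he : C.s e ^ 2 = 0) :
    C.Pi n e * C.Pi n (-e) = C.S n ^ 2 := by
  unfold Pi S
  rw [← prod_mul_distrib, ← prod_pow]
  refine prod_congr rfl fun i _ => ?_
  have := C.s_sq_sub (((i : ℤ) + 1) • C.o) e
  rw [← sub_eq_add_neg]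
  linear_combination -this - he

theorem G_top_zero : C.G ((C.M : ℤ) - 1) 0 = 1 - C.β * C.s C.ξ * C.s C.η := by
  unfold G
  rw [C.H_top C.M_pos]
  have h1 := C.Pi_mul_neg (C.M - 1) C.inf_η.s_sq
  have hM := C.M_pos
  have h2 := C.Pi_mul_iS (n := C.M - 1) (by omega) C.inf_η.neg.nil
  have h3 := C.Pi_reflect C.η
  rw [show ((C.M - 1 : ℕ) : ℤ) = C.M - 1 by omega] at h2
  rw [Nat.cast_zero, C.iS_zero, sub_zero]
  unfold P
  rw [← h1, ← h3]
  linear_combination (1 - C.β * C.s C.ξ * C.s C.η) *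
    (C.Pi (C.M - 1) (-C.η) * C.iS (C.M - 1) (-C.η) + 1) * h2

theorem H_top_step {k : ℕ} (h0 : 0 < k) (hk : k < C.M) :
    C.H ((C.M : ℤ) - 1) k * C.s ((k : ℤ) • C.o + C.η + C.ξ) ^ 2 =
      C.H ((C.M : ℤ) - 1) (k - 1) * C.s ((k : ℤ) • C.o + C.η) ^ 2 := by
  rw [C.H_top hk, C.H_top (by omega)]
  have h1 := C.iS_step_neg (z := k) (by omega) C.inf_η.nil
  have h2 := C.iS_sub_one (z := k) (by omega) (C.inf_ξ.nil_add C.inf_η)
  rw [show ((k - 1 : ℕ) : ℤ) = k - 1 by omega, h2,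
    show (C.M : ℤ) - 1 - k = C.M - k - 1 by ring, h1,
    show (C.M : ℤ) - 1 - (k - 1) = C.M - k by ring,
    show (k : ℤ) • C.o + (C.ξ + C.η) = (k : ℤ) • C.o + C.η + C.ξ by module]
  ring

theorem s_mul_G_top {k : ℕ} (hk : k < C.M) : C.s C.ξ * C.G ((C.M : ℤ) - 1) k = C.s C.ξ := by
  induction k with
  | zero =>
    rw [C.G_top_zero]
    linear_combination -C.β * C.s C.η * C.inf_ξ.s_sq
  | succ k ih =>
    have h1 := C.H_top_step (k := k + 1) (by omega) hk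
    rw [add_tsub_cancel_right] at h1
    have h0 := ih (by omega)
    have hu : IsUnit (C.s (((k + 1 : ℕ) : ℤ) • C.o + C.η)) :=
      isUnit_s_add (by omega) (by omega) C.inf_η.nil
    have h2 := C.inf_ξ.s_mul_s_add (((k + 1 : ℕ) : ℤ) • C.o + C.η)
    apply (hu.pow 2).mul_right_cancel
    unfold G at *
    linear_combination C.s (((k + 1 : ℕ) : ℤ) • C.o + C.η) ^ 2 * h0 +
      C.s C.ξ * C.P ^ 2 * (1 - C.β * C.s C.ξ * C.s C.η) * h1 -
      C.P ^ 2 * (1 - C.β * C.s C.ξ * C.s C.η) * C.H ((C.M : ℤ) - 1) ((k + 1 : ℕ)) *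
        (C.s (((k + 1 : ℕ) : ℤ) • C.o + C.η + C.ξ) + C.s (((k + 1 : ℕ) : ℤ) • C.o + C.η)) * h2

theorem G_top_step {k : ℕ} (h0 : 0 < k) (hk : k < C.M) :
    C.s ((k : ℤ) • C.o + C.η) * (C.G ((C.M : ℤ) - 1) k - C.G ((C.M : ℤ) - 1) (k - 1)) =
      -(C.s C.ξ * C.c ((k : ℤ) • C.o + C.η)) := by
  have h1 := C.H_top_step h0 hk
  have h2 := C.s_mul_G_top (k := k - 1) (by omega)
  have hu : IsUnit (C.s ((k : ℤ) • C.o + C.η)) := isUnit_s_add (by omega) (by omega) C.inf_η.nil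
  have hu' : IsUnit (C.s ((k : ℤ) • C.o + C.η + C.ξ)) := by
    have := isUnit_s_add (C := C) (k := k) (by omega) (by omega) (C.inf_η.nil_add C.inf_ξ)
    rwa [← add_assoc] at this
  have h3 := C.s_sq_sub ((k : ℤ) • C.o + C.η + C.ξ) ((k : ℤ) • C.o + C.η)
  rw [add_sub_cancel_left, show (k : ℤ) • C.o + C.η + C.ξ + ((k : ℤ) • C.o + C.η) =
    (k : ℤ) • C.o + C.η + ((k : ℤ) • C.o + C.η) + C.ξ by abel] at h3
  have h4 := C.inf_ξ.s_mul_s_add ((k : ℤ) • C.o + C.η + ((k : ℤ) • C.o + C.η))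
  have h5 := C.s_two ((k : ℤ) • C.o + C.η)
  have h6 := C.inf_ξ.s_mul_s_add ((k : ℤ) • C.o + C.η)
  apply (hu'.pow 2).mul_right_cancel
  unfold G at *
  set y := (k : ℤ) • C.o + C.η
  set p := C.P ^ 2 * (1 - C.β * C.s C.ξ * C.s C.η)
  linear_combination C.s y * p * h1 - C.s y * p * C.H ((C.M : ℤ) - 1) (k - 1) * (h3 + h4) -
    C.s y * C.s (y + y) * h2 - C.s y * C.s C.ξ * h5 +
    C.c y * (C.s (y + C.ξ) + C.s y) * h6

end Cyc

end Pool.Agent.H25.RK
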