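import Pool.Agent.H25.RK.Rows2

/-!
# The row `l = 0` of the second sum
-/

set_option autoImplicit false

open Finset

namespace Pool.Agent.H25.RK

namespace Cyc

variable {A R : Type*} [AddCommGroup A] [CommRing R] (C : Cyc A R)

theorem Pi_zero (e : A) : C.Pi 0 e = 1 := by simp [Pi]

theorem Pi_succ (n : ℕ) (e : A) :
    C.Pi (n + 1) e = C.Pi n e * C.s (((n : ℤ) + 1) • C.o + e) := by
  unfold Pi; rw [prod_range_succ]

theorem Pi_S (n : ℕ) : C.Pi n 0 = C.S n := by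
  unfold Pi S; simp

theorem s_mul_Pi {e : A} (he : C.Inf e) (x : A) (n : ℕ) :
    C.s e * C.Pi n (x + e) = C.s e * C.Pi n x := by
  induction n with
  | zero => rw [C.Pi_zero, C.Pi_zero]
  | succ n ih =>
    have h := he.s_mul_s_add (((n : ℤ) + 1) • C.o + x)
    rw [C.Pi_succ, C.Pi_succ, show ((n : ℤ) + 1) • C.o + (x + e) =
      ((n : ℤ) + 1) • C.o + x + e by abel]
    linear_combination C.s (((n : ℤ) + 1) • C.o + x + e) * ih + C.Pi n x * h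

theorem iS_V {n : ℕ} (hn : n < C.M) : C.iS n 0 = C.V n := by
  have h1 := C.Pi_mul_iS hn nil_zero
  rw [C.Pi_S] at h1
  have h2 := C.S_mul_V hn
  linear_combination C.V n * h1 - C.iS n 0 * h2

theorem s_mul_iS {e : A} (he : C.Inf e) {n : ℕ} (hn : n < C.M) :
    C.s e * C.iS n e = C.s e * C.V n := by
  have h1 := C.Pi_mul_iS hn he.nil
  have h2 := C.S_mul_V hn
  have h3 := C.s_mul_Pi he 0 n
  rw [zero_add, C.Pi_S] at h3
  linear_combination -C.s e * C.iS n e * h2 + C.s e * C.V n * h1 - C.V n * C.iS n e * h3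

theorem iS_neg_sq (n : ℕ) (e : A) :
    C.iS (-((n + 1 : ℕ) : ℤ)) e ^ 2 = C.s e ^ 2 * C.Pi n (-e) ^ 2 := by
  rw [C.iS_neg, prod_range_succ', Nat.cast_zero, zero_smul, sub_zero]
  have : (∏ i ∈ range n, C.s (e - ((i + 1 : ℕ) : ℤ) • C.o)) ^ 2 = C.Pi n (-e) ^ 2 := by
    unfold Pi
    rw [← prod_pow, ← prod_pow]
    refine prod_congr rfl fun i _ => ?_
    rw [show e - ((i + 1 : ℕ) : ℤ) • C.o = -(((i : ℤ) + 1) • C.o + -e) by push_cast; module,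
      C.s_neg]
    ring
  linear_combination C.s e ^ 2 * this

theorem S_mul_S {k : ℕ} (hk : k < C.M) : C.S k * C.S (C.M - 1 - k) = C.P := by
  unfold P
  induction k with
  | zero => rw [C.S_zero, one_mul, Nat.sub_zero]
  | succ k ih =>
    rw [← ih (by omega), show C.M - 1 - k = C.M - 1 - (k + 1) + 1 by omega, C.S_succ, C.S_succ]
    have : C.s ((((C.M - 1 - (k + 1) : ℕ) : ℤ) + 1) • C.o) = C.s (((k : ℤ) + 1) • C.o) := by
      rw [← C.s_M_sub]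
      congr 1
      rw [show (((C.M - 1 - (k + 1) : ℕ) : ℤ) + 1) = C.M - k - 1 by omega]
      module
    rw [this]
    ring

theorem P_mul_V_V {a b : ℕ} (h : a + b + 1 = C.M) : C.P * C.V a * C.V b = 1 := by
  have h1 := C.S_mul_S (k := a) (by omega)
  rw [show C.M - 1 - a = b by omega] at h1
  have h2 := C.S_mul_V (n := a) (by omega)
  have h3 := C.S_mul_V (n := b) (by omega)
  rw [← h1]
  linear_combination C.S b * C.V b * h2 + h3

/-- The main term of the row. -/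
noncomputable def g (k : ℕ) : R := (C.S k * C.iS k (-C.ξ)) ^ 2

theorem P_mul_H_bot {k : ℕ} (hk : k < C.M) :
    C.P ^ 2 * C.H 0 k = C.g k +
      2 * C.s C.ξ * C.s C.η * ∑ n ∈ range (C.M - 1 - k), C.v ((n : ℤ) + 1) ^ 2 := by
  unfold H
  obtain ⟨N, hN⟩ : ∃ N, C.M - k = N + 1 := ⟨C.M - k - 1, by omega⟩
  rw [hN, ← sum_range_reflect, sum_range_succ', mul_add, add_comm]
  congr 1
  · -- the last term
    rw [show N + 1 - 1 - 0 = N by omega]
    unfold t g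
    rw [C.iS_V (by omega), show (C.M : ℤ) - 1 - 0 - N = k by omega,
      show (C.M : ℤ) - 1 - k - N = 0 by omega, show 0 + (k : ℤ) - C.M + 1 + N = 0 by omega,
      C.iS_zero, C.iS_zero]
    have h1 := C.S_mul_S hk
    have h2 := C.S_mul_V (n := N) (by omega)
    rw [show C.M - 1 - k = N by omega] at h1
    rw [← h1]
    linear_combination C.S k ^ 2 * C.iS k (-C.ξ) ^ 2 * (C.S N * C.V N + 1) * h2
  · rw [show C.M - 1 - k = N by omega, mul_sum, mul_sum]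
    refine sum_congr rfl fun n hn => ?_
    have hn' := mem_range.mp hn
    rw [show N + 1 - 1 - (n + 1) = N - (n + 1) by omega]
    unfold t
    rw [C.iS_V (n := N - (n + 1)) (by omega),
      show (C.M : ℤ) - 1 - 0 - ((N - (n + 1) : ℕ) : ℤ) = ((k + n + 1 : ℕ) : ℤ) by omega,
      show (C.M : ℤ) - 1 - k - ((N - (n + 1) : ℕ) : ℤ) = ((n + 1 : ℕ) : ℤ) by omega,
      show 0 + (k : ℤ) - C.M + 1 + ((N - (n + 1) : ℕ) : ℤ) = -((n + 1 : ℕ) : ℤ) by omega,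
      mul_pow, C.iS_neg_sq, C.inf_ξ.s_add_sq C.inf_η]
    have h1 := C.s_mul_iS C.inf_ξ.neg (n := k + n + 1) (by omega)
    have h2 := C.s_mul_iS C.inf_η.neg (n := n + 1) (by omega)
    have h3 := C.s_mul_Pi C.inf_ξ.neg (-C.η) n
    have h4 := C.s_mul_Pi C.inf_η.neg 0 n
    rw [C.s_neg] at h1 h2 h3 h4
    rw [zero_add, C.Pi_S] at h4
    rw [show -(C.ξ + C.η) = -C.η + -C.ξ by abel]
    have h5 := C.P_mul_V_V (a := N - (n + 1)) (b := k + n + 1) (by omega)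
    have h6 := C.S_mul_V_succ (n := n) (by omega)
    rw [← h6]
    set x1 := C.iS ((k + n + 1 : ℕ) : ℤ) (-C.ξ)
    set x2 := C.iS ((n + 1 : ℕ) : ℤ) (-C.η)
    set x3 := C.Pi n (-C.η + -C.ξ)
    set x4 := C.Pi n (-C.η)
    set a := C.V (N - (n + 1))
    set b := C.V (k + n + 1)
    set c := C.V (n + 1)
    set d := C.S n
    -- squares
    have g1 : C.s C.ξ * x1 ^ 2 = C.s C.ξ * b ^ 2 := by
      linear_combination -(x1 + b) * h1
    have g2 : C.s C.η * x2 ^ 2 = C.s C.η * c ^ 2 := by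
      linear_combination -(x2 + c) * h2
    have g3 : C.s C.ξ * x3 ^ 2 = C.s C.ξ * x4 ^ 2 := by
      linear_combination -(x3 + x4) * h3
    have g4 : C.s C.η * x4 ^ 2 = C.s C.η * d ^ 2 := by
      linear_combination -(x4 + d) * h4
    linear_combination C.P ^ 2 * a ^ 2 * x2 ^ 2 * 2 * C.s C.η * x1 ^ 2 * g3 +
      C.P ^ 2 * a ^ 2 * x2 ^ 2 * 2 * C.s C.ξ * x1 ^ 2 * g4 +
      C.P ^ 2 * a ^ 2 * x2 ^ 2 * 2 * C.s C.η * d ^ 2 * g1 +
      C.P ^ 2 * a ^ 2 * b ^ 2 * 2 * C.s C.ξ * d ^ 2 * g2 +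
      2 * C.s C.ξ * C.s C.η * c ^ 2 * d ^ 2 * (C.P * a * b + 1) * h5

theorem s_mul_g {k : ℕ} (hk : k < C.M) : C.s C.ξ * C.g k = C.s C.ξ := by
  have h1 := C.s_mul_iS C.inf_ξ.neg hk
  have h2 := C.S_mul_V hk
  rw [C.s_neg] at h1
  unfold g
  linear_combination -C.S k ^ 2 * (C.iS k (-C.ξ) + C.V k) * h1 +
    C.s C.ξ * (C.S k * C.V k + 1) * h2

theorem G_bot {k : ℕ} (hk : k < C.M) :
    C.G 0 k = C.g k - C.β * C.s C.ξ * C.s C.η +
      2 * C.s C.ξ * C.s C.η * ∑ n ∈ range (C.M - 1 - k), C.v ((n : ℤ) + 1) ^ 2 := by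
  have h1 := C.P_mul_H_bot hk
  have h2 := C.s_mul_g hk
  have h3 := C.inf_ξ.s_sq
  unfold G
  linear_combination (1 - C.β * C.s C.ξ * C.s C.η) * h1 - C.β * C.s C.η * h2 -
    2 * C.β * C.s C.η ^ 2 * (∑ n ∈ range (C.M - 1 - k), C.v ((n : ℤ) + 1) ^ 2) * h3

theorem G_bot_zero : C.G 0 0 = 1 + C.β * C.s C.ξ * C.s C.η := by
  rw [C.G_bot C.M_pos]
  unfold g β
  rw [C.S_zero, Nat.cast_zero, C.iS_zero, Nat.sub_zero]
  ring

theorem g_step {k : ℕ} (h0 : 0 < k) (hk : k < C.M) :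
    C.g k * C.s ((k : ℤ) • C.o - C.ξ) ^ 2 = C.g (k - 1) * C.s ((k : ℤ) • C.o) ^ 2 := by
  have h2 := C.iS_sub_one (z := k) (by omega) C.inf_ξ.neg.nil
  have h3 := C.S_succ (k - 1)
  rw [show k - 1 + 1 = k by omega, show ((k - 1 : ℕ) : ℤ) + 1 = k by omega] at h3
  unfold g
  rw [show ((k - 1 : ℕ) : ℤ) = k - 1 by omega, h2, h3, ← sub_eq_add_neg]
  ring

theorem G_bot_step {k : ℕ} (h0 : 0 < k) (hk : k < C.M) :
    C.s ((k : ℤ) • C.o + C.η) * (C.G 0 k - C.G 0 (k - 1)) =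
      C.s C.ξ * C.c ((k : ℤ) • C.o + C.η) := by
  have h1 := C.g_step h0 hk
  have h2 := C.s_mul_g (k := k - 1) (by omega)
  have hu : IsUnit (C.s ((k : ℤ) • C.o - C.ξ)) := by
    have := isUnit_s_add (C := C) (k := k) (by omega) (by omega) C.inf_ξ.neg.nil
    rwa [← sub_eq_add_neg] at this
  have hv := C.s_mul_v (k := k) (by omega) (by omega)
  have h3 := C.s_sq_sub ((k : ℤ) • C.o) ((k : ℤ) • C.o - C.ξ)
  rw [sub_sub_cancel, show (k : ℤ) • C.o + ((k : ℤ) • C.o - C.ξ) =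
    (k : ℤ) • C.o + (k : ℤ) • C.o - C.ξ by abel] at h3
  have h4 := C.inf_ξ.s_mul_s_sub ((k : ℤ) • C.o + (k : ℤ) • C.o)
  have h5 := C.s_two ((k : ℤ) • C.o)
  have h6 := C.inf_ξ.s_mul_s_sub ((k : ℤ) • C.o)
  -- the increment of `g`
  have h7 : C.g k - C.g (k - 1) = C.s C.ξ * C.c ((k : ℤ) • C.o) * C.v k := by
    apply (hu.pow 2).mul_right_cancel
    set a := C.s ((k : ℤ) • C.o)
    set a' := C.s ((k : ℤ) • C.o - C.ξ)
    linear_combination h1 + C.g (k - 1) * (h3 + h4) +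
      C.s ((k : ℤ) • C.o + (k : ℤ) • C.o) * h2 + C.s C.ξ * h5 -
      C.c ((k : ℤ) • C.o) * C.v k * (a' + a) * h6 - C.s C.ξ * a * C.c ((k : ℤ) • C.o) * hv
  have h8 : C.v ((C.M : ℤ) - k) = C.v k := by
    unfold v
    rw [← C.s_M_sub]
    congr 2
    module
  have h9 : ∑ n ∈ range (C.M - 1 - (k - 1)), C.v ((n : ℤ) + 1) ^ 2 =
      ∑ n ∈ range (C.M - 1 - k), C.v ((n : ℤ) + 1) ^ 2 + C.v k ^ 2 := by
    rw [show C.M - 1 - (k - 1) = C.M - 1 - k + 1 by omega, sum_range_succ,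
      show ((C.M - 1 - k : ℕ) : ℤ) + 1 = C.M - k by omega, h8]
  rw [C.G_bot hk, C.G_bot (by omega), h9]
  have h10 := C.inf_η.s_mul_s_add ((k : ℤ) • C.o)
  have h11 := C.s_add_s ((k : ℤ) • C.o + C.η) ((k : ℤ) • C.o)
  have h12 := C.s_add_s ((k : ℤ) • C.o) ((k : ℤ) • C.o + C.η)
  rw [add_sub_cancel_left] at h11
  rw [show (k : ℤ) • C.o + ((k : ℤ) • C.o + C.η) = (k : ℤ) • C.o + C.η + (k : ℤ) • C.o by abel,
    show (k : ℤ) • C.o - ((k : ℤ) • C.o + C.η) = -C.η by abel, C.s_neg] at h12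
  set y := (k : ℤ) • C.o + C.η
  set x := (k : ℤ) • C.o
  linear_combination C.s y * h7 - 2 * C.s C.ξ * C.v k ^ 2 * h10 -
    2 * C.s C.ξ * C.s C.η * C.v k * hv + C.s C.ξ * C.v k * (h12 - h11) +
    C.s C.ξ * C.c y * hv

end Cyc

end Pool.Agent.H25.RK
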