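import Mathlib

/-!
# Abstract trigonometric functions

`T : TD A R` consists of a homomorphism `E` of an additive group `A` (the angles) to the
multiplicative monoid of a commutative ring `R` and a square root `κ` of `-1`;
`s a = κ (E a - E (-a))` plays the role of `2 sin a` and `c a = E a + E (-a)` of `2 cos a`.
-/

set_option autoImplicit false

namespace Pool.Agent.H25.RK

/-- Abstract exponentials. -/
structure TD (A R : Type*) [AddCommGroup A] [CommRing R] where
  E : A → R
  κ : R
  E_zero : E 0 = 1
  E_add : ∀ a b, E (a + b) = E a * E b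
  κ_sq : κ * κ = -1

namespace TD

variable {A R : Type*} [AddCommGroup A] [CommRing R] (T : TD A R)

/-- `2 sin a`. -/
def s (a : A) : R := T.κ * (T.E a - T.E (-a))

/-- `2 cos a`. -/
def c (a : A) : R := T.E a + T.E (-a)

theorem E_mul_neg (a : A) : T.E a * T.E (-a) = 1 := by
  rw [← T.E_add, add_neg_cancel, T.E_zero]

theorem E_sub (a b : A) : T.E (a - b) = T.E a * T.E (-b) := by
  rw [sub_eq_add_neg, T.E_add]

theorem E_neg_sub (a b : A) : T.E (-(a - b)) = T.E (-a) * T.E b := by
  rw [show -(a - b) = -a + b by abel, T.E_add]

theorem E_neg_add (a b : A) : T.E (-(a + b)) = T.E (-a) * T.E (-b) := by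
  rw [neg_add, T.E_add]

theorem s_neg (a : A) : T.s (-a) = -T.s a := by
  unfold s; rw [neg_neg]; ring

theorem c_neg (a : A) : T.c (-a) = T.c a := by
  unfold c; rw [neg_neg]; ring

theorem s_zero : T.s 0 = 0 := by
  unfold s; rw [neg_zero]; ring

theorem c_zero : T.c 0 = 2 := by
  unfold c; rw [neg_zero, T.E_zero]; ring

/-- Ptolemy's theorem. -/
theorem ptolemy (x y z : A) :
    T.s (x + z) * T.s (y + z) = T.s z * T.s (x + y + z) + T.s x * T.s y := by
  have hx := T.E_mul_neg x
  have hy := T.E_mul_neg y
  have hz := T.E_mul_neg z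
  unfold s
  simp only [T.E_neg_add, T.E_add]
  linear_combination
    T.κ ^ 2 * (T.E x * T.E y + T.E (-x) * T.E (-y) - T.E x * T.E (-y) - T.E (-x) * T.E y) * hz

theorem s_add_s (x y : A) : T.s (x + y) + T.s (x - y) = T.s x * T.c y := by
  unfold s c
  rw [T.E_neg_add, T.E_add, T.E_sub, T.E_neg_sub]
  ring

theorem s_sub_s (x y : A) : T.s (x + y) - T.s (x - y) = T.s y * T.c x := by
  have h := T.s_add_s y x
  rw [show y + x = x + y by abel, show y - x = -(x - y) by abel, T.s_neg] at h
  linear_combination h

theorem c_add_c (x y : A) : T.c (x + y) + T.c (x - y) = T.c x * T.c y := by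
  unfold c
  rw [T.E_neg_add, T.E_add, T.E_sub, T.E_neg_sub]
  ring

theorem s_two (x : A) : T.s (x + x) = T.s x * T.c x := by
  have h := T.s_add_s x x
  rw [sub_self, T.s_zero, add_zero] at h
  exact h

theorem s_sq_sub (x y : A) : T.s x ^ 2 - T.s y ^ 2 = T.s (x + y) * T.s (x - y) := by
  have h := T.ptolemy y (-y) x
  rw [show y + x = x + y by abel, show -y + x = x - y by abel, show y + -y + x = x by abel,
    T.s_neg] at h
  linear_combination -h

theorem c_sq (x : A) : T.c x ^ 2 + T.s x ^ 2 = 4 := by
  unfold c s
  linear_combination 4 * T.E_mul_neg x + (T.E x - T.E (-x)) ^ 2 * T.κ_sq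

theorem c_mul_c (x y : A) : T.c (x + y) * T.c (x - y) = T.c x ^ 2 - T.s y ^ 2 := by
  have h1 := T.c_sq y
  have h2 := T.c_sq x
  have h3 : T.c (x + y) * T.c (x - y) = T.c (x + x) + T.c (y + y) := by
    rw [← T.c_add_c, show x + y + (x - y) = x + x by abel, show x + y - (x - y) = y + y by abel]
  have h4 : ∀ z, T.c (z + z) = T.c z ^ 2 - 2 := by
    intro z
    have := T.c_add_c z z
    rw [sub_self, T.c_zero] at this
    linear_combination this
  rw [h3, h4, h4]
  linear_combination h1

/-- The identity behind the recurrence for the state sum. -/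
theorem cubic (x w o : A) :
    T.s (x + o) ^ 3 * T.s (x + w) - T.s x ^ 3 * T.s (x + o - w) =
      T.s (x + x + o) * (T.s (w + o) * T.s (x + o - w) * T.s (x + w) + T.s w ^ 3) := by
  -- `a⁺ p = a q + d w`
  have h1 : T.s (x + o) * T.s (x + w) = T.s x * T.s (x + o - w) + T.s (x + x + o) * T.s w := by
    have h := T.ptolemy (x + o) w x
    have h' := T.ptolemy (x + o - w) (-w) (x + w)
    have e1 := T.ptolemy w o x
    have e2 := T.ptolemy (-w) (x + o) x
    rw [show x + o + x = x + x + o by abel, show w + x = x + w by abel,
      show x + o + w + x = x + x + o + w by abel] at h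
    rw [show -w + x = x - w by abel, show x + o + x = x + x + o by abel,
      show -w + (x + o) + x = x + x + o - w by abel, T.s_neg] at e2
    have f1 := T.ptolemy (x + o - w) (-x) (x + w)
    rw [show x + o - w + (x + w) = x + x + o by abel, show -x + (x + w) = w by abel,
      show x + o - w + -x + (x + w) = x + o by abel, T.s_neg] at f1
    linear_combination -f1
  have h2 : T.s (x + o) ^ 2 - T.s x ^ 2 = T.s (x + x + o) * T.s o := by
    have := T.s_sq_sub (x + o) x
    rwa [show x + o + x = x + x + o by abel, show x + o - x = o by abel] at this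
  have h3 : T.s (x + o) ^ 2 - T.s w ^ 2 = T.s (x + o + w) * T.s (x + o - w) :=
    T.s_sq_sub (x + o) w
  have h4 : T.s (w + o) * T.s (x + w) = T.s w * T.s (x + o + w) + T.s o * T.s x := by
    have := T.ptolemy o x w
    rwa [show o + w = w + o by abel, show o + x + w = x + o + w by abel] at this
  linear_combination T.s (x + o) ^ 2 * h1 + T.s x * T.s (x + o - w) * h2 +
    T.s (x + x + o) * T.s w * h3 - T.s (x + x + o) * T.s (x + o - w) * h4

/-- `(★★)` -/
theorem star_star (x y w o : A) :
    T.s (x + o) ^ 2 * T.s (x + w) * T.s (x + w + o) -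
        T.s x ^ 2 * T.s (x + y + w + o) * T.s (x + y + w + o + o) -
        T.s (y + o) * (T.s w * T.s (x + y + w + o) * T.s (x + o) +
          T.s x * T.s w * T.s (x + y + w + o + o) + T.s x * T.s (x + o) * T.s (y + o)) +
        T.s y * T.s (x + x + o) * T.s (x + w) * T.s (x + y + w + o + o) = 0 := by
  have h1 : T.s y * T.s (x + y + w + o + o) =
      T.s (y + o) * T.s (x + y + w + o) - T.s o * T.s (x + w + o) := by
    have := T.ptolemy o (x + w + o) y
    rw [show o + y = y + o by abel, show x + w + o + y = x + y + w + o by abel,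
      show o + (x + w + o) + y = x + y + w + o + o by abel] at this
    linear_combination -this
  have h2 : T.s o * T.s (x + x + o) = T.s (x + o) ^ 2 - T.s x ^ 2 := by
    have := T.s_sq_sub (x + o) x
    rw [show x + o + x = x + x + o by abel, show x + o - x = o by abel] at this
    linear_combination -this
  have h3 : T.s (x + y + w + o) * T.s (x + y + w + o + o) - T.s (x + w) * T.s (x + w + o) =
      T.s (y + o) * T.s (x + x + w + w + y + o + o) := by
    have := T.ptolemy (x + w) (x + w + o) (y + o)
    rw [show x + w + (y + o) = x + y + w + o by abel,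
      show x + w + o + (y + o) = x + y + w + o + o by abel,
      show x + w + (x + w + o) + (y + o) = x + x + w + w + y + o + o by abel] at this
    linear_combination this
  have h4 : T.s (x + x + o) * T.s (x + w) =
      T.s (x + o) * T.s w + T.s x * T.s (x + x + w + o) := by
    have := T.ptolemy (x + o) w x
    rw [show x + o + x = x + x + o by abel, show w + x = x + w by abel,
      show x + o + w + x = x + x + w + o by abel] at this
    linear_combination this
  have h5 : T.s (x + x + w + o) * T.s (x + y + w + o) - T.s (y + w + o) * T.s (x + w + o) =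
      T.s x * T.s (x + x + w + w + y + o + o) := by
    have := T.ptolemy (x + w + o) (y + w + o) x
    rw [show x + w + o + x = x + x + w + o by abel, show y + w + o + x = x + y + w + o by abel,
      show x + w + o + (y + w + o) + x = x + x + w + w + y + o + o by abel] at this
    linear_combination this
  have h6 : T.s (y + w + o) * T.s (x + w + o) =
      T.s w * T.s (x + y + w + o + o) + T.s (x + o) * T.s (y + o) := by
    have := T.ptolemy (y + o) (x + o) w
    rw [show y + o + w = y + w + o by abel, show x + o + w = x + w + o by abel,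
      show y + o + (x + o) + w = x + y + w + o + o by abel] at this
    linear_combination this
  linear_combination T.s (x + x + o) * T.s (x + w) * h1 - T.s (x + w) * T.s (x + w + o) * h2 -
    T.s x ^ 2 * h3 + T.s (y + o) * T.s (x + y + w + o) * h4 + T.s (y + o) * T.s x * h5 +
    T.s (y + o) * T.s x * h6

/-- The certificate. -/
def Q (x y w o : A) : R :=
  -(T.c (x + o) * T.s x * T.s (x + y + w + o) ^ 2) + T.c x * T.s (x + o) * T.s (x + w) ^ 2 -
    T.c x * T.c (x + o) * T.s (y + o) * T.s (x + w) * T.s (x + y + w + o)

/-- `(★)` -/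
theorem star (x y w o : A) :
    T.c x * T.s (x + o) ^ 3 * (T.s (x + w + o) ^ 2 - T.s (x + y + w + o + o) ^ 2) *
        T.s (x + w) ^ 2 +
      T.c (x + o) * T.s x ^ 3 * (T.s (x + y + w + o) ^ 2 - T.s (x + w) ^ 2) *
        T.s (x + y + w + o + o) ^ 2 -
      T.s y * T.s (y + o) * T.c x * T.c (x + o) * T.s (x + x + o) * T.s (x + w) ^ 2 *
        T.s (x + y + w + o + o) ^ 2 =
    T.Q x y (w + o) o * T.s (y + w + o) ^ 2 * T.s (x + w) ^ 2 -
      T.Q x y w o * T.s w ^ 2 * T.s (x + y + w + o + o) ^ 2 := by
  have hs := T.star_star x y w o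
  have g1 : T.s (y + w + o) * T.s (x + w) =
      T.s w * T.s (x + y + w + o) + T.s x * T.s (y + o) := by
    have := T.ptolemy (y + o) x w
    rw [show y + o + w = y + w + o by abel,
      show y + o + x + w = x + y + w + o by abel] at this
    linear_combination this
  have g2 : T.s (y + w + o) * T.s (x + w + o) =
      T.s w * T.s (x + y + w + o + o) + T.s (x + o) * T.s (y + o) := by
    have := T.ptolemy (y + o) (x + o) w
    rw [show y + o + w = y + w + o by abel, show x + o + w = x + w + o by abel,
      show y + o + (x + o) + w = x + y + w + o + o by abel] at this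
    linear_combination this
  have g3 : T.s (x + w + o) ^ 2 - T.s (x + y + w + o + o) ^ 2 =
      -(T.s (x + x + y + w + w + o + o + o) * T.s (y + o)) := by
    have := T.s_sq_sub (x + w + o) (x + y + w + o + o)
    rw [show x + w + o + (x + y + w + o + o) = x + x + y + w + w + o + o + o by abel,
      show x + w + o - (x + y + w + o + o) = -(y + o) by abel, T.s_neg] at this
    linear_combination this
  have g4 : T.s (x + y + w + o) ^ 2 - T.s (x + w) ^ 2 =
      T.s (x + x + y + w + w + o) * T.s (y + o) := by
    have := T.s_sq_sub (x + y + w + o) (x + w)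
    rwa [show x + y + w + o + (x + w) = x + x + y + w + w + o by abel,
      show x + y + w + o - (x + w) = y + o by abel] at this
  have g5 : T.s (y + o) + T.s (x + x + y + w + w + o + o + o) =
      T.s (x + y + w + o + o) * T.c (x + w + o) := by
    have := T.s_add_s (x + y + w + o + o) (x + w + o)
    rw [show x + y + w + o + o + (x + w + o) = x + x + y + w + w + o + o + o by abel,
      show x + y + w + o + o - (x + w + o) = y + o by abel] at this
    linear_combination this
  have g6 : T.s (y + o) + T.s (x + x + y + w + w + o) =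
      T.s (x + y + w + o) * T.c (x + w) := by
    have := T.s_add_s (x + y + w + o) (x + w)
    rw [show x + y + w + o + (x + w) = x + x + y + w + w + o by abel,
      show x + y + w + o - (x + w) = y + o by abel] at this
    linear_combination this
  have g7 : 2 * T.s w + T.s (x + o) * T.c (x + w + o) = T.s (x + w + o) * T.c (x + o) := by
    have a1 := T.s_add_s (x + o) (x + w + o)
    have a2 := T.s_add_s (x + w + o) (x + o)
    rw [show x + o + (x + w + o) = x + w + o + (x + o) by abel,
      show x + o - (x + w + o) = -w by abel, T.s_neg] at a1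
    rw [show x + w + o - (x + o) = w by abel] at a2
    linear_combination a2 - a1
  have g8 : 2 * T.s w + T.s x * T.c (x + w) = T.s (x + w) * T.c x := by
    have a1 := T.s_add_s x (x + w)
    have a2 := T.s_add_s (x + w) x
    rw [show x + (x + w) = x + w + x by abel,
      show x - (x + w) = -w by abel, T.s_neg] at a1
    rw [show x + w - x = w by abel] at a2
    linear_combination a2 - a1
  unfold Q
  rw [show x + (w + o) = x + w + o by abel, show x + y + (w + o) + o = x + y + w + o + o by abel]
  generalize T.s (x + x + y + w + w + o + o + o) = σp at *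
  generalize T.s (x + x + y + w + w + o) = σ at *
  generalize T.s (x + y + w + o + o) = Bp at *
  generalize T.s (x + y + w + o) = B at *
  generalize T.s (x + w + o) = Ap at *
  generalize T.s (y + w + o) = v at *
  generalize T.c (x + w + o) = e1 at *
  generalize T.c (x + w) = e2 at *
  generalize T.s (x + w) = a at *
  generalize T.s (x + x + o) = d at *
  generalize T.s (x + o) = xp at *
  generalize T.c (x + o) = cp at *
  generalize T.s (y + o) = bp at *
  generalize T.s x = x0 at *
  generalize T.c x = c0 at *
  generalize T.s w = w0 at *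
  generalize T.s y = b at *
  linear_combination c0 * xp ^ 3 * a ^ 2 * g3 + cp * x0 ^ 3 * Bp ^ 2 * g4 +
    cp * x0 * Bp ^ 2 * (v * a + w0 * B + x0 * bp) * g1 -
    c0 * xp * a ^ 2 * (v * Ap + w0 * Bp + xp * bp) * g2 +
    c0 * cp * bp * a * Bp * (v * a * g2 + (w0 * Bp + xp * bp) * g1) -
    bp * c0 * xp ^ 2 * a ^ 2 * (Bp * g7 + xp * g5) +
    bp * cp * x0 ^ 2 * Bp ^ 2 * (B * g8 + x0 * g6) - bp * c0 * cp * a * Bp * hs

/-- `(★)` at `w = 0`, divided by `s x ^ 2`. -/
theorem star_zero (x y o : A) :
    T.c x * T.s (x + o) ^ 3 * (T.s (x + o) ^ 2 - T.s (x + y + o + o) ^ 2) +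
      T.c (x + o) * T.s x * (T.s (x + y + o) ^ 2 - T.s x ^ 2) * T.s (x + y + o + o) ^ 2 -
      T.s y * T.s (y + o) * T.c x * T.c (x + o) * T.s (x + x + o) * T.s (x + y + o + o) ^ 2 =
    T.Q x y o o * T.s (y + o) ^ 2 := by
  have h1 : T.s y * T.s (x + y + o + o) =
      T.s (y + o) * T.s (x + y + o) - T.s o * T.s (x + o) := by
    have := T.ptolemy o (x + o) y
    rw [show o + y = y + o by abel, show x + o + y = x + y + o by abel,
      show o + (x + o) + y = x + y + o + o by abel] at this
    linear_combination -this
  have h2 : T.s o * T.s (x + x + o) = T.s (x + o) ^ 2 - T.s x ^ 2 := by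
    have := T.s_sq_sub (x + o) x
    rw [show x + o + x = x + x + o by abel, show x + o - x = o by abel] at this
    linear_combination -this
  have h3 : T.s (x + y + o) * T.s (x + y + o + o) - T.s x * T.s (x + o) =
      T.s (y + o) * T.s (x + x + y + o + o) := by
    have := T.ptolemy x (x + o) (y + o)
    rw [show x + (y + o) = x + y + o by abel,
      show x + o + (y + o) = x + y + o + o by abel,
      show x + (x + o) + (y + o) = x + x + y + o + o by abel] at this
    linear_combination this
  have h5 : T.s (x + x + o) * T.s (x + y + o) - T.s (y + o) * T.s (x + o) =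
      T.s x * T.s (x + x + y + o + o) := by
    have := T.ptolemy (x + o) (y + o) x
    rw [show x + o + x = x + x + o by abel, show y + o + x = x + y + o by abel,
      show x + o + (y + o) + x = x + x + y + o + o by abel] at this
    linear_combination this
  have g3 : T.s (x + o) ^ 2 - T.s (x + y + o + o) ^ 2 =
      -(T.s (x + x + y + o + o + o) * T.s (y + o)) := by
    have := T.s_sq_sub (x + o) (x + y + o + o)
    rw [show x + o + (x + y + o + o) = x + x + y + o + o + o by abel,
      show x + o - (x + y + o + o) = -(y + o) by abel, T.s_neg] at this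
    linear_combination this
  have g4 : T.s (x + y + o) ^ 2 - T.s x ^ 2 =
      T.s (x + x + y + o) * T.s (y + o) := by
    have := T.s_sq_sub (x + y + o) x
    rwa [show x + y + o + x = x + x + y + o by abel,
      show x + y + o - x = y + o by abel] at this
  have g5 : T.s (y + o) + T.s (x + x + y + o + o + o) =
      T.s (x + y + o + o) * T.c (x + o) := by
    have := T.s_add_s (x + y + o + o) (x + o)
    rw [show x + y + o + o + (x + o) = x + x + y + o + o + o by abel,
      show x + y + o + o - (x + o) = y + o by abel] at this
    linear_combination this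
  have g6 : T.s (y + o) + T.s (x + x + y + o) =
      T.s (x + y + o) * T.c x := by
    have := T.s_add_s (x + y + o) x
    rw [show x + y + o + x = x + x + y + o by abel,
      show x + y + o - x = y + o by abel] at this
    linear_combination this
  unfold Q
  linear_combination T.c x * T.s (x + o) ^ 3 * g3 +
    T.c (x + o) * T.s x * T.s (x + y + o + o) ^ 2 * g4 -
    T.s (y + o) * T.c x * T.s (x + o) ^ 3 * g5 +
    T.s (y + o) * T.c (x + o) * T.s x * T.s (x + y + o + o) ^ 2 * g6 -
    T.s (y + o) * T.c x * T.c (x + o) * T.s (x + y + o + o) *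
      (T.s (x + x + o) * h1 - T.s (x + o) * h2 - T.s x * h3 + T.s (y + o) * h5)

end TD

end Pool.Agent.H25.RK
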